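import Mathlib

/-! Sifting data: a relation `R p n` (the value at `n` is divisible by `p`), periodic modulo `p`. -/

set_option autoImplicit false

namespace Pool.Agent.Y822.G

open Finset

/-- `R p n` depends on `n` modulo `p` only -/
def Per (R : ℕ → ℕ → Prop) : Prop := ∀ p n : ℕ, R p (n % p) ↔ R p n

open Classical in
/-- the number of residue classes modulo `p` with `R p` -/
noncomputable def rho (R : ℕ → ℕ → Prop) (p : ℕ) : ℕ := ((range p).filter (fun r => R p r)).card

/-- the relation: for some member of the finite set -/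
def QR {ι : Type*} (R : ι → ℕ → ℕ → Prop) (T : Finset ι) (p n : ℕ) : Prop := ∃ a ∈ T, R a p n

/-- the primes up to `y` -/
def ps (y : ℕ) : Finset ℕ := (Icc 1 y).filter Nat.Prime

/-- the primes in `(y, z]` -/
def pb (y z : ℕ) : Finset ℕ := (Ioc y z).filter Nat.Prime

/-- the local density up to `y` -/
noncomputable def VV (Q : ℕ → ℕ → Prop) (y : ℕ) : ℝ := ∏ p ∈ ps y, (1 - (rho Q p : ℝ) / p)

open Classical in
/-- the number of `n ≤ N` outside all the classes modulo the primes up to `z` -/
noncomputable def sft (Q : ℕ → ℕ → Prop) (z N : ℕ) : ℕ :=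
  ((Icc 1 N).filter (fun n => ∀ p ∈ ps z, ¬ Q p n)).card

/-- divisibility of the values of a polynomial -/
def RP (f : Polynomial ℤ) (p n : ℕ) : Prop := (p : ℤ) ∣ f.eval (n : ℤ)

/-- divisibility of `n + h` -/
def RS (h : ℤ) (p n : ℕ) : Prop := (p : ℤ) ∣ (n : ℤ) + h

end Pool.Agent.Y822.G
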