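import Mathlib
import Pool.Agent.Y822.G.Defs

/-! Statements of the lemmas. -/

set_option autoImplicit false

namespace Pool.Agent.Y822.G

open Finset

/-- BRUN: Brun's pure sieve, uniform in the dimension. -/
def BrunStm : Prop := ∀ m U : ℕ, 1 ≤ m → ∃ κ₀ : ℝ, 0 < κ₀ ∧ ∃ N₀ : ℕ, ∀ N : ℕ, N₀ ≤ N →
  ∀ (κ ℓ : ℝ) (k : ℕ), 0 < κ → κ ≤ κ₀ → 1 ≤ k → k * Real.log (Real.log N) ≤ ℓ → ℓ ≤ κ₀ * Real.log N →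
  ∀ y : ℕ, (y : ℝ) ≤ Real.exp (κ * Real.log N / ℓ) → ∀ Q : ℕ → ℕ → Prop, Per Q →
  (∀ p : ℕ, p.Prime → rho Q p ≤ m * k) →
  |(sft Q y N : ℝ) - N * VV Q y| ≤ N * Real.exp (-(U * ℓ))

/-- PLOW: a lower bound for the local densities. -/
def PlowStm : Prop := ∀ m : ℕ, 1 ≤ m → ∃ C : ℝ, 0 < C ∧ ∃ N₀ : ℕ, ∀ N : ℕ, N₀ ≤ N →
  ∀ (ℓ : ℝ) (k : ℕ), 1 ≤ k → k * Real.log (Real.log N) ≤ ℓ → ∀ z : ℕ, z ≤ N →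
  ∀ ν : ℕ → ℕ, (∀ p : ℕ, p.Prime → ν p ≤ m * k) → (∀ p : ℕ, p.Prime → ν p < p) →
  Real.exp (-(C * ℓ)) ≤ ∏ p ∈ ps z, (1 - (ν p : ℝ) / p)

/-- LOC: comparison of the local densities. -/
def LocStm : Prop := ∀ (ι : Type) (R : ι → ℕ → ℕ → Prop) (T : Finset ι) (m q y z : ℕ) (Z : Finset ℕ),
  1 ≤ y → (∀ a ∈ T, ∀ p ∈ pb y z, rho (R a) p ≤ m) → 4 * (m * T.card) ≤ y → Z.card ≤ q →
  (∀ p ∈ pb y z, p ∉ Z → ∀ a ∈ T, ∀ a' ∈ T, a ≠ a' → ∀ n : ℕ, R a p n → ¬ R a' p n) →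
  (1 - (4 * (m * T.card : ℝ) ^ 2 + 2 * (m * T.card) * q) / y) * ∏ p ∈ pb y z, (1 - (rho (QR R T) p : ℝ) / p) ≤
    ∏ a ∈ T, ∏ p ∈ pb y z, (1 - (rho (R a) p : ℝ) / p) ∧
  ∏ a ∈ T, ∏ p ∈ pb y z, (1 - (rho (R a) p : ℝ) / p) ≤
    Real.exp ((4 * (m * T.card : ℝ) ^ 2 + 2 * (m * T.card) * q) / y) *
      ∏ p ∈ pb y z, (1 - (rho (QR R T) p : ℝ) / p)

/-- POL: polynomials. (1) periodicity, (2) the number of roots, (3) the size of the values, (4) common roots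
of two coprime polynomials modulo a prime. -/
def PolStm : Prop :=
  (∀ f : Polynomial ℤ, Per (RP f)) ∧
  (∀ (f : Polynomial ℤ) (p : ℕ), p.Prime → (∃ n : ℕ, ¬ (p : ℤ) ∣ f.eval (n : ℤ)) → rho (RP f) p ≤ f.natDegree) ∧
  (∀ D C : ℕ, ∃ K X₀ : ℕ, ∀ X : ℕ, X₀ ≤ X → ∀ f : Polynomial ℤ, f.natDegree ≤ D → (∀ i, |f.coeff i| ≤ (X : ℤ) ^ C) →
    (∀ n : ℕ, n ≤ X → |f.eval (n : ℤ)| ≤ (X : ℤ) ^ K) ∧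
    ∀ g : Polynomial ℤ, g.natDegree ≤ D → (∀ i, |g.coeff i| ≤ (X : ℤ) ^ C) →
      IsCoprime (f.map (Int.castRingHom ℚ)) (g.map (Int.castRingHom ℚ)) →
      ∃ Δ : ℕ, 1 ≤ Δ ∧ Δ ≤ X ^ K ∧ ∀ p : ℕ, p.Prime → ∀ n : ℕ, RP f p n → RP g p n → p ∣ Δ)

/-- the factor at `p` of the singular series of a finite set of shifts -/
noncomputable def lS (H : Finset ℤ) (p : ℕ) : ℝ :=
  (1 - (rho (QR RS H) p : ℝ) / p) / (1 - 1 / (p : ℝ)) ^ H.card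

/-- the singular series -/
noncomputable def SS (H : Finset ℤ) : ℝ := ∏' p : Nat.Primes, lS H p

/-- SING: the singular series of `k` shifts, uniformly in `k`. -/
def SingStm : Prop := ∀ (δ : ℝ) (C : ℕ), 0 < δ → δ ≤ 1 → ∃ c₁ c₂ : ℝ, 0 < c₁ ∧ 0 < c₂ ∧ ∃ N₀ : ℕ, ∀ N : ℕ, N₀ ≤ N →
  ∀ H : Finset ℤ, 1 ≤ H.card → (H.card : ℝ) ^ 2 ≤ Real.log N → (∀ h ∈ H, |h| ≤ (N : ℤ) ^ C) →
  (∀ p : ℕ, p.Prime → rho (QR RS H) p < p) →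
  HasProd (fun p : Nat.Primes => lS H p) (SS H) ∧ 0 < SS H ∧
  ∀ z : ℕ, z = ⌊(N : ℝ) ^ δ⌋₊ →
  c₁ ^ H.card * (SS H / Real.log N ^ H.card) ≤ VV (QR RS H) z ∧
  VV (QR RS H) z ≤ c₂ ^ H.card * (SS H / Real.log N ^ H.card)

end Pool.Agent.Y822.G
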