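import Mathlib
import Pool.Agent.Y822.Cnt
import Pool.Agent.Y822.G.Defs
import Pool.Agent.H373R2.T7.Crt

/-! Counting integers in a residue class outside the sifted classes. -/

set_option autoImplicit false

namespace Pool.Agent.Y822.G

open Finset
open Pool.Agent.Y822 (Ad Ad_nonneg)

lemma mem_ps {y p : ℕ} : p ∈ ps y ↔ p.Prime ∧ p ≤ y := by
  unfold ps
  rw [mem_filter, mem_Icc]
  exact ⟨fun h => ⟨h.2, h.1.2⟩, fun h => ⟨⟨h.1.one_lt.le, h.2⟩, h.1⟩⟩

lemma mem_pb {y z p : ℕ} : p ∈ pb y z ↔ p.Prime ∧ y < p ∧ p ≤ z := by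
  unfold pb
  rw [mem_filter, mem_Ioc]
  exact ⟨fun h => ⟨h.2, h.1⟩, fun h => ⟨h.2, h.1⟩⟩

lemma rho_le_p (Q : ℕ → ℕ → Prop) (p : ℕ) : rho Q p ≤ p := by
  classical
  unfold rho
  exact (card_filter_le _ _).trans (card_range p).le

lemma fac_nonneg (Q : ℕ → ℕ → Prop) (p : ℕ) : 0 ≤ 1 - (rho Q p : ℝ) / p := by
  rw [sub_nonneg]
  apply div_le_one_of_le₀ _ (Nat.cast_nonneg _)
  exact_mod_cast rho_le_p Q p

lemma fac_le_one (Q : ℕ → ℕ → Prop) (p : ℕ) : 1 - (rho Q p : ℝ) / p ≤ 1 := by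
  have : 0 ≤ (rho Q p : ℝ) / p := by positivity
  linarith

lemma VV_nonneg (Q : ℕ → ℕ → Prop) (y : ℕ) : 0 ≤ VV Q y := prod_nonneg fun p _ => fac_nonneg Q p

lemma VV_le_one (Q : ℕ → ℕ → Prop) (y : ℕ) : VV Q y ≤ 1 :=
  prod_le_one (fun p _ => fac_nonneg Q p) (fun p _ => fac_le_one Q p)

lemma per_mod {Q : ℕ → ℕ → Prop} (hQ : Per Q) {p n n' : ℕ} (h : n ≡ n' [MOD p]) : Q p n ↔ Q p n' := by
  rw [← hQ p n, ← hQ p n']
  have : n % p = n' % p := h
  rw [this]

open Classical in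
lemma card_affine (p q s : ℕ) (hpq : Nat.Coprime p q) (hp : 0 < p) (Q : ℕ → Prop) :
    ((range p).filter (fun x => Q ((s + q * x) % p))).card = ((range p).filter (fun r => Q r)).card :=
  Pool.Agent.Y822.card_affine p q s hpq hp Q

open Classical in
/-- counting in one residue class -/
theorem cls (m : ℕ) : ∃ C0 K0 : ℕ, 1 ≤ C0 ∧ 1 ≤ K0 ∧ ∀ b : ℕ, C0 ≤ b → ∀ y : ℕ, 2 ≤ y →
    ∀ (N : ℕ) (Q : ℕ → ℕ → Prop), Per Q → (∀ p ∈ ps y, rho Q p ≤ m) → ∀ q c : ℕ, 1 ≤ q →
    (∀ p ∈ ps y, Nat.Coprime p q) →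
    |(((Icc 1 N).filter (fun n => n ≡ c [MOD q] ∧ ∀ p ∈ ps y, ¬ Q p n)).card : ℝ) - (N : ℝ) / q * VV Q y| ≤
      (1 / 2) ^ b * ((N : ℝ) / q) + 2 + Ad C0 K0 b y := by
  obtain ⟨C0, K0, hC0, hK0, hfl⟩ := Pool.Agent.TH892.SW.fl_set m
  refine ⟨C0, K0, hC0, hK0, ?_⟩
  intro b hb y hy N Q hQ hm q c hq1 hPq
  -- a representative between `1` and `q`
  obtain ⟨c0, hc01, hc0q, hc0⟩ : ∃ c0 : ℕ, 1 ≤ c0 ∧ c0 ≤ q ∧ ∀ n : ℕ, n ≡ c [MOD q] ↔ n ≡ c0 [MOD q] := by
    by_cases h0 : c % q = 0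
    · refine ⟨q, hq1, le_rfl, fun n => ?_⟩
      have : c ≡ q [MOD q] := by
        show c % q = q % q
        rw [h0, Nat.mod_self]
      exact ⟨fun h => h.trans this, fun h => h.trans this.symm⟩
    · refine ⟨c % q, Nat.pos_of_ne_zero h0, (Nat.mod_lt _ hq1).le, fun n => ?_⟩
      have : c ≡ c % q [MOD q] := (Nat.mod_modEq c q).symm
      exact ⟨fun h => h.trans this, fun h => h.trans this.symm⟩
  set X := (N + q - c0) / q with hX
  set P := ps y with hP
  obtain ⟨R, hR⟩ : ∃ R : ℕ → ℕ → Prop, ∀ p x, R p x ↔ Q p ((c0 + q * (p - 1) + q * x) % p) :=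
    ⟨_, fun _ _ => Iff.rfl⟩
  have hcard : ∀ p ∈ P, ((range p).filter (fun x => R p x)).card = rho Q p := by
    intro p hp
    have hp0 : 0 < p := (mem_ps.1 hp).1.pos
    have h1 := card_affine p q (c0 + q * (p - 1)) (hPq p hp) hp0 (fun r => Q p r)
    unfold rho
    rw [← h1]
    exact congrArg card (filter_congr fun x _ => hR p x)
  have key := hfl b hb y hy X P R (fun p hp => by
    refine ⟨(mem_ps.1 hp).1, (mem_ps.1 hp).2, ?_⟩
    rw [hcard p hp]
    exact hm p hp)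
  have hprod : ∏ p ∈ P, (1 - (((range p).filter (fun a => R p a)).card : ℝ) / p) = VV Q y := by
    unfold VV
    refine prod_congr rfl fun p hp => ?_
    rw [hcard p hp]
  rw [hprod] at key
  have hRn : ∀ p ∈ P, ∀ t : ℕ, (R p ((t + 1) % p) ↔ Q p (c0 + q * t)) := by
    intro p hp t
    have hpp := (mem_ps.1 hp).1
    rw [hR]
    have hmod2 : (c0 + q * (p - 1) + q * ((t + 1) % p)) ≡ c0 + q * t [MOD p] := by
      have e1 : c0 + q * (p - 1) + q * ((t + 1) % p) ≡ c0 + q * (p - 1) + q * (t + 1) [MOD p] :=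
        Nat.ModEq.add_left _ (Nat.ModEq.mul_left q (Nat.mod_modEq (t + 1) p))
      have e2 : c0 + q * (p - 1) + q * (t + 1) = c0 + q * t + q * p := by
        obtain ⟨p', rfl⟩ : ∃ p', p = p' + 1 := ⟨p - 1, by have := hpp.pos; omega⟩
        simp only [Nat.add_sub_cancel]
        ring
      rw [e2] at e1
      have e3 : c0 + q * t + q * p ≡ c0 + q * t [MOD p] := by
        have : q * p ≡ 0 [MOD p] := (Nat.modEq_zero_iff_dvd).2 (Dvd.intro_left q rfl)
        simpa using Nat.ModEq.add_left (c0 + q * t) this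
      exact e1.trans e3
    exact (hQ p _).trans (per_mod hQ hmod2)
  -- the count
  have hcount : (((Icc 1 N).filter (fun n => n ≡ c [MOD q] ∧ ∀ p ∈ ps y, ¬ Q p n)).card : ℝ) =
      (((Icc 1 X).filter (fun n => ∀ p ∈ P, ¬ R p (n % p))).card : ℝ) := by
    congr 1
    symm
    refine card_bij (fun m _ => c0 + q * (m - 1)) ?_ ?_ ?_
    · intro m hm
      rw [mem_filter, mem_Icc] at hm
      obtain ⟨⟨hm1, hmX⟩, hmR⟩ := hm
      have hN : c0 + q * (m - 1) ≤ N := by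
        have h2 : q * m ≤ N + q - c0 := by
          calc q * m ≤ q * X := Nat.mul_le_mul_left q hmX
            _ ≤ N + q - c0 := by rw [hX]; exact Nat.mul_div_le _ _
        have h3 : q * (m - 1) = q * m - q := by rw [Nat.mul_sub, mul_one]
        have h4 : q ≤ q * m := Nat.le_mul_of_pos_right q hm1
        omega
      rw [mem_filter, mem_Icc]
      refine ⟨⟨by omega, hN⟩, ?_, ?_⟩
      · rw [hc0]
        have : q * (m - 1) ≡ 0 [MOD q] := (Nat.modEq_zero_iff_dvd).2 (Dvd.intro _ rfl)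
        simpa using Nat.ModEq.add_left c0 this
      · intro p hp hq'
        apply hmR p hp
        have := (hRn p hp (m - 1)).2 hq'
        rwa [Nat.sub_add_cancel hm1] at this
    · intro m hm m' hm' h
      rw [mem_filter, mem_Icc] at hm hm'
      have h2 : q * (m - 1) = q * (m' - 1) := by
        have h' : c0 + q * (m - 1) = c0 + q * (m' - 1) := h
        omega
      have h3 := Nat.eq_of_mul_eq_mul_left hq1 h2
      omega
    · intro n hn
      rw [mem_filter, mem_Icc] at hn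
      obtain ⟨⟨hn1, hnN⟩, hmod, hr⟩ := hn
      rw [hc0] at hmod
      have hle : c0 ≤ n := by
        by_contra hlt
        push Not at hlt
        have h1 : n < q := lt_of_lt_of_le hlt hc0q
        have h2 : n % q = c0 % q := hmod
        rw [Nat.mod_eq_of_lt h1] at h2
        rcases Nat.lt_or_ge c0 q with h3 | h3
        · rw [Nat.mod_eq_of_lt h3] at h2; omega
        · have : c0 = q := le_antisymm hc0q h3
          rw [this, Nat.mod_self] at h2
          omega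
      obtain ⟨t, ht⟩ : q ∣ n - c0 := (Nat.modEq_iff_dvd' hle).1 hmod.symm
      have hnt : n = c0 + q * t := by omega
      refine ⟨t + 1, ?_, ?_⟩
      · rw [mem_filter, mem_Icc]
        refine ⟨⟨by omega, ?_⟩, ?_⟩
        · rw [hX, Nat.le_div_iff_mul_le hq1]
          have : (t + 1) * q = q * t + q := by ring
          omega
        · intro p hp hRp
          apply hr p hp
          rw [hnt]
          exact (hRn p hp t).1 hRp
      · simp only [Nat.add_sub_cancel]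
        exact hnt.symm
  rw [hcount]
  have hq0 : (0 : ℝ) < q := by exact_mod_cast hq1
  have hXq : |(X : ℝ) - N / q| ≤ 1 := by
    have h1 : ((N + q - c0 : ℕ) : ℝ) = (N : ℝ) + q - c0 := by
      rw [Nat.cast_sub (by omega)]
      push_cast
      ring
    have h2 : (X : ℝ) ≤ ((N : ℝ) + q - c0) / q := by
      rw [hX, ← h1]
      exact Nat.cast_div_le
    have h3 : ((N : ℝ) + q - c0) / q < X + 1 := by
      rw [div_lt_iff₀ hq0, ← h1]
      have := Nat.lt_div_mul_add (a := N + q - c0) hq1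
      rw [← hX] at this
      have h4 : ((N + q - c0 : ℕ) : ℝ) < ((X * q + q : ℕ) : ℝ) := by exact_mod_cast this
      push_cast at h4
      linarith
    have hc0' : (1 : ℝ) ≤ c0 := by exact_mod_cast hc01
    have hc0'' : (c0 : ℝ) ≤ q := by exact_mod_cast hc0q
    have e : ((N : ℝ) + q - c0) / q = N / q + 1 - c0 / q := by field_simp
    have e2 : (c0 : ℝ) / q ≤ 1 := by rw [div_le_one hq0]; exact hc0''
    have e3 : 0 ≤ (c0 : ℝ) / q := by positivity
    rw [abs_le]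
    constructor <;> linarith
  have hV0 := VV_nonneg Q y
  have hV1 := VV_le_one Q y
  have hX0 : (0 : ℝ) ≤ X := Nat.cast_nonneg _
  have hA : Ad C0 K0 b y = ((Pool.Agent.W41.JJ y : ℝ) + 2) * ((y : ℝ) ^ (2 * (C0 * b)) *
      (K0 * (y : ℝ) ^ (2 * (C0 * b)))) := rfl
  rw [← hA] at key
  have h2b : (0 : ℝ) < (1 / 2) ^ b := by positivity
  have h2b1 : ((1 : ℝ) / 2) ^ b ≤ 1 := pow_le_one₀ (by norm_num) (by norm_num)
  have hXle : (X : ℝ) ≤ N / q + 1 := by linarith [(abs_le.1 hXq).2]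
  have hNq : 0 ≤ (N : ℝ) / q := by positivity
  have e1 : (1 / 2 : ℝ) ^ b * (X * VV Q y) ≤ (1 / 2) ^ b * ((N : ℝ) / q) + 1 := by
    have : (X : ℝ) * VV Q y ≤ (N / q + 1) * 1 :=
      mul_le_mul hXle hV1 hV0 (by linarith)
    calc (1 / 2 : ℝ) ^ b * (X * VV Q y) ≤ (1 / 2 : ℝ) ^ b * (N / q + 1) := by
          apply mul_le_mul_of_nonneg_left _ h2b.le
          linarith
      _ ≤ _ := by nlinarith
  have e2 : |(X : ℝ) * VV Q y - N / q * VV Q y| ≤ 1 := by
    rw [← sub_mul, abs_mul, abs_of_nonneg hV0]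
    calc |(X : ℝ) - N / q| * VV Q y ≤ 1 * 1 := mul_le_mul hXq hV1 hV0 zero_le_one
      _ = 1 := one_mul 1
  have e3 : ∀ x : ℝ, |x - X * VV Q y| ≤ (1 / 2 : ℝ) ^ b * (X * VV Q y) + Ad C0 K0 b y →
      |x - N / q * VV Q y| ≤ (1 / 2) ^ b * ((N : ℝ) / q) + 2 + Ad C0 K0 b y := by
    intro x hx
    have := abs_sub_le x (X * VV Q y) (N / q * VV Q y)
    linarith
  exact e3 _ key

end Pool.Agent.Y822.G
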