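import Mathlib
import Pool.Agent.Y822.G.Cnt

/-! Joint distribution of two sifting data along sets of large primes. -/

set_option autoImplicit false

namespace Pool.Agent.Y822.G

open Finset
open Pool.Agent.Y822 (Ad Ad_nonneg)

/-- one of two relations -/
def OR (R R' : ℕ → ℕ → Prop) (p n : ℕ) : Prop := R p n ∨ R' p n

open Classical in
/-- the relation holds for all the primes of `T` -/
noncomputable def ind (R : ℕ → ℕ → Prop) (T : Finset ℕ) (n : ℕ) : ℝ := if ∀ p ∈ T, R p n then 1 else 0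

/-- its density -/
noncomputable def den (R : ℕ → ℕ → Prop) (T : Finset ℕ) : ℝ := ∏ p ∈ T, (rho R p : ℝ) / p

open Classical in
/-- no relation for the primes up to `y` -/
noncomputable def ro (R : ℕ → ℕ → Prop) (y n : ℕ) : ℝ := if ∀ p ∈ ps y, ¬ R p n then 1 else 0

lemma ro_nonneg (R : ℕ → ℕ → Prop) (y n : ℕ) : 0 ≤ ro R y n := by unfold ro; split_ifs <;> norm_num

lemma ro_le_one (R : ℕ → ℕ → Prop) (y n : ℕ) : ro R y n ≤ 1 := by unfold ro; split_ifs <;> norm_num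

lemma ind_nonneg (R : ℕ → ℕ → Prop) (T : Finset ℕ) (n : ℕ) : 0 ≤ ind R T n := by unfold ind; split_ifs <;> norm_num

lemma ind_le_one (R : ℕ → ℕ → Prop) (T : Finset ℕ) (n : ℕ) : ind R T n ≤ 1 := by unfold ind; split_ifs <;> norm_num

lemma den_nonneg (R : ℕ → ℕ → Prop) (T : Finset ℕ) : 0 ≤ den R T := prod_nonneg fun p _ => by positivity

lemma per_or {R R' : ℕ → ℕ → Prop} (h : Per R) (h' : Per R') : Per (OR R R') := fun p n => by
  unfold OR
  rw [h p n, h' p n]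

lemma rho_or_le (R R' : ℕ → ℕ → Prop) (p : ℕ) : rho (OR R R') p ≤ rho R p + rho R' p := by
  classical
  unfold rho
  have h : (range p).filter (fun r => OR R R' p r) ⊆
      (range p).filter (fun r => R p r) ∪ (range p).filter (fun r => R' p r) := by
    intro r hr
    rw [mem_filter] at hr
    rw [mem_union, mem_filter, mem_filter]
    rcases hr.2 with h | h
    · exact Or.inl ⟨hr.1, h⟩
    · exact Or.inr ⟨hr.1, h⟩
  exact (card_le_card h).trans (card_union_le _ _)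

open Classical in
/-- joint distribution -/
theorem cnt (m : ℕ) : ∃ C0 K0 : ℕ, 1 ≤ C0 ∧ 1 ≤ K0 ∧ ∀ b : ℕ, C0 ≤ b → ∀ y : ℕ, 2 ≤ y →
    ∀ (N : ℕ) (R R' : ℕ → ℕ → Prop), Per R → Per R' → (∀ p ∈ ps y, rho (OR R R') p ≤ m) →
    ∀ T T' : Finset ℕ, (∀ p ∈ T, p.Prime ∧ y < p) → (∀ p ∈ T', p.Prime ∧ y < p) → Disjoint T T' →
    |∑ n ∈ Icc 1 N, (ro R y n * ro R' y n) * (ind R T n * ind R' T' n) -
      N * (den R T * den R' T') * VV (OR R R') y| ≤
      ((∏ p ∈ T, (rho R p : ℝ)) * ∏ p ∈ T', (rho R' p : ℝ)) *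
        ((1 / 2) ^ b * ((N : ℝ) / ((∏ p ∈ T, (p : ℝ)) * ∏ p ∈ T', (p : ℝ))) + 2 + Ad C0 K0 b y) := by
  obtain ⟨C0, K0, hC0, hK0, hcls⟩ := cls m
  refine ⟨C0, K0, hC0, hK0, ?_⟩
  intro b hb y hy N R R' hR hR' hm T T' hT hT' hdis
  set S := T ∪ T' with hS
  have hSp : ∀ p ∈ S, p.Prime ∧ y < p := by
    intro p hp
    rcases mem_union.1 hp with h | h
    · exact hT p h
    · exact hT' p h
  obtain ⟨A, hA⟩ : ∃ A : ℕ → ℕ → Prop, A = fun p a => if p ∈ T then R p a else R' p a := ⟨_, rfl⟩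
  have hA1 : ∀ p ∈ T, ∀ a, A p a ↔ R p a := by
    intro p hp a; rw [hA]; simp only [if_pos hp]
  have hA2 : ∀ p ∈ T', ∀ a, A p a ↔ R' p a := by
    intro p hp a
    have : p ∉ T := fun h => (disjoint_left.1 hdis h) hp
    rw [hA]; simp only [if_neg this]
  have hAall : ∀ n, (∀ p ∈ S, A p (n % p)) ↔ ((∀ p ∈ T, R p n) ∧ ∀ p ∈ T', R' p n) := by
    intro n
    constructor
    · intro h
      refine ⟨fun p hp => ?_, fun p hp => ?_⟩
      · exact (hR p n).1 ((hA1 p hp _).1 (h p (mem_union_left _ hp)))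
      · exact (hR' p n).1 ((hA2 p hp _).1 (h p (mem_union_right _ hp)))
    · rintro ⟨h1, h2⟩ p hp
      rcases mem_union.1 hp with h | h
      · exact (hA1 p h _).2 ((hR p n).2 (h1 p h))
      · exact (hA2 p h _).2 ((hR' p n).2 (h2 p h))
  set q := ∏ p ∈ S, p with hq
  have hq1 : 1 ≤ q := Nat.pos_of_ne_zero (prod_ne_zero_iff.2 fun p hp => (hSp p hp).1.ne_zero)
  have hqc : ∀ p ∈ ps y, Nat.Coprime p q := by
    intro p hp
    refine Nat.Coprime.prod_right fun p' hp' => ?_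
    rw [Nat.coprime_primes (mem_ps.1 hp).1 (hSp p' hp').1]
    have := (mem_ps.1 hp).2
    have := (hSp p' hp').2
    omega
  have hqr : (q : ℝ) = (∏ p ∈ T, (p : ℝ)) * ∏ p ∈ T', (p : ℝ) := by
    rw [hq, hS, prod_union hdis]
    push_cast
    rfl
  obtain ⟨CC, hCC⟩ : ∃ CC : Finset ℕ, CC = (range q).filter (fun c => ∀ p ∈ S, A p (c % p)) := ⟨_, rfl⟩
  have hcardCC : (CC.card : ℝ) = (∏ p ∈ T, (rho R p : ℝ)) * ∏ p ∈ T', (rho R' p : ℝ) := by
    have h1 := Pool.Agent.H373R2.T7.crt_card A S (fun p hp => (hSp p hp).1)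
    rw [← hq] at h1
    rw [hCC, h1, hS, prod_union hdis]
    push_cast
    congr 1
    · refine prod_congr rfl fun p hp => ?_
      unfold rho
      congr 2
      exact filter_congr fun a _ => hA1 p hp a
    · refine prod_congr rfl fun p hp => ?_
      unfold rho
      congr 2
      exact filter_congr fun a _ => hA2 p hp a
  -- the sum over the classes
  have hper : Per (OR R R') := per_or hR hR'
  have hpt : ∀ n ∈ Icc 1 N, (ro R y n * ro R' y n) * (ind R T n * ind R' T' n) =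
      ∑ c ∈ CC, if (n ≡ c [MOD q] ∧ ∀ p ∈ ps y, ¬ OR R R' p n) then (1 : ℝ) else 0 := by
    intro n _
    have e1 : (ro R y n * ro R' y n) * (ind R T n * ind R' T' n) =
        if ((∀ p ∈ S, A p (n % p)) ∧ ∀ p ∈ ps y, ¬ OR R R' p n) then (1 : ℝ) else 0 := by
      unfold ro ind
      by_cases c1 : ∀ p ∈ ps y, ¬ R p n
      · by_cases c2 : ∀ p ∈ ps y, ¬ R' p n
        · have e3 : ∀ p ∈ ps y, ¬ OR R R' p n := fun p hp h => h.elim (c1 p hp) (c2 p hp)
          by_cases e4 : ∀ p ∈ T, R p n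
          · by_cases e5 : ∀ p ∈ T', R' p n
            · have hC : (∀ p ∈ S, A p (n % p)) ∧ ∀ p ∈ ps y, ¬ OR R R' p n := ⟨(hAall n).2 ⟨e4, e5⟩, e3⟩
              rw [if_pos c1, if_pos c2, if_pos e4, if_pos e5, if_pos hC]; norm_num
            · have hC : ¬ ((∀ p ∈ S, A p (n % p)) ∧ ∀ p ∈ ps y, ¬ OR R R' p n) :=
                fun h => e5 ((hAall n).1 h.1).2
              rw [if_neg e5, if_neg hC, mul_zero, mul_zero]
          · have hC : ¬ ((∀ p ∈ S, A p (n % p)) ∧ ∀ p ∈ ps y, ¬ OR R R' p n) :=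
              fun h => e4 ((hAall n).1 h.1).1
            rw [if_neg e4, if_neg hC, zero_mul, mul_zero]
        · have hC : ¬ ((∀ p ∈ S, A p (n % p)) ∧ ∀ p ∈ ps y, ¬ OR R R' p n) :=
            fun h => c2 fun p hp h' => h.2 p hp (Or.inr h')
          rw [if_neg c2, if_neg hC, mul_zero, zero_mul]
      · have hC : ¬ ((∀ p ∈ S, A p (n % p)) ∧ ∀ p ∈ ps y, ¬ OR R R' p n) :=
          fun h => c1 fun p hp h' => h.2 p hp (Or.inl h')
        rw [if_neg c1, if_neg hC, zero_mul, zero_mul]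
    rw [e1]
    by_cases h3 : ∀ p ∈ ps y, ¬ OR R R' p n
    · have h4 : ∀ c ∈ CC, (if (n ≡ c [MOD q] ∧ ∀ p ∈ ps y, ¬ OR R R' p n) then (1 : ℝ) else 0) =
          if c = n % q then (1 : ℝ) else 0 := by
        intro c hc
        rw [hCC, mem_filter, mem_range] at hc
        by_cases h5 : c = n % q
        · rw [if_pos h5, if_pos]
          refine ⟨?_, h3⟩
          rw [h5]
          exact (Nat.mod_modEq n q).symm
        · rw [if_neg h5, if_neg]
          rintro ⟨h6, _⟩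
          apply h5
          have : n % q = c % q := h6
          rw [this, Nat.mod_eq_of_lt hc.1]
      rw [sum_congr rfl h4, sum_ite_eq']
      have h7 : n % q ∈ CC ↔ ∀ p ∈ S, A p (n % p) := by
        rw [hCC, mem_filter, mem_range]
        have h8 : ∀ p ∈ S, n % q % p = n % p := fun p hp => Nat.mod_mod_of_dvd n (dvd_prod_of_mem _ hp)
        constructor
        · rintro ⟨_, h⟩ p hp
          rw [← h8 p hp]
          exact h p hp
        · intro h
          refine ⟨Nat.mod_lt _ hq1, fun p hp => ?_⟩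
          rw [h8 p hp]
          exact h p hp
      by_cases h9 : ∀ p ∈ S, A p (n % p)
      · rw [if_pos (h7.2 h9)]
        have hC : (∀ p ∈ S, A p (n % p)) ∧ ∀ p ∈ ps y, ¬ OR R R' p n := ⟨h9, h3⟩
        rw [if_pos hC]
      · have hn : n % q ∉ CC := fun h => h9 (h7.1 h)
        have hC : ¬ ((∀ p ∈ S, A p (n % p)) ∧ ∀ p ∈ ps y, ¬ OR R R' p n) := fun h => h9 h.1
        rw [if_neg hn, if_neg hC]
    · have hC : ¬ ((∀ p ∈ S, A p (n % p)) ∧ ∀ p ∈ ps y, ¬ OR R R' p n) := fun h => h3 h.2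
      rw [if_neg hC]
      symm
      refine sum_eq_zero fun c _ => ?_
      have hC' : ¬ (n ≡ c [MOD q] ∧ ∀ p ∈ ps y, ¬ OR R R' p n) := fun h => h3 h.2
      rw [if_neg hC']
  rw [sum_congr rfl hpt, sum_comm]
  have hsum : ∀ c ∈ CC, ∑ n ∈ Icc 1 N, (if (n ≡ c [MOD q] ∧ ∀ p ∈ ps y, ¬ OR R R' p n) then (1 : ℝ) else 0) =
      (((Icc 1 N).filter (fun n => n ≡ c [MOD q] ∧ ∀ p ∈ ps y, ¬ OR R R' p n)).card : ℝ) := by
    intro c _
    rw [← sum_filter, sum_const, nsmul_eq_mul, mul_one]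
  rw [sum_congr rfl hsum]
  have hmain : N * (den R T * den R' T') * VV (OR R R') y = ∑ _c ∈ CC, (N : ℝ) / q * VV (OR R R') y := by
    rw [sum_const, nsmul_eq_mul, hcardCC, hqr]
    unfold den
    rw [prod_div_distrib, prod_div_distrib]
    have h1 : (∏ p ∈ T, (p : ℝ)) ≠ 0 := prod_ne_zero_iff.2 fun p hp => by exact_mod_cast (hT p hp).1.ne_zero
    have h2 : (∏ p ∈ T', (p : ℝ)) ≠ 0 := prod_ne_zero_iff.2 fun p hp => by exact_mod_cast (hT' p hp).1.ne_zero
    field_simp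
  rw [hmain, ← sum_sub_distrib, ← hqr, ← hcardCC]
  refine (abs_sum_le_sum_abs _ _).trans ?_
  rw [← nsmul_eq_mul, ← sum_const]
  exact sum_le_sum fun c _ => hcls b hb y hy N (OR R R') hper hm q c hq1 hqc

end Pool.Agent.Y822.G
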