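import Mathlib
import Pool.Agent.Y822.G.Pair
import Pool.Agent.Y822.Corr

/-! Correlations of centred sums over sets of large primes. -/

set_option autoImplicit false

namespace Pool.Agent.Y822.G

open Finset
open Pool.Agent.Y822 (Ad Ad_nonneg)

/-- the sets of primes in `(y, z]` with product at most `D` -/
def TT (y z D : ℕ) : Finset (Finset ℕ) := (pb y z).powerset.filter (fun T => ∏ p ∈ T, p ≤ D)

/-- centred indicator -/
noncomputable def cen (R : ℕ → ℕ → Prop) (T : Finset ℕ) (n : ℕ) : ℝ := ind R T n - den R T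

/-- its majorant -/
noncomputable def acen (R : ℕ → ℕ → Prop) (T : Finset ℕ) (n : ℕ) : ℝ := ind R T n + den R T

/-- centred sum -/
noncomputable def GF (R : ℕ → ℕ → Prop) (y z D : ℕ) (c : Finset ℕ → ℝ) (n : ℕ) : ℝ :=
  ro R y n * ∑ T ∈ TT y z D, c T * cen R T n

/-- majorant of the sums of densities -/
noncomputable def EE (m y z : ℕ) : ℝ := ∏ p ∈ pb y z, (1 + (m : ℝ) / p)

lemma mem_TT {y z D : ℕ} {T : Finset ℕ} : T ∈ TT y z D ↔ T ⊆ pb y z ∧ ∏ p ∈ T, p ≤ D := by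
  unfold TT
  rw [mem_filter, mem_powerset]

lemma TT_pr {y z D : ℕ} {T : Finset ℕ} (hT : T ∈ TT y z D) : ∀ p ∈ T, p.Prime ∧ y < p := fun p hp =>
  ⟨(mem_pb.1 ((mem_TT.1 hT).1 hp)).1, (mem_pb.1 ((mem_TT.1 hT).1 hp)).2.1⟩

lemma EE_pos (m y z : ℕ) : 0 < EE m y z := prod_pos fun p _ => by positivity

lemma one_le_EE (m y z : ℕ) : 1 ≤ EE m y z := by
  unfold EE
  refine le_trans (le_of_eq ?_) (prod_le_prod (f := fun _ : ℕ => (1 : ℝ)) (fun p _ => zero_le_one) fun p _ => ?_)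
  · rw [prod_const_one]
  · have : (0 : ℝ) ≤ (m : ℝ) / p := by positivity
    linarith

lemma abs_cen_le (R : ℕ → ℕ → Prop) (T : Finset ℕ) (n : ℕ) : |cen R T n| ≤ acen R T n := by
  unfold cen acen
  have h1 := ind_nonneg R T n
  have h2 := den_nonneg R T
  rw [abs_le]
  constructor <;> linarith

lemma acen_nonneg (R : ℕ → ℕ → Prop) (T : Finset ℕ) (n : ℕ) : 0 ≤ acen R T n :=
  add_nonneg (ind_nonneg _ _ _) (den_nonneg _ _)

section
variable {R : ℕ → ℕ → Prop} {m y z D : ℕ}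

lemma den_le (hm : ∀ p ∈ pb y z, rho R p ≤ m) {T : Finset ℕ} (hT : T ⊆ pb y z) :
    den R T ≤ ∏ p ∈ T, ((m : ℝ) / p) := by
  unfold den
  refine prod_le_prod (fun p _ => by positivity) fun p hp => ?_
  apply div_le_div_of_nonneg_right _ (Nat.cast_nonneg _)
  exact_mod_cast hm p (hT hp)

lemma sum_prod_le (s : Finset (Finset ℕ)) (hs : s ⊆ (pb y z).powerset) :
    ∑ T ∈ s, ∏ p ∈ T, ((m : ℝ) / p) ≤ EE m y z := by
  unfold EE
  rw [prod_one_add]
  exact sum_le_sum_of_subset_of_nonneg hs fun T _ _ => prod_nonneg fun p _ => by positivity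

lemma sum_den (hm : ∀ p ∈ pb y z, rho R p ≤ m) : ∑ T ∈ TT y z D, den R T ≤ EE m y z :=
  (sum_le_sum fun T hT => den_le hm (mem_TT.1 hT).1).trans
    (sum_prod_le _ (fun T hT => mem_powerset.2 (mem_TT.1 hT).1))

lemma sum_rho (hm : ∀ p ∈ pb y z, rho R p ≤ m) :
    ∑ T ∈ TT y z D, ∏ p ∈ T, (rho R p : ℝ) ≤ D * EE m y z := by
  calc _ ≤ ∑ T ∈ TT y z D, D * den R T := by
        refine sum_le_sum fun T hT => ?_
        have h1 : ∏ p ∈ T, (rho R p : ℝ) = (∏ p ∈ T, (p : ℝ)) * den R T := by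
          unfold den
          rw [← prod_mul_distrib]
          refine prod_congr rfl fun p hp => ?_
          have : (p : ℝ) ≠ 0 := by exact_mod_cast (TT_pr hT p hp).1.ne_zero
          field_simp
        rw [h1]
        apply mul_le_mul_of_nonneg_right _ (den_nonneg _ _)
        have h2 : ((∏ p ∈ T, p : ℕ) : ℝ) ≤ D := by exact_mod_cast (mem_TT.1 hT).2
        push_cast at h2
        exact h2
    _ = D * ∑ T ∈ TT y z D, den R T := by rw [mul_sum]
    _ ≤ _ := mul_le_mul_of_nonneg_left (sum_den hm) (Nat.cast_nonneg _)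

lemma sum_den' (hm : ∀ p ∈ pb y z, rho R p ≤ m) (p : ℕ) :
    ∑ T ∈ (TT y z D).filter (fun T => p ∈ T), den R T ≤ m / p * EE m y z := by
  classical
  calc _ ≤ ∑ T ∈ (TT y z D).filter (fun T => p ∈ T), (m : ℝ) / p * ∏ r ∈ T.erase p, ((m : ℝ) / r) := by
        refine sum_le_sum fun T hT => ?_
        rw [mem_filter] at hT
        have h1 := den_le hm (mem_TT.1 hT.1).1
        rw [← mul_prod_erase T (fun r => (m : ℝ) / r) hT.2] at h1
        exact h1
    _ = m / p * ∑ T ∈ (TT y z D).filter (fun T => p ∈ T), ∏ r ∈ T.erase p, ((m : ℝ) / r) := by rw [mul_sum]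
    _ ≤ _ := by
        apply mul_le_mul_of_nonneg_left _ (by positivity)
        have hinj : Set.InjOn (fun T : Finset ℕ => T.erase p)
            (((TT y z D).filter (fun T => p ∈ T) : Finset (Finset ℕ)) : Set (Finset ℕ)) := by
          intro T hT T' hT' h
          rw [mem_coe, mem_filter] at hT hT'
          have h' : T.erase p = T'.erase p := h
          rw [← insert_erase hT.2, ← insert_erase hT'.2, h']
        rw [← sum_image (f := fun T : Finset ℕ => ∏ r ∈ T, ((m : ℝ) / r)) hinj]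
        apply sum_prod_le
        intro T hT
        rw [mem_image] at hT
        obtain ⟨T', hT', rfl⟩ := hT
        rw [mem_filter] at hT'
        exact mem_powerset.2 ((erase_subset _ _).trans (mem_TT.1 hT'.1).1)

open Classical in
lemma sum_ind {w n : ℕ} (hw : ((pb y z).filter (fun p => R p n)).card ≤ w) :
    ∑ T ∈ TT y z D, ind R T n ≤ 2 ^ w := by
  calc ∑ T ∈ TT y z D, ind R T n ≤ ∑ T ∈ (TT y z D).filter (fun T => ∀ p ∈ T, R p n), (1 : ℝ) := by
        rw [sum_filter]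
        refine sum_le_sum fun T _ => ?_
        unfold ind
        exact le_rfl
    _ ≤ ∑ T ∈ ((pb y z).filter (fun p => R p n)).powerset, (1 : ℝ) := by
        apply sum_le_sum_of_subset_of_nonneg
        · intro T hT
          rw [mem_filter] at hT
          rw [mem_powerset]
          intro p hp
          rw [mem_filter]
          exact ⟨(mem_TT.1 hT.1).1 hp, hT.2 p hp⟩
        · intro _ _ _
          exact zero_le_one
    _ = 2 ^ ((pb y z).filter (fun p => R p n)).card := by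
        rw [sum_const, nsmul_eq_mul, mul_one, card_powerset]
        push_cast
        rfl
    _ ≤ _ := pow_le_pow_right₀ (by norm_num) hw

open Classical in
lemma sum_acen (hm : ∀ p ∈ pb y z, rho R p ≤ m) {w n : ℕ}
    (hw : ((pb y z).filter (fun p => R p n)).card ≤ w) :
    ∑ T ∈ TT y z D, acen R T n ≤ 2 ^ w + EE m y z := by
  unfold acen
  rw [sum_add_distrib]
  exact add_le_add (sum_ind hw) (sum_den hm)

/-- the part of the sum with a given prime -/
noncomputable def Tp (R : ℕ → ℕ → Prop) (y z D p n : ℕ) : ℝ :=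
  ∑ T ∈ TT y z D, (if p ∈ T then acen R T n else 0)

lemma Tp_nonneg (R : ℕ → ℕ → Prop) (y z D p n : ℕ) : 0 ≤ Tp R y z D p n := by
  refine sum_nonneg fun T _ => ?_
  split_ifs
  · exact acen_nonneg _ _ _
  · exact le_rfl

open Classical in
lemma Tp_le (hm : ∀ p ∈ pb y z, rho R p ≤ m) {w n p : ℕ}
    (hw : ((pb y z).filter (fun p => R p n)).card ≤ w) :
    Tp R y z D p n ≤ (2 ^ w + EE m y z) * ((if R p n then 1 else 0) + (m : ℝ) / p) := by
  have h1 : Tp R y z D p n ≤ (if R p n then 1 else 0) * 2 ^ w + m / p * EE m y z := by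
    unfold Tp
    rw [← sum_filter]
    unfold acen
    rw [sum_add_distrib]
    refine add_le_add ?_ (sum_den' hm p)
    by_cases h : R p n
    · rw [if_pos h, one_mul]
      refine le_trans ?_ (sum_ind (D := D) hw)
      exact sum_le_sum_of_subset_of_nonneg (filter_subset _ _) fun T _ _ => ind_nonneg _ _ _
    · rw [if_neg h, zero_mul]
      refine (sum_eq_zero fun T hT => ?_).le
      rw [mem_filter] at hT
      unfold ind
      rw [if_neg (fun h' => h (h' p hT.2))]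
  refine h1.trans ?_
  have hE := (EE_pos m y z).le
  have h2 : (0 : ℝ) ≤ 2 ^ w := by positivity
  have h3 : (0 : ℝ) ≤ (m : ℝ) / p := by positivity
  have e : (m : ℝ) / p * EE m y z = EE m y z * (m / p) := by ring
  rw [e]
  split_ifs
  · nlinarith [mul_nonneg h2 h3]
  · nlinarith [mul_nonneg h2 h3]

open Classical in
lemma count_p (hR : Per R) {p N : ℕ} (hp : p.Prime) (hm : rho R p ≤ m) :
    ∑ n ∈ Icc 1 N, (if R p n then (1 : ℝ) else 0) ≤ m * (N / p + 1) := by
  have h := Pool.Agent.H373R2.T7.count_sys R N {p} (fun p' hp' => by rw [mem_singleton.1 hp']; exact hp) 1 le_rfl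
    (fun p' hp' hd => by
      rw [mem_singleton.1 hp'] at hd
      exact hp.one_lt.ne' (Nat.dvd_one.1 hd)) 0
  rw [prod_singleton, prod_singleton] at h
  have e1 : (((Icc 1 N).filter (fun n => n ≡ 0 [MOD 1] ∧ ∀ p' ∈ ({p} : Finset ℕ), R p' (n % p'))).card : ℝ) =
      ∑ n ∈ Icc 1 N, (if R p n then (1 : ℝ) else 0) := by
    rw [← sum_filter, sum_const, nsmul_eq_mul, mul_one]
    congr 2
    refine filter_congr fun n _ => ?_
    constructor
    · intro h
      exact (hR p n).1 (h.2 p (mem_singleton_self p))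
    · intro h
      refine ⟨Nat.modEq_one, fun p' hp' => ?_⟩
      rw [mem_singleton.1 hp']
      exact (hR p n).2 h
  rw [e1] at h
  have h2 := (abs_le.1 h).2
  have h3 : (((range p).filter (fun a => R p a)).card : ℝ) ≤ m := by exact_mod_cast hm
  have hp0 : (0 : ℝ) < p := by exact_mod_cast hp.pos
  have h4 : (N : ℝ) / ((1 : ℕ) : ℝ) * ((((range p).filter (fun a => R p a)).card : ℝ) / p) ≤ N / p * m := by
    rw [Nat.cast_one, div_one]
    have e : (N : ℝ) / p * m = N * (m / p) := by ring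
    rw [e]
    gcongr
  have e5 : (m : ℝ) * (N / p + 1) = N / p * m + m := by ring
  linarith

end

open Classical in
/-- the conditions on a single relation -/
structure Ok (m w y z N : ℕ) (R : ℕ → ℕ → Prop) : Prop where
  per : Per R
  rho : ∀ p : ℕ, p.Prime → p ≤ max y z → rho R p ≤ m
  pt : ∀ n ∈ Icc 1 N, (∀ p ∈ ps y, ¬ R p n) → ((pb y z).filter (fun p => R p n)).card ≤ w

/-- the elementary sum -/
noncomputable def II (y N : ℕ) (R R' : ℕ → ℕ → Prop) (T T' : Finset ℕ) : ℝ :=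
  ∑ n ∈ Icc 1 N, (ro R y n * ro R' y n) * (cen R T n * cen R' T' n)

/-- bound for the correlations -/
noncomputable def KB (C0 K0 b m w y z D N : ℕ) : ℝ :=
  4 * EE m y z ^ 2 * ((1 / 2) ^ b * N + (2 + Ad C0 K0 b y) * D ^ 2) +
  (2 ^ w + EE m y z) ^ 2 * (w * (m * ((N : ℝ) / y + 1)) + 3 * m ^ 2 * (N : ℝ) / y + 2 * m ^ 2 * (z : ℝ) / y)

lemma corr_expand {y z D : ℕ} (c c' : Finset ℕ → ℝ) (N : ℕ) (R R' : ℕ → ℕ → Prop) :
    ∑ n ∈ Icc 1 N, GF R y z D c n * GF R' y z D c' n =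
      ∑ T ∈ TT y z D, ∑ T' ∈ TT y z D, c T * c' T' * II y N R R' T T' := by
  have h : ∀ n ∈ Icc 1 N, GF R y z D c n * GF R' y z D c' n =
      ∑ T ∈ TT y z D, ∑ T' ∈ TT y z D, c T * c' T' *
        ((ro R y n * ro R' y n) * (cen R T n * cen R' T' n)) := by
    intro n _
    unfold GF
    calc _ = (ro R y n * ro R' y n) * ((∑ T ∈ TT y z D, c T * cen R T n) *
          ∑ T' ∈ TT y z D, c' T' * cen R' T' n) := by ring
      _ = _ := by
        rw [sum_mul_sum, mul_sum]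
        refine sum_congr rfl fun T _ => ?_
        rw [mul_sum]
        refine sum_congr rfl fun T' _ => ?_
        ring
  rw [sum_congr rfl h, sum_comm]
  refine sum_congr rfl fun T _ => ?_
  rw [sum_comm]
  refine sum_congr rfl fun T' _ => ?_
  unfold II
  rw [mul_sum]

/-- disjoint sets -/
lemma II_disjoint {C0 K0 b y : ℕ} {R R' : ℕ → ℕ → Prop} {N : ℕ}
    (hcnt : ∀ T T' : Finset ℕ, (∀ p ∈ T, p.Prime ∧ y < p) → (∀ p ∈ T', p.Prime ∧ y < p) → Disjoint T T' →
    |∑ n ∈ Icc 1 N, (ro R y n * ro R' y n) * (ind R T n * ind R' T' n) -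
      N * (den R T * den R' T') * VV (OR R R') y| ≤
      ((∏ p ∈ T, (rho R p : ℝ)) * ∏ p ∈ T', (rho R' p : ℝ)) *
        ((1 / 2) ^ b * ((N : ℝ) / ((∏ p ∈ T, (p : ℝ)) * ∏ p ∈ T', (p : ℝ))) + 2 + Ad C0 K0 b y))
    {T T' : Finset ℕ} (hT : ∀ p ∈ T, p.Prime ∧ y < p) (hT' : ∀ p ∈ T', p.Prime ∧ y < p) (hdis : Disjoint T T') :
    |II y N R R' T T'| ≤ 4 * (((∏ p ∈ T, (rho R p : ℝ)) * ∏ p ∈ T', (rho R' p : ℝ)) *
        ((1 / 2) ^ b * ((N : ℝ) / ((∏ p ∈ T, (p : ℝ)) * ∏ p ∈ T', (p : ℝ))) + 2 + Ad C0 K0 b y)) := by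
  set A : Finset ℕ → Finset ℕ → ℝ := fun T T' => ∑ n ∈ Icc 1 N, (ro R y n * ro R' y n) *
    (ind R T n * ind R' T' n) with hA
  have hI1 : ∀ n, ind R ∅ n = 1 := fun n => by unfold ind; simp
  have hI2 : ∀ n, ind R' ∅ n = 1 := fun n => by unfold ind; simp
  have hd1 : den R ∅ = 1 := by unfold den; simp
  have hd2 : den R' ∅ = 1 := by unfold den; simp
  have hI : II y N R R' T T' = A T T' - A T ∅ * den R' T' - A ∅ T' * den R T + A ∅ ∅ * (den R T * den R' T') := by
    unfold II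
    rw [hA]
    simp only
    rw [sum_mul, sum_mul, sum_mul, ← sum_sub_distrib, ← sum_sub_distrib, ← sum_add_distrib]
    refine sum_congr rfl fun n _ => ?_
    unfold cen
    rw [hI1, hI2]
    ring
  have hE : ∀ p ∈ (∅ : Finset ℕ), p.Prime ∧ y < p := fun p hp => absurd hp (notMem_empty p)
  have h11 := hcnt ∅ ∅ hE hE (disjoint_empty_left _)
  have hd1' := hcnt T ∅ hT hE (disjoint_empty_right _)
  have h1d := hcnt ∅ T' hE hT' (disjoint_empty_left _)
  have hdd := hcnt T T' hT hT' hdis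
  simp only [prod_empty, one_mul, mul_one, hd1, hd2] at h11 hd1' h1d
  set V := VV (OR R R') y
  set r := ∏ p ∈ T, (rho R p : ℝ) with hr
  set r' := ∏ p ∈ T', (rho R' p : ℝ) with hr'
  set q := ∏ p ∈ T, (p : ℝ) with hq
  set q' := ∏ p ∈ T', (p : ℝ) with hq'
  have hr0 : 0 ≤ r := prod_nonneg fun p _ => Nat.cast_nonneg _
  have hr0' : 0 ≤ r' := prod_nonneg fun p _ => Nat.cast_nonneg _
  have hq1 : 1 ≤ q := by
    rw [hq]
    refine le_trans (le_of_eq ?_) (prod_le_prod (f := fun _ : ℕ => (1 : ℝ)) (fun p _ => zero_le_one) fun p hp => ?_)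
    · rw [prod_const_one]
    · exact_mod_cast (hT p hp).1.one_lt.le
  have hq1' : 1 ≤ q' := by
    rw [hq']
    refine le_trans (le_of_eq ?_) (prod_le_prod (f := fun _ : ℕ => (1 : ℝ)) (fun p _ => zero_le_one) fun p hp => ?_)
    · rw [prod_const_one]
    · exact_mod_cast (hT' p hp).1.one_lt.le
  have hq0 : 0 < q := by linarith
  have hq0' : 0 < q' := by linarith
  have hden : den R T = r / q := by unfold den; rw [prod_div_distrib]
  have hden' : den R' T' = r' / q' := by unfold den; rw [prod_div_distrib]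
  have hAd := Ad_nonneg C0 K0 b y
  set a := 2 + Ad C0 K0 b y with ha
  have ha0 : 0 ≤ a := by linarith
  set β := (1 / 2 : ℝ) ^ b * N with hβ
  have hβ0 : 0 ≤ β := by positivity
  have e : II y N R R' T T' = (A T T' - N * (den R T * den R' T') * V) -
      (A T ∅ - N * den R T * V) * den R' T' - (A ∅ T' - N * den R' T' * V) * den R T +
      (A ∅ ∅ - N * V) * (den R T * den R' T') := by
    rw [hI]
    ring
  have f0 : |A T T' - N * (den R T * den R' T') * V| ≤ r * r' * (β / (q * q') + a) := by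
    refine hdd.trans (le_of_eq ?_)
    rw [hβ, ha]; ring
  have f1 : |(A T ∅ - N * den R T * V) * den R' T'| ≤ r * r' * (β / (q * q') + a) := by
    rw [abs_mul, abs_of_nonneg (den_nonneg R' T'), hden']
    have h2 : |A T ∅ - N * den R T * V| ≤ r * (β / q + a) := by
      refine hd1'.trans (le_of_eq ?_)
      rw [hβ, ha]; ring
    calc _ ≤ r * (β / q + a) * (r' / q') := mul_le_mul_of_nonneg_right h2 (by positivity)
      _ = r * r' * (β / (q * q') + a / q') := by field_simp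
      _ ≤ _ := by
        apply mul_le_mul_of_nonneg_left _ (by positivity)
        have := div_le_self ha0 hq1'
        linarith
  have f2 : |(A ∅ T' - N * den R' T' * V) * den R T| ≤ r * r' * (β / (q * q') + a) := by
    rw [abs_mul, abs_of_nonneg (den_nonneg R T), hden]
    have h2 : |A ∅ T' - N * den R' T' * V| ≤ r' * (β / q' + a) := by
      refine h1d.trans (le_of_eq ?_)
      rw [hβ, ha]; ring
    calc _ ≤ r' * (β / q' + a) * (r / q) := mul_le_mul_of_nonneg_right h2 (by positivity)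
      _ = r * r' * (β / (q * q') + a / q) := by field_simp
      _ ≤ _ := by
        apply mul_le_mul_of_nonneg_left _ (by positivity)
        have := div_le_self ha0 hq1
        linarith
  have f3 : |(A ∅ ∅ - N * V) * (den R T * den R' T')| ≤ r * r' * (β / (q * q') + a) := by
    rw [abs_mul, abs_of_nonneg (mul_nonneg (den_nonneg R T) (den_nonneg R' T')), hden, hden']
    have h2 : |A ∅ ∅ - N * V| ≤ β + a := by
      refine h11.trans (le_of_eq ?_)
      rw [hβ, ha]; ring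
    calc _ ≤ (β + a) * (r / q * (r' / q')) := mul_le_mul_of_nonneg_right h2 (by positivity)
      _ = r * r' * (β / (q * q') + a / (q * q')) := by field_simp
      _ ≤ _ := by
        apply mul_le_mul_of_nonneg_left _ (by positivity)
        have := div_le_self ha0 (one_le_mul_of_one_le_of_one_le hq1 hq1')
        linarith
  have e5 : (1 / 2 : ℝ) ^ b * ((N : ℝ) / (q * q')) + 2 + Ad C0 K0 b y = β / (q * q') + a := by
    rw [hβ, ha]; ring
  rw [e5, e]
  set x0 := A T T' - N * (den R T * den R' T') * V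
  set x1 := (A T ∅ - N * den R T * V) * den R' T'
  set x2 := (A ∅ T' - N * den R' T' * V) * den R T
  set x3 := (A ∅ ∅ - N * V) * (den R T * den R' T')
  rw [abs_le] at f0 f1 f2 f3 ⊢
  constructor <;> linarith

/-- all pairs -/
lemma II_le {C0 K0 b y z D : ℕ} {R R' : ℕ → ℕ → Prop} {N : ℕ}
    (hcnt : ∀ T T' : Finset ℕ, (∀ p ∈ T, p.Prime ∧ y < p) → (∀ p ∈ T', p.Prime ∧ y < p) → Disjoint T T' →
    |∑ n ∈ Icc 1 N, (ro R y n * ro R' y n) * (ind R T n * ind R' T' n) -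
      N * (den R T * den R' T') * VV (OR R R') y| ≤
      ((∏ p ∈ T, (rho R p : ℝ)) * ∏ p ∈ T', (rho R' p : ℝ)) *
        ((1 / 2) ^ b * ((N : ℝ) / ((∏ p ∈ T, (p : ℝ)) * ∏ p ∈ T', (p : ℝ))) + 2 + Ad C0 K0 b y))
    {T T' : Finset ℕ} (hT : T ∈ TT y z D) (hT' : T' ∈ TT y z D) :
    |II y N R R' T T'| ≤ (4 * (1 / 2) ^ b * N * (den R T * den R' T') +
        4 * (2 + Ad C0 K0 b y) * ((∏ p ∈ T, (rho R p : ℝ)) * ∏ p ∈ T', (rho R' p : ℝ))) +
      ∑ p ∈ pb y z, ∑ n ∈ Icc 1 N, (ro R y n * ro R' y n) * ((if p ∈ T then acen R T n else 0) *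
        (if p ∈ T' then acen R' T' n else 0)) := by
  have hnn : ∀ p n : ℕ, 0 ≤ (ro R y n * ro R' y n) * ((if p ∈ T then acen R T n else 0) *
        (if p ∈ T' then acen R' T' n else 0)) := by
    intro p n
    refine mul_nonneg (mul_nonneg (ro_nonneg _ _ _) (ro_nonneg _ _ _)) (mul_nonneg ?_ ?_)
    · split_ifs
      · exact acen_nonneg _ _ _
      · exact le_rfl
    · split_ifs
      · exact acen_nonneg _ _ _
      · exact le_rfl
  have hAd := Ad_nonneg C0 K0 b y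
  by_cases hdis : Disjoint T T'
  · have h1 := II_disjoint hcnt (TT_pr hT) (TT_pr hT') hdis
    have h2 : 0 ≤ ∑ p ∈ pb y z, ∑ n ∈ Icc 1 N, (ro R y n * ro R' y n) * ((if p ∈ T then acen R T n else 0) *
        (if p ∈ T' then acen R' T' n else 0)) :=
      sum_nonneg fun p _ => sum_nonneg fun n _ => hnn p n
    have hden : den R T = (∏ p ∈ T, (rho R p : ℝ)) / ∏ p ∈ T, (p : ℝ) := by unfold den; rw [prod_div_distrib]
    have hden' : den R' T' = (∏ p ∈ T', (rho R' p : ℝ)) / ∏ p ∈ T', (p : ℝ) := by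
      unfold den; rw [prod_div_distrib]
    have e : 4 * (((∏ p ∈ T, (rho R p : ℝ)) * ∏ p ∈ T', (rho R' p : ℝ)) *
        ((1 / 2) ^ b * ((N : ℝ) / ((∏ p ∈ T, (p : ℝ)) * ∏ p ∈ T', (p : ℝ))) + 2 + Ad C0 K0 b y)) =
        4 * (1 / 2) ^ b * N * (den R T * den R' T') +
        4 * (2 + Ad C0 K0 b y) * ((∏ p ∈ T, (rho R p : ℝ)) * ∏ p ∈ T', (rho R' p : ℝ)) := by
      rw [hden, hden', div_mul_div_comm]
      ring
    rw [e] at h1
    linarith
  · rw [not_disjoint_iff] at hdis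
    obtain ⟨p, hp, hp'⟩ := hdis
    have hpP : p ∈ pb y z := (mem_TT.1 hT).1 hp
    have h1 : |II y N R R' T T'| ≤ ∑ n ∈ Icc 1 N, (ro R y n * ro R' y n) *
        ((if p ∈ T then acen R T n else 0) * (if p ∈ T' then acen R' T' n else 0)) := by
      unfold II
      refine (abs_sum_le_sum_abs _ _).trans (sum_le_sum fun n _ => ?_)
      rw [if_pos hp, if_pos hp', abs_mul, abs_mul (cen R T n)]
      have h3 : |ro R y n * ro R' y n| = ro R y n * ro R' y n :=
        abs_of_nonneg (mul_nonneg (ro_nonneg _ _ _) (ro_nonneg _ _ _))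
      rw [h3]
      refine mul_le_mul_of_nonneg_left ?_ (mul_nonneg (ro_nonneg _ _ _) (ro_nonneg _ _ _))
      exact mul_le_mul (abs_cen_le _ _ _) (abs_cen_le _ _ _) (abs_nonneg _) (acen_nonneg _ _ _)
    have h2 : ∑ n ∈ Icc 1 N, (ro R y n * ro R' y n) *
        ((if p ∈ T then acen R T n else 0) * (if p ∈ T' then acen R' T' n else 0)) ≤
        ∑ p ∈ pb y z, ∑ n ∈ Icc 1 N, (ro R y n * ro R' y n) * ((if p ∈ T then acen R T n else 0) *
        (if p ∈ T' then acen R' T' n else 0)) :=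
      single_le_sum (f := fun p => ∑ n ∈ Icc 1 N, (ro R y n * ro R' y n) *
        ((if p ∈ T then acen R T n else 0) * (if p ∈ T' then acen R' T' n else 0)))
        (fun p _ => sum_nonneg fun n _ => hnn p n) hpP
    have h4 : 0 ≤ den R T * den R' T' := mul_nonneg (den_nonneg _ _) (den_nonneg _ _)
    have h5 : 0 ≤ (∏ p ∈ T, (rho R p : ℝ)) * ∏ p ∈ T', (rho R' p : ℝ) :=
      mul_nonneg (prod_nonneg fun p _ => Nat.cast_nonneg _) (prod_nonneg fun p _ => Nat.cast_nonneg _)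
    have h6 : 0 ≤ 4 * (1 / 2 : ℝ) ^ b * N * (den R T * den R' T') := by positivity
    have h7 : 0 ≤ 4 * (2 + Ad C0 K0 b y) * ((∏ p ∈ T, (rho R p : ℝ)) * ∏ p ∈ T', (rho R' p : ℝ)) := by positivity
    linarith

open Classical in
/-- the sum over a common prime -/
lemma Tp_corr {m w y z D N : ℕ} {R R' : ℕ → ℕ → Prop} (hR : Ok m w y z N R) (hR' : Ok m w y z N R') (hy : 1 ≤ y)
    {p : ℕ} (hp : p ∈ pb y z) :
    ∑ n ∈ Icc 1 N, (ro R y n * ro R' y n) * (Tp R y z D p n * Tp R' y z D p n) ≤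
      (2 ^ w + EE m y z) ^ 2 *
        ((if ∃ n, R p n ∧ R' p n then m * ((N : ℝ) / y + 1) else 0) +
          (3 * (m : ℝ) ^ 2 * N * (1 / (p : ℝ) ^ 2) + 2 * m ^ 2 / y)) := by
  obtain ⟨hpp, hyp, hpz⟩ := mem_pb.1 hp
  set B := (2 : ℝ) ^ w + EE m y z with hB
  have hB0 : 0 ≤ B := by have := (EE_pos m y z).le; positivity
  have hp0 : (0 : ℝ) < p := by exact_mod_cast hpp.pos
  have hy0 : (0 : ℝ) < y := by exact_mod_cast hy
  have hm1 : ∀ p ∈ pb y z, rho R p ≤ m := fun p hp =>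
    hR.rho p (mem_pb.1 hp).1 ((mem_pb.1 hp).2.2.trans (le_max_right _ _))
  have hm2 : ∀ p ∈ pb y z, rho R' p ≤ m := fun p hp =>
    hR'.rho p (mem_pb.1 hp).1 ((mem_pb.1 hp).2.2.trans (le_max_right _ _))
  have h1 : ∀ n ∈ Icc 1 N, (ro R y n * ro R' y n) * (Tp R y z D p n * Tp R' y z D p n) ≤
      B ^ 2 * (((if R p n then 1 else 0) + (m : ℝ) / p) * ((if R' p n then 1 else 0) + (m : ℝ) / p)) := by
    intro n hn
    have hnn : 0 ≤ B ^ 2 * (((if R p n then 1 else 0) + (m : ℝ) / p) * ((if R' p n then 1 else 0) + (m : ℝ) / p)) := by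
      have : ∀ P : Prop, (0 : ℝ) ≤ (if P then 1 else 0) := fun P => by split_ifs <;> norm_num
      have a1 := this (R p n)
      have a2 := this (R' p n)
      positivity
    by_cases c1 : ∀ p ∈ ps y, ¬ R p n
    · by_cases c2 : ∀ p ∈ ps y, ¬ R' p n
      · have e1 := Tp_le (D := D) (p := p) hm1 (hR.pt n hn c1)
        have e2 := Tp_le (D := D) (p := p) hm2 (hR'.pt n hn c2)
        have e3 : ro R y n = 1 := by unfold ro; rw [if_pos c1]
        have e4 : ro R' y n = 1 := by unfold ro; rw [if_pos c2]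
        rw [e3, e4, one_mul, one_mul]
        have e5 : (0 : ℝ) ≤ (if R p n then 1 else 0) + (m : ℝ) / p := by
          have : (0 : ℝ) ≤ (if R p n then 1 else 0) := by split_ifs <;> norm_num
          positivity
        calc _ ≤ (B * ((if R p n then 1 else 0) + (m : ℝ) / p)) * (B * ((if R' p n then 1 else 0) + (m : ℝ) / p)) :=
              mul_le_mul e1 e2 (Tp_nonneg _ _ _ _ _ _) (mul_nonneg hB0 e5)
          _ = _ := by ring
      · have e4 : ro R' y n = 0 := by unfold ro; rw [if_neg c2]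
        rw [e4, mul_zero, zero_mul]
        exact hnn
    · have e4 : ro R y n = 0 := by unfold ro; rw [if_neg c1]
      rw [e4, zero_mul, zero_mul]
      exact hnn
  refine (sum_le_sum h1).trans ?_
  rw [← mul_sum]
  refine mul_le_mul_of_nonneg_left ?_ (by positivity)
  have h2 : ∀ n ∈ Icc 1 N, ((if R p n then 1 else 0) + (m : ℝ) / p) * ((if R' p n then 1 else 0) + (m : ℝ) / p) =
      (if R p n then (1 : ℝ) else 0) * (if R' p n then (1 : ℝ) else 0) +
      ((m : ℝ) / p) * (if R p n then (1 : ℝ) else 0) +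
      ((m : ℝ) / p) * (if R' p n then (1 : ℝ) else 0) + ((m : ℝ) / p) ^ 2 := by
    intro n _
    ring
  rw [sum_congr rfl h2, sum_add_distrib, sum_add_distrib, sum_add_distrib, ← mul_sum, ← mul_sum,
    sum_const, Nat.card_Icc, nsmul_eq_mul]
  have h3 := count_p (N := N) hR.per hpp (hm1 p hp)
  have h4 := count_p (N := N) hR'.per hpp (hm2 p hp)
  have hNy : (N : ℝ) / p ≤ N / y := by
    apply div_le_div_of_nonneg_left (Nat.cast_nonneg _) hy0
    exact_mod_cast hyp.le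
  have h5 : ∑ n ∈ Icc 1 N, (if R p n then (1 : ℝ) else 0) * (if R' p n then (1 : ℝ) else 0) ≤
      (if ∃ n, R p n ∧ R' p n then m * ((N : ℝ) / y + 1) else 0) := by
    split_ifs with hdv
    · calc _ ≤ ∑ n ∈ Icc 1 N, (if R p n then (1 : ℝ) else 0) := by
            refine sum_le_sum fun n _ => ?_
            split_ifs <;> norm_num
        _ ≤ m * (N / p + 1) := h3
        _ ≤ m * (N / y + 1) := by gcongr
    · refine (sum_eq_zero fun n _ => ?_).le
      by_cases e1 : R p n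
      · have e2 : ¬ R' p n := fun h => hdv ⟨n, e1, h⟩
        rw [if_neg e2, mul_zero]
      · rw [if_neg e1, zero_mul]
  have hip : 0 ≤ (m : ℝ) / p := by positivity
  have h6 := mul_le_mul_of_nonneg_left h3 hip
  have h7 := mul_le_mul_of_nonneg_left h4 hip
  have e3 : (m : ℝ) / p * (m * (N / p + 1)) = (m : ℝ) ^ 2 * N * (1 / (p : ℝ) ^ 2) + m ^ 2 / p := by
    field_simp
  rw [e3] at h6 h7
  have e4 : ((N + 1 - 1 : ℕ) : ℝ) = N := by simp
  rw [e4]
  have e5 : (N : ℝ) * ((m : ℝ) / p) ^ 2 = (m : ℝ) ^ 2 * N * (1 / (p : ℝ) ^ 2) := by field_simp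
  have e6 : (m : ℝ) ^ 2 / p ≤ m ^ 2 / y := by
    apply div_le_div_of_nonneg_left (by positivity) hy0
    exact_mod_cast hyp.le
  have e7 : 2 * (m : ℝ) ^ 2 / y = 2 * (m ^ 2 / y) := by ring
  linarith

open Classical in
/-- **the correlation bound** -/
theorem corr (m : ℕ) : ∃ C0 K0 : ℕ, 1 ≤ C0 ∧ 1 ≤ K0 ∧ ∀ b : ℕ, C0 ≤ b → ∀ y : ℕ, 2 ≤ y →
    ∀ (w z D N : ℕ) (c c' : Finset ℕ → ℝ), (∀ T, |c T| ≤ 1) → (∀ T, |c' T| ≤ 1) →
    ∀ R R' : ℕ → ℕ → Prop, Ok m w y z N R → Ok m w y z N R' →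
    ((pb y z).filter (fun p => ∃ n, R p n ∧ R' p n)).card ≤ w →
    |∑ n ∈ Icc 1 N, GF R y z D c n * GF R' y z D c' n| ≤ KB C0 K0 b m w y z D N := by
  obtain ⟨C0, K0, hC0, hK0, hcnt⟩ := cnt (2 * m)
  refine ⟨C0, K0, hC0, hK0, ?_⟩
  intro b hb y hy w z D N c c' hc hc' R R' hR hR' hZ
  have hor : ∀ p ∈ ps y, rho (OR R R') p ≤ 2 * m := by
    intro p hp
    have h1 := hR.rho p (mem_ps.1 hp).1 ((mem_ps.1 hp).2.trans (le_max_left _ _))
    have h2 := hR'.rho p (mem_ps.1 hp).1 ((mem_ps.1 hp).2.trans (le_max_left _ _))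
    have h3 := rho_or_le R R' p
    omega
  have hcnt' := hcnt b hb y hy N R R' hR.per hR'.per hor
  have hm1 : ∀ p ∈ pb y z, rho R p ≤ m := fun p hp =>
    hR.rho p (mem_pb.1 hp).1 ((mem_pb.1 hp).2.2.trans (le_max_right _ _))
  have hm2 : ∀ p ∈ pb y z, rho R' p ≤ m := fun p hp =>
    hR'.rho p (mem_pb.1 hp).1 ((mem_pb.1 hp).2.2.trans (le_max_right _ _))
  rw [corr_expand c c' N R R']
  have hE := (EE_pos m y z).le
  have hAd := Ad_nonneg C0 K0 b y
  have s1 : |∑ T ∈ TT y z D, ∑ T' ∈ TT y z D, c T * c' T' * II y N R R' T T'| ≤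
      ∑ T ∈ TT y z D, ∑ T' ∈ TT y z D, ((4 * (1 / 2) ^ b * N * (den R T * den R' T') +
        4 * (2 + Ad C0 K0 b y) * ((∏ p ∈ T, (rho R p : ℝ)) * ∏ p ∈ T', (rho R' p : ℝ))) +
      ∑ p ∈ pb y z, ∑ n ∈ Icc 1 N, (ro R y n * ro R' y n) * ((if p ∈ T then acen R T n else 0) *
        (if p ∈ T' then acen R' T' n else 0))) := by
    refine (abs_sum_le_sum_abs _ _).trans (sum_le_sum fun T hT => ?_)
    refine (abs_sum_le_sum_abs _ _).trans (sum_le_sum fun T' hT' => ?_)
    rw [abs_mul, abs_mul]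
    have h1 := II_le hcnt' hT hT'
    have h2 : |c T| * |c' T'| ≤ 1 := mul_le_one₀ (hc T) (abs_nonneg _) (hc' T')
    calc _ ≤ 1 * |II y N R R' T T'| := mul_le_mul_of_nonneg_right h2 (abs_nonneg _)
      _ = |II y N R R' T T'| := one_mul _
      _ ≤ _ := h1
  refine s1.trans ?_
  have s2 : ∑ T ∈ TT y z D, ∑ T' ∈ TT y z D, ((4 * (1 / 2) ^ b * N * (den R T * den R' T') +
        4 * (2 + Ad C0 K0 b y) * ((∏ p ∈ T, (rho R p : ℝ)) * ∏ p ∈ T', (rho R' p : ℝ))) +
      ∑ p ∈ pb y z, ∑ n ∈ Icc 1 N, (ro R y n * ro R' y n) * ((if p ∈ T then acen R T n else 0) *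
        (if p ∈ T' then acen R' T' n else 0))) =
      4 * (1 / 2) ^ b * N * ((∑ T ∈ TT y z D, den R T) * (∑ T ∈ TT y z D, den R' T)) +
        4 * (2 + Ad C0 K0 b y) * ((∑ T ∈ TT y z D, ∏ p ∈ T, (rho R p : ℝ)) *
          (∑ T ∈ TT y z D, ∏ p ∈ T, (rho R' p : ℝ))) +
        ∑ p ∈ pb y z, ∑ n ∈ Icc 1 N, (ro R y n * ro R' y n) * (Tp R y z D p n * Tp R' y z D p n) := by
    simp only [sum_add_distrib]
    congr 1
    · congr 1
      · rw [sum_mul_sum, mul_sum]
        refine sum_congr rfl fun T _ => ?_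
        rw [mul_sum]
      · rw [sum_mul_sum, mul_sum]
        refine sum_congr rfl fun T _ => ?_
        rw [mul_sum]
    · rw [sum_congr rfl fun T _ => sum_comm, sum_comm]
      refine sum_congr rfl fun p _ => ?_
      rw [sum_congr rfl fun T _ => sum_comm, sum_comm]
      refine sum_congr rfl fun n _ => ?_
      unfold Tp
      rw [sum_mul_sum, mul_sum]
      refine sum_congr rfl fun T _ => ?_
      rw [mul_sum]
  rw [s2]
  have hS1 : ∑ T ∈ TT y z D, den R T ≤ EE m y z := sum_den hm1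
  have hS2 : ∑ T ∈ TT y z D, ∏ p ∈ T, (rho R p : ℝ) ≤ D * EE m y z := sum_rho hm1
  have hS1' : ∑ T ∈ TT y z D, den R' T ≤ EE m y z := sum_den hm2
  have hS2' : ∑ T ∈ TT y z D, ∏ p ∈ T, (rho R' p : ℝ) ≤ D * EE m y z := sum_rho hm2
  have hS10 : 0 ≤ ∑ T ∈ TT y z D, den R' T := sum_nonneg fun T _ => den_nonneg _ _
  have hS20 : 0 ≤ ∑ T ∈ TT y z D, ∏ p ∈ T, (rho R' p : ℝ) :=
    sum_nonneg fun T _ => prod_nonneg fun p _ => Nat.cast_nonneg _
  have t1 : 4 * (1 / 2 : ℝ) ^ b * N * ((∑ T ∈ TT y z D, den R T) * (∑ T ∈ TT y z D, den R' T)) ≤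
      4 * (1 / 2 : ℝ) ^ b * N * EE m y z ^ 2 := by
    rw [sq]
    exact mul_le_mul_of_nonneg_left (mul_le_mul hS1 hS1' hS10 hE) (by positivity)
  have t2 : 4 * (2 + Ad C0 K0 b y) * ((∑ T ∈ TT y z D, ∏ p ∈ T, (rho R p : ℝ)) *
          (∑ T ∈ TT y z D, ∏ p ∈ T, (rho R' p : ℝ))) ≤
      4 * (2 + Ad C0 K0 b y) * (D * EE m y z) ^ 2 := by
    rw [sq]
    exact mul_le_mul_of_nonneg_left (mul_le_mul hS2 hS2' hS20 (by positivity)) (by positivity)
  set B := (2 : ℝ) ^ w + EE m y z with hB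
  have hB0 : 0 ≤ B := by positivity
  have hy0 : (0 : ℝ) < y := by exact_mod_cast (by omega : 0 < y)
  have t3 : ∑ p ∈ pb y z, ∑ n ∈ Icc 1 N, (ro R y n * ro R' y n) * (Tp R y z D p n * Tp R' y z D p n) ≤
      B ^ 2 * (w * (m * ((N : ℝ) / y + 1)) + 3 * m ^ 2 * (N : ℝ) / y + 2 * m ^ 2 * (z : ℝ) / y) := by
    refine (sum_le_sum fun p hp => Tp_corr (D := D) hR hR' (by omega) hp).trans ?_
    rw [← mul_sum]
    refine mul_le_mul_of_nonneg_left ?_ (by positivity)
    rw [sum_add_distrib, sum_add_distrib, ← mul_sum, ← sum_filter, sum_const, sum_const, nsmul_eq_mul, nsmul_eq_mul]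
    have u1 : (((pb y z).filter (fun p => ∃ n, R p n ∧ R' p n)).card : ℝ) * (m * ((N : ℝ) / y + 1)) ≤
        w * (m * ((N : ℝ) / y + 1)) := by
      apply mul_le_mul_of_nonneg_right _ (by positivity)
      exact_mod_cast hZ
    have u2 : ∑ p ∈ pb y z, 1 / (p : ℝ) ^ 2 ≤ 1 / (y : ℝ) := by
      exact Pool.Agent.Y822.inv_sq_gt (by omega) (pb y z) (fun p hp => (mem_pb.1 hp).2.1)
    have u3 : ((pb y z).card : ℝ) ≤ z := by
      have : (pb y z).card ≤ z := by
        calc _ ≤ (Ioc y z).card := card_filter_le _ _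
          _ = z - y := Nat.card_Ioc _ _
          _ ≤ z := Nat.sub_le _ _
      exact_mod_cast this
    have u4 := mul_le_mul_of_nonneg_left u2 (by positivity : (0 : ℝ) ≤ 3 * (m : ℝ) ^ 2 * N)
    have u5 := mul_le_mul_of_nonneg_right u3 (by positivity : (0 : ℝ) ≤ 2 * (m : ℝ) ^ 2 / y)
    have e1 : 3 * (m : ℝ) ^ 2 * N * (1 / y) = 3 * m ^ 2 * (N : ℝ) / y := by ring
    have e2 : (z : ℝ) * (2 * (m : ℝ) ^ 2 / y) = 2 * m ^ 2 * (z : ℝ) / y := by ring
    linarith
  unfold KB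
  have e : (D * EE m y z) ^ 2 = (D : ℝ) ^ 2 * EE m y z ^ 2 := by ring
  rw [e] at t2
  calc _ ≤ 4 * (1 / 2 : ℝ) ^ b * N * EE m y z ^ 2 + 4 * (2 + Ad C0 K0 b y) * ((D : ℝ) ^ 2 * EE m y z ^ 2) +
        B ^ 2 * (w * (m * ((N : ℝ) / y + 1)) + 3 * m ^ 2 * (N : ℝ) / y + 2 * m ^ 2 * (z : ℝ) / y) := by linarith
    _ = _ := by ring

open Classical in
/-- the diagonal -/
lemma diag_le {m w y z D N : ℕ} {R : ℕ → ℕ → Prop} (hR : Ok m w y z N R) {c : Finset ℕ → ℝ} (hc : ∀ T, |c T| ≤ 1) :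
    ∑ n ∈ Icc 1 N, GF R y z D c n ^ 2 ≤ N * (2 ^ w + EE m y z) ^ 2 := by
  have hm1 : ∀ p ∈ pb y z, rho R p ≤ m := fun p hp =>
    hR.rho p (mem_pb.1 hp).1 ((mem_pb.1 hp).2.2.trans (le_max_right _ _))
  have hE := (EE_pos m y z).le
  calc ∑ n ∈ Icc 1 N, GF R y z D c n ^ 2
      ≤ ∑ _n ∈ Icc 1 N, ((2 : ℝ) ^ w + EE m y z) ^ 2 := by
        refine sum_le_sum fun n hn => ?_
        rw [← sq_abs]
        refine pow_le_pow_left₀ (abs_nonneg _) ?_ 2
        unfold GF
        rw [abs_mul, abs_of_nonneg (ro_nonneg R y n)]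
        by_cases c1 : ∀ p ∈ ps y, ¬ R p n
        · calc ro R y n * |∑ T ∈ TT y z D, c T * cen R T n| ≤ 1 * |∑ T ∈ TT y z D, c T * cen R T n| :=
                mul_le_mul_of_nonneg_right (ro_le_one _ _ _) (abs_nonneg _)
            _ = |∑ T ∈ TT y z D, c T * cen R T n| := one_mul _
            _ ≤ ∑ T ∈ TT y z D, |c T * cen R T n| := abs_sum_le_sum_abs _ _
            _ ≤ ∑ T ∈ TT y z D, acen R T n := by
                refine sum_le_sum fun T _ => ?_
                rw [abs_mul]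
                calc |c T| * |cen R T n| ≤ 1 * acen R T n :=
                      mul_le_mul (hc T) (abs_cen_le _ _ _) (abs_nonneg _) zero_le_one
                  _ = _ := one_mul _
            _ ≤ _ := sum_acen hm1 (hR.pt n hn c1)
        · have e4 : ro R y n = 0 := by unfold ro; rw [if_neg c1]
          rw [e4, zero_mul]
          positivity
    _ = _ := by rw [sum_const, Nat.card_Icc, nsmul_eq_mul]; simp

end Pool.Agent.Y822.G
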