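import Mathlib
import Pool.Agent.Y822.G.Corr
import Pool.Agent.Y822.F.Dual

/-! Duality, the step from rough values to values without small prime factors, and the chain. -/

set_option autoImplicit false

namespace Pool.Agent.Y822.G

open Finset
open Pool.Agent.Y822.F (dual WH WH_bd WH_insert Good few_bad)

/-- the discrepancy of `f` along `R`, over the sets of large primes with product up to `D` -/
noncomputable def LD (R : ℕ → ℕ → Prop) (y z D N : ℕ) (f : ℕ → ℝ) : ℝ :=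
  ∑ T ∈ TT y z D, |∑ n ∈ Icc 1 N, f n * (ro R y n * cen R T n)|

lemma LD_nonneg (R : ℕ → ℕ → Prop) (y z D N : ℕ) (f : ℕ → ℝ) : 0 ≤ LD R y z D N f :=
  sum_nonneg fun _ _ => abs_nonneg _

/-- extremal coefficients -/
lemma exists_coeff (R : ℕ → ℕ → Prop) (y z D N : ℕ) (f : ℕ → ℝ) : ∃ c : Finset ℕ → ℝ, (∀ T, |c T| ≤ 1) ∧
    ∑ n ∈ Icc 1 N, f n * GF R y z D c n = LD R y z D N f := by
  classical
  set c : Finset ℕ → ℝ := fun T =>
    if 0 ≤ ∑ n ∈ Icc 1 N, f n * (ro R y n * cen R T n) then 1 else -1 with hcd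
  have hc : ∀ T, |c T| ≤ 1 := by
    intro T
    rw [hcd]
    simp only
    split_ifs <;> norm_num
  refine ⟨c, hc, ?_⟩
  have e : ∑ n ∈ Icc 1 N, f n * GF R y z D c n =
      ∑ T ∈ TT y z D, c T * ∑ n ∈ Icc 1 N, f n * (ro R y n * cen R T n) := by
    simp only [mul_sum]
    rw [sum_comm]
    refine sum_congr rfl fun n _ => ?_
    unfold GF
    rw [mul_sum, mul_sum]
    refine sum_congr rfl fun T _ => ?_
    ring
  rw [e]
  unfold LD
  refine sum_congr rfl fun T _ => ?_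
  rw [hcd]
  simp only
  split_ifs with h1
  · rw [one_mul, abs_of_nonneg h1]
  · rw [abs_of_neg (not_le.1 h1)]; ring

open Classical in
/-- few members of the family have large discrepancy -/
theorem few {ι : Type} {m w y z D N : ℕ} (hN : 1 ≤ N) {KBv η : ℝ} (hη : 0 < η) (hKB : 0 ≤ KBv)
    (hcorr : ∀ (c c' : Finset ℕ → ℝ), (∀ T, |c T| ≤ 1) → (∀ T, |c' T| ≤ 1) →
      ∀ R R' : ℕ → ℕ → Prop, Ok m w y z N R → Ok m w y z N R' →
      ((pb y z).filter (fun p => ∃ n, R p n ∧ R' p n)).card ≤ w →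
      |∑ n ∈ Icc 1 N, GF R y z D c n * GF R' y z D c' n| ≤ KBv)
    (hOG : KBv ≤ η ^ 2 * N / 2) (R : ι → ℕ → ℕ → Prop) (A : Finset ι) (hA : ∀ a ∈ A, Ok m w y z N (R a))
    (hAA : ∀ a ∈ A, ∀ a' ∈ A, a ≠ a' → ((pb y z).filter (fun p => ∃ n, R a p n ∧ R a' p n)).card ≤ w)
    (f : ℕ → ℝ) (hf : ∀ n ∈ Icc 1 N, |f n| ≤ 1) (S : Finset ι)
    (hS : ∀ a ∈ S, a ∈ A ∧ η * N < LD (R a) y z D N f) :
    (S.card : ℝ) ≤ 2 * (N * (2 ^ w + EE m y z) ^ 2) / (η ^ 2 * N) := by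
  choose c hc hcf using fun a : ι => exists_coeff (R a) y z D N f
  have hE := (EE_pos m y z).le
  refine dual (G := fun a n => GF (R a) y z D (c a) n) hN hη (by positivity) hKB S f hf ?_ ?_ ?_ hOG
  · intro a ha
    exact diag_le (hA a (hS a ha).1) (hc a)
  · intro a ha a' ha' hne
    exact hcorr (c a) (c a') (hc a) (hc a') (R a) (R a') (hA a (hS a ha).1) (hA a' (hS a' ha').1)
      (hAA a (hS a ha).1 a' (hS a' ha').1 hne)
  · intro a ha
    rw [hcf a, abs_of_nonneg (LD_nonneg _ _ _ _ _ _)]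
    exact (hS a ha).2

/-- the local density between `y` and `z` -/
noncomputable def WW (R : ℕ → ℕ → Prop) (y z : ℕ) : ℝ := ∏ p ∈ pb y z, (1 - (rho R p : ℝ) / p)

open Classical in
/-- no relation for the primes up to `z` -/
noncomputable def gz (R : ℕ → ℕ → Prop) (y z n : ℕ) : ℝ := ro R y n * if ∀ p ∈ pb y z, ¬ R p n then 1 else 0

open Classical in
/-- the fundamental lemma for one member -/
theorem step (m : ℕ) : ∃ C0 : ℕ, 1 ≤ C0 ∧ ∀ (b J y z D N : ℕ), C0 ≤ b → C0 ≤ y → z ≤ 2 ^ 2 ^ J →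
    (2 ^ 2 ^ J) ^ (C0 * b) ≤ D → ∀ R : ℕ → ℕ → Prop, (∀ p ∈ pb y z, rho R p ≤ m) →
    ∀ f : ℕ → ℝ, (∀ n, 0 ≤ f n) →
    |∑ n ∈ Icc 1 N, f n * gz R y z n - WW R y z * ∑ n ∈ Icc 1 N, f n * ro R y n| ≤
      (1 / 2) ^ b * (WW R y z * ∑ n ∈ Icc 1 N, f n * ro R y n) + ((J : ℝ) + 2) * LD R y z D N f := by
  obtain ⟨C0, hC0, H⟩ := Pool.Agent.H20R2.fLem m
  refine ⟨C0, hC0, ?_⟩
  intro b J y z D N hb hy hz hD R hm f hf
  set W0 := ∑ n ∈ Icc 1 N, f n * ro R y n with hW0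
  have hW : 0 ≤ W0 := sum_nonneg fun n _ => mul_nonneg (hf n) (ro_nonneg _ _ _)
  have key := H b J y (pb y z) (fun p => (rho R p : ℝ) / p) hb hy
    (fun p hp => ⟨(mem_pb.1 hp).1, (mem_pb.1 hp).2.1, (mem_pb.1 hp).2.2.trans hz⟩) (fun p hp => by
    have hp2 : (2 : ℝ) ≤ p := by exact_mod_cast (mem_pb.1 hp).1.two_le
    refine ⟨by positivity, ?_⟩
    apply div_le_div₀ (Nat.cast_nonneg _) _ (by linarith) (by linarith)
    exact_mod_cast hm p hp)
    (Icc 1 N) (fun n => f n * ro R y n) (fun p n => R p n) W0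
    (fun T => |∑ n ∈ Icc 1 N, f n * (ro R y n * cen R T n)|)
    (fun n _ => mul_nonneg (hf n) (ro_nonneg _ _ _)) hW (fun T _ _ => ?_)
  · have e1 : ∏ p ∈ pb y z, (1 - (rho R p : ℝ) / p) = WW R y z := rfl
    rw [e1] at key
    have e3 : ∑ n ∈ (Icc 1 N).filter (fun n => ∀ p ∈ pb y z, ¬ R p n), f n * ro R y n =
        ∑ n ∈ Icc 1 N, f n * gz R y z n := by
      rw [sum_filter]
      refine sum_congr rfl fun n _ => ?_
      unfold gz
      split_ifs <;> ring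
    rw [e3] at key
    have e4 : W0 * WW R y z = WW R y z * W0 := mul_comm _ _
    rw [e4] at key
    refine key.trans (add_le_add le_rfl ?_)
    refine mul_le_mul_of_nonneg_left ?_ (by positivity)
    unfold LD
    apply sum_le_sum_of_subset_of_nonneg
    · intro T hT
      rw [mem_filter, mem_powerset] at hT
      exact mem_TT.2 ⟨hT.1, hT.2.trans hD⟩
    · intro _ _ _
      exact abs_nonneg _
  · apply le_of_eq
    congr 1
    rw [sum_filter, hW0, sum_mul, ← sum_sub_distrib]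
    refine sum_congr rfl fun n _ => ?_
    unfold cen ind den
    split_ifs <;> ring

section chain
variable {ι : Type} [DecidableEq ι] {g r : ι → ℕ → ℝ} {Z : (ℕ → ℝ) → ι → ℝ} {N : ℕ} {x : ℝ}

/-- lower bound by replacing the members one at a time -/
theorem chain_lower (u : ι → ℝ) (hx : 0 ≤ x) (hu : ∀ a, 0 ≤ u a) (hu1 : ∀ a, u a ≤ 1) {H : Finset ι}
    (hg : ∀ t n, 0 ≤ g t n ∧ g t n ≤ 1) (hr : ∀ t n, 0 ≤ r t n ∧ r t n ≤ 1)
    (hZ : ∀ f : ℕ → ℝ, (∀ n, 0 ≤ f n ∧ f n ≤ 1) → ∀ h ∈ H, Z f h ≤ x →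
      u h * ∑ n ∈ Icc 1 N, f n * r h n - x ≤ ∑ n ∈ Icc 1 N, f n * g h n)
    (hgood : Good (fun _ => (1 : ℝ)) g r Z x H) :
    ∀ S1 ⊆ H, (∏ a ∈ S1, u a) * ∑ n ∈ Icc 1 N, WH (fun _ => (1 : ℝ)) g r H ∅ n - S1.card * x ≤
      ∑ n ∈ Icc 1 N, WH (fun _ => (1 : ℝ)) g r H S1 n := by
  have he : ∀ n : ℕ, (0 : ℝ) ≤ (fun _ : ℕ => (1 : ℝ)) n ∧ (fun _ : ℕ => (1 : ℝ)) n ≤ 1 :=
    fun n => ⟨zero_le_one, le_rfl⟩
  intro S1
  induction S1 using Finset.induction_on with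
  | empty => intro _; simp
  | insert t S1 htS ih =>
    intro hS
    have htH : t ∈ H := hS (mem_insert_self _ _)
    have hS1 : S1 ⊆ H := (subset_insert _ _).trans hS
    have ih' := ih hS1
    have hsub : S1 ⊆ H.erase t := fun s hs => mem_erase.2 ⟨fun h => htS (h ▸ hs), hS1 hs⟩
    have hgd := hgood t htH S1 hsub
    have h1 := hZ (WH (fun _ => (1 : ℝ)) g r (H.erase t) S1) (WH_bd he hg hr _ _) t htH hgd
    have h2 : ∑ n ∈ Icc 1 N, WH (fun _ => (1 : ℝ)) g r H (insert t S1) n =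
        ∑ n ∈ Icc 1 N, WH (fun _ => (1 : ℝ)) g r (H.erase t) S1 n * g t n :=
      sum_congr rfl fun n _ => (WH_insert htH htS n).1
    have h3 : ∑ n ∈ Icc 1 N, WH (fun _ => (1 : ℝ)) g r H S1 n =
        ∑ n ∈ Icc 1 N, WH (fun _ => (1 : ℝ)) g r (H.erase t) S1 n * r t n :=
      sum_congr rfl fun n _ => (WH_insert htH htS n).2
    rw [h2]
    rw [h3] at ih'
    rw [card_insert_of_notMem htS, prod_insert htS]
    have h4 := mul_le_mul_of_nonneg_left ih' (hu t)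
    have h5 : u t * (S1.card * x) ≤ S1.card * x := by
      have : 0 ≤ (S1.card : ℝ) * x := by positivity
      have := hu1 t
      nlinarith
    push_cast
    nlinarith

/-- upper bound by replacing the members one at a time -/
theorem chain_upper (u : ι → ℝ) (hx : 0 ≤ x) (hu : ∀ a, 0 ≤ u a) (hu1 : ∀ a, u a ≤ 2) {H : Finset ι}
    (hg : ∀ t n, 0 ≤ g t n ∧ g t n ≤ 1) (hr : ∀ t n, 0 ≤ r t n ∧ r t n ≤ 1)
    (hZ : ∀ f : ℕ → ℝ, (∀ n, 0 ≤ f n ∧ f n ≤ 1) → ∀ h ∈ H, Z f h ≤ x →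
      ∑ n ∈ Icc 1 N, f n * g h n ≤ u h * ∑ n ∈ Icc 1 N, f n * r h n + x)
    (hgood : Good (fun _ => (1 : ℝ)) g r Z x H) :
    ∀ S1 ⊆ H, ∑ n ∈ Icc 1 N, WH (fun _ => (1 : ℝ)) g r H S1 n ≤
      (∏ a ∈ S1, u a) * ∑ n ∈ Icc 1 N, WH (fun _ => (1 : ℝ)) g r H ∅ n + 3 ^ S1.card * x := by
  have he : ∀ n : ℕ, (0 : ℝ) ≤ (fun _ : ℕ => (1 : ℝ)) n ∧ (fun _ : ℕ => (1 : ℝ)) n ≤ 1 :=
    fun n => ⟨zero_le_one, le_rfl⟩
  intro S1
  induction S1 using Finset.induction_on with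
  | empty => intro _; simp [hx]
  | insert t S1 htS ih =>
    intro hS
    have htH : t ∈ H := hS (mem_insert_self _ _)
    have hS1 : S1 ⊆ H := (subset_insert _ _).trans hS
    have ih' := ih hS1
    have hsub : S1 ⊆ H.erase t := fun s hs => mem_erase.2 ⟨fun h => htS (h ▸ hs), hS1 hs⟩
    have hgd := hgood t htH S1 hsub
    have h1 := hZ (WH (fun _ => (1 : ℝ)) g r (H.erase t) S1) (WH_bd he hg hr _ _) t htH hgd
    have h2 : ∑ n ∈ Icc 1 N, WH (fun _ => (1 : ℝ)) g r H (insert t S1) n =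
        ∑ n ∈ Icc 1 N, WH (fun _ => (1 : ℝ)) g r (H.erase t) S1 n * g t n :=
      sum_congr rfl fun n _ => (WH_insert htH htS n).1
    have h3 : ∑ n ∈ Icc 1 N, WH (fun _ => (1 : ℝ)) g r H S1 n =
        ∑ n ∈ Icc 1 N, WH (fun _ => (1 : ℝ)) g r (H.erase t) S1 n * r t n :=
      sum_congr rfl fun n _ => (WH_insert htH htS n).2
    rw [h2]
    rw [h3] at ih'
    rw [card_insert_of_notMem htS, prod_insert htS]
    have h4 := mul_le_mul_of_nonneg_left ih' (hu t)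
    have h6 : (1 : ℝ) ≤ 3 ^ S1.card := one_le_pow₀ (by norm_num)
    have h5 : u t * (3 ^ S1.card * x) + x ≤ 3 ^ (S1.card + 1) * x := by
      have h7 : 0 ≤ (3 : ℝ) ^ S1.card * x := by positivity
      have h8 := mul_le_mul_of_nonneg_right (hu1 t) h7
      have h9 : x ≤ 3 ^ S1.card * x := le_mul_of_one_le_left hx h6
      rw [pow_succ]
      linarith
    rw [mul_add] at h4
    have e : u t * ((∏ a ∈ S1, u a) * ∑ n ∈ Icc 1 N, WH (fun _ => (1 : ℝ)) g r H ∅ n) =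
      u t * (∏ a ∈ S1, u a) * ∑ n ∈ Icc 1 N, WH (fun _ => (1 : ℝ)) g r H ∅ n := by ring
    linarith

end chain

end Pool.Agent.Y822.G
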