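import Mathlib
import Pool.Agent.Y822.Par
import Pool.Agent.Y822.G.Dual

/-! Choice of parameters. The parameter `ℓ` is at least `log log N` and at most a small multiple of
`√log N`. -/

set_option autoImplicit false

namespace Pool.Agent.Y822.G

open Finset Filter
open Pool.Agent.Y822 (Ad Ad_nonneg)

/-- the first sifting limit -/
noncomputable def yl (κ ℓ : ℝ) (N : ℕ) : ℕ := ⌊Real.exp (κ * Real.log N / ℓ)⌋₊

/-- the number of large primes dividing a value -/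
noncomputable def wl (K : ℕ) (κ ℓ : ℝ) : ℕ := ⌊2 * K * ℓ / κ⌋₊

lemma yl_le (κ ℓ : ℝ) (N : ℕ) : (yl κ ℓ N : ℝ) ≤ Real.exp (κ * Real.log N / ℓ) :=
  Nat.floor_le (Real.exp_pos _).le

lemma le_yl {κ ℓ : ℝ} {N : ℕ} (h : 2 ≤ κ * Real.log N / ℓ) :
    Real.exp (κ * Real.log N / ℓ / 2) ≤ yl κ ℓ N := by
  set x := κ * Real.log N / ℓ with hx
  have h1 : Real.exp x < (yl κ ℓ N : ℝ) + 1 := by
    unfold yl
    rw [← hx]
    exact Nat.lt_floor_add_one _
  have h2 : Real.exp x = Real.exp (x / 2) * Real.exp (x / 2) := by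
    rw [← Real.exp_add, add_halves]
  have h3 : 2 ≤ Real.exp (x / 2) := by
    have := Real.add_one_le_exp (x / 2)
    linarith
  nlinarith

lemma EE_le (m : ℕ) : ∃ C1 : ℕ, ∀ᶠ N : ℕ in atTop, ∀ y z : ℕ, z ≤ N → EE m y z ≤ Real.log N ^ C1 := by
  obtain ⟨C1, h⟩ := Pool.Agent.Y822.EE_bound
  refine ⟨C1 * m, ?_⟩
  filter_upwards [h, Pool.Agent.Y822.ev_logN (eventually_ge_atTop (1 : ℝ))] with N h1 h2 y z hz
  have h3 := h1 y z hz
  have h4 : EE m y z ≤ (Pool.Agent.Y822.EE y z) ^ m := by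
    unfold EE Pool.Agent.Y822.EE
    have e : Pool.Agent.Y822.PP y z = pb y z := rfl
    rw [e, ← prod_pow]
    refine prod_le_prod (fun p _ => by positivity) fun p hp => ?_
    have hp0 : (0 : ℝ) ≤ 3 / (p : ℝ) := by positivity
    have h5 := one_add_mul_le_pow (a := 3 / (p : ℝ)) (by linarith) m
    have h6 : (m : ℝ) / p ≤ m * (3 / p) := by
      have : (0 : ℝ) ≤ (m : ℝ) / p := by positivity
      have e2 : (m : ℝ) * (3 / p) = 3 * (m / p) := by ring
      rw [e2]; linarith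
    linarith
  have h5 : 0 ≤ Pool.Agent.Y822.EE y z := (Pool.Agent.Y822.EE_pos y z).le
  calc EE m y z ≤ (Pool.Agent.Y822.EE y z) ^ m := h4
    _ ≤ (Real.log N ^ C1) ^ m := pow_le_pow_left₀ h5 h3 m
    _ = Real.log N ^ (C1 * m) := by rw [← pow_mul]

/-- powers of the logarithm -/
lemma logpow_le {L ℓ : ℝ} (hL : 0 < L) (h : Real.log L ≤ ℓ) (j : ℕ) : L ^ j ≤ Real.exp (j * ℓ) := by
  rw [Real.exp_nat_mul]
  refine pow_le_pow_left₀ hL.le ?_ j
  rwa [← Real.log_le_iff_le_exp hL]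

open Classical in
/-- **correlations, with parameters** -/
theorem kl_par (m K U : ℕ) : ∃ κ₀ : ℝ, 0 < κ₀ ∧ ∀ κ : ℝ, 0 < κ → κ ≤ κ₀ → ∃ c₁ : ℝ, 0 < c₁ ∧ ∃ C N₀ : ℕ,
    ∀ N : ℕ, N₀ ≤ N → ∀ ℓ : ℝ, Real.log (Real.log N) ≤ ℓ → ℓ ^ 2 ≤ c₁ * Real.log N →
    ∀ z D : ℕ, z ≤ N → (D : ℝ) ^ 4 ≤ N →
    (∀ (c c' : Finset ℕ → ℝ), (∀ T, |c T| ≤ 1) → (∀ T, |c' T| ≤ 1) →
      ∀ R R' : ℕ → ℕ → Prop, Ok m (wl K κ ℓ) (yl κ ℓ N) z N R → Ok m (wl K κ ℓ) (yl κ ℓ N) z N R' →
      ((pb (yl κ ℓ N) z).filter (fun p => ∃ n, R p n ∧ R' p n)).card ≤ wl K κ ℓ →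
      |∑ n ∈ Icc 1 N, GF R (yl κ ℓ N) z D c n * GF R' (yl κ ℓ N) z D c' n| ≤ N * Real.exp (-(U * ℓ))) ∧
    (2 ^ wl K κ ℓ + EE m (yl κ ℓ N) z) ^ 2 ≤ Real.exp (C * ℓ) := by
  obtain ⟨C0, K0, hC0, hK0, hcorr⟩ := corr m
  obtain ⟨C1, hEE⟩ := EE_le m
  obtain ⟨NE, hEE⟩ := eventually_atTop.1 hEE
  obtain ⟨β, hβ⟩ : ∃ β : ℕ, β = 2 * (2 * C1 + U + 3) := ⟨_, rfl⟩
  obtain ⟨W, hW⟩ : ∃ W : ℝ, W = 4 * C0 * (β + 1) + 1 := ⟨_, rfl⟩
  have hC0r : (1 : ℝ) ≤ C0 := by exact_mod_cast hC0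
  have hK0r : (1 : ℝ) ≤ K0 := by exact_mod_cast hK0
  have hW1 : 1 ≤ W := by
    rw [hW]
    have : (0 : ℝ) ≤ 4 * C0 * (β + 1) := by positivity
    linarith
  refine ⟨1 / (8 * W), by positivity, fun κ hκ hκ0 => ?_⟩
  have hκW : κ * W ≤ 1 / 8 := by
    have := mul_le_mul_of_nonneg_right hκ0 (by linarith : (0 : ℝ) ≤ W)
    have e : 1 / (8 * W) * W = 1 / 8 := by field_simp
    linarith
  have hκ1 : κ ≤ 1 := by
    have h0 : κ * 1 ≤ κ * W := mul_le_mul_of_nonneg_left hW1 hκ.le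
    linarith
  obtain ⟨C2, hC2⟩ : ∃ C2 : ℕ, C2 = ⌈2 * K / κ⌉₊ := ⟨_, rfl⟩
  have hC2' : 2 * K / κ ≤ C2 := by rw [hC2]; exact Nat.le_ceil _
  obtain ⟨C3, hC3⟩ : ∃ C3 : ℕ, C3 = C1 + C2 + 1 := ⟨_, rfl⟩
  obtain ⟨M, hM⟩ : ∃ M : ℕ, M = 2 * C3 + 4 + U + 1 := ⟨_, rfl⟩
  obtain ⟨C4, hC4⟩ : ∃ C4 : ℝ, C4 = 2 * C2 * m + 5 * m ^ 2 := ⟨_, rfl⟩
  obtain ⟨c₁, hc₁⟩ : ∃ c₁ : ℝ, c₁ = min (κ / (2 * (M + 1))) (1 / (8 * (2 * C1 + U + 1))) := ⟨_, rfl⟩
  have hc₁0 : 0 < c₁ := by rw [hc₁]; exact lt_min (by positivity) (by positivity)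
  have hc₁a : c₁ * (2 * (M + 1)) ≤ κ := by
    have h1 : c₁ ≤ κ / (2 * (M + 1)) := by rw [hc₁]; exact min_le_left _ _
    rwa [le_div_iff₀ (by positivity)] at h1
  have hc₁b : c₁ * (8 * (2 * C1 + U + 1)) ≤ 1 := by
    have h1 : c₁ ≤ 1 / (8 * (2 * C1 + U + 1)) := by rw [hc₁]; exact min_le_right _ _
    rwa [le_div_iff₀ (by positivity)] at h1
  have e1 := Pool.Agent.Y822.ev_logN (Real.tendsto_log_atTop.eventually
    (eventually_ge_atTop (max (max 3 ((C0 : ℝ) + 1)) C4)))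
  have e2 := Pool.Agent.Y822.ev_logN (Pool.Agent.Y822.ev_pow_exp 0 (1 / 4) (16 * (2 + 2 * K0)) (by norm_num))
  have e3 := Pool.Agent.Y822.ev_logN (eventually_ge_atTop (3 : ℝ))
  obtain ⟨N1, h1⟩ := eventually_atTop.1 (e1.and (e2.and e3))
  refine ⟨c₁, hc₁0, 2 * C3, max (max N1 NE) 3, ?_⟩
  intro N hN ℓ hℓ hℓ2 z D hz hD
  have hNN1 : N1 ≤ N := (le_max_left _ _).trans ((le_max_left _ _).trans hN)
  have hNE : NE ≤ N := (le_max_right _ _).trans ((le_max_left _ _).trans hN)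
  have hN3 : 3 ≤ N := (le_max_right _ _).trans hN
  obtain ⟨f1, f2, f3⟩ := h1 N hNN1
  set L := Real.log N with hL
  have hL0 : 0 < L := by linarith
  have hN0 : (0 : ℝ) < N := by positivity
  have hNe : (N : ℝ) = Real.exp L := by rw [hL, Real.exp_log hN0]
  have hℓ3 : 3 ≤ ℓ := ((le_max_left _ _).trans ((le_max_left _ _).trans f1)).trans hℓ
  have hℓC0 : (C0 : ℝ) + 1 ≤ ℓ := ((le_max_right _ _).trans ((le_max_left _ _).trans f1)).trans hℓ
  have hℓC4 : C4 ≤ ℓ := ((le_max_right _ _).trans f1).trans hℓ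
  have hℓ0 : 0 < ℓ := by linarith
  have hℓL : ℓ ≤ c₁ * L := by
    have h0 : ℓ * 1 ≤ ℓ * ℓ := mul_le_mul_of_nonneg_left (by linarith) hℓ0.le
    have h00 : ℓ ^ 2 = ℓ * ℓ := sq ℓ
    linarith
  rw [pow_zero, mul_one] at f2
  set y := yl κ ℓ N with hy
  set w := wl K κ ℓ with hw
  -- the sifting limit
  have hx : 2 * (M + 1) * ℓ ≤ κ * L / ℓ := by
    rw [le_div_iff₀ hℓ0]
    calc 2 * (M + 1) * ℓ * ℓ = 2 * (M + 1) * ℓ ^ 2 := by ring
      _ ≤ 2 * (M + 1) * (c₁ * L) := mul_le_mul_of_nonneg_left hℓ2 (by positivity)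
      _ = c₁ * (2 * (M + 1)) * L := by ring
      _ ≤ κ * L := mul_le_mul_of_nonneg_right hc₁a hL0.le
  have hM0 : (0 : ℝ) ≤ M := Nat.cast_nonneg _
  have hMℓ : 3 ≤ (M + 1) * ℓ := by
    have h0 : (1 : ℝ) * 3 ≤ (M + 1) * ℓ := mul_le_mul (by linarith) hℓ3 (by norm_num) (by linarith)
    linarith
  have hx2 : 2 ≤ κ * L / ℓ := by
    have h0 : 2 * (M + 1) * ℓ = 2 * ((M + 1) * ℓ) := by ring
    linarith
  have hy1 : (y : ℝ) ≤ Real.exp (κ * L / ℓ) := yl_le κ ℓ N
  have hy2 : Real.exp (κ * L / ℓ / 2) ≤ y := le_yl hx2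
  have hyM : Real.exp ((M + 1) * ℓ) ≤ y := by
    refine le_trans (Real.exp_le_exp.2 ?_) hy2
    linarith
  have hy3r : (3 : ℝ) ≤ y := by
    have h5 := Real.add_one_le_exp ((M + 1) * ℓ)
    linarith
  have hy3 : 3 ≤ y := by exact_mod_cast hy3r
  have hyr : (0 : ℝ) < y := by linarith
  have hyN : (y : ℝ) ≤ N := by
    rw [hNe]
    refine hy1.trans (Real.exp_le_exp.2 ?_)
    rw [div_le_iff₀ hℓ0]
    have h0 : κ * L ≤ 1 * L := mul_le_mul_of_nonneg_right hκ1 hL0.le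
    have h00 : L * 1 ≤ L * ℓ := mul_le_mul_of_nonneg_left (by linarith) hL0.le
    linarith
  -- the basic sizes
  have hE : EE m y z ≤ Real.exp (C1 * ℓ) := (hEE N hNE y z hz).trans (logpow_le hL0 hℓ C1)
  have hE0 := (EE_pos m y z).le
  have hw1 : (w : ℝ) ≤ C2 * ℓ := by
    have h5 : (w : ℝ) ≤ 2 * K * ℓ / κ := Nat.floor_le (by positivity)
    have h6 : 2 * K * ℓ / κ = 2 * K / κ * ℓ := by ring
    rw [h6] at h5
    exact h5.trans (mul_le_mul_of_nonneg_right hC2' hℓ0.le)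
  have h2w : (2 : ℝ) ^ w ≤ Real.exp (C2 * ℓ) := by
    calc (2 : ℝ) ^ w ≤ Real.exp 1 ^ w := by
          apply pow_le_pow_left₀ (by norm_num)
          have := Real.exp_one_gt_d9
          linarith
      _ = Real.exp w := by rw [← Real.exp_nat_mul, mul_one]
      _ ≤ _ := Real.exp_le_exp.2 hw1
  have he1 : (2 : ℝ) ≤ Real.exp ℓ := by
    have := Real.add_one_le_exp ℓ
    linarith
  have hC1r : (0 : ℝ) ≤ C1 := Nat.cast_nonneg _
  have hC2r : (0 : ℝ) ≤ C2 := Nat.cast_nonneg _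
  have hB : (2 : ℝ) ^ w + EE m y z ≤ Real.exp (C3 * ℓ) := by
    have g1 : Real.exp (C1 * ℓ) ≤ Real.exp ((C1 + C2) * ℓ) :=
      Real.exp_le_exp.2 (mul_le_mul_of_nonneg_right (by linarith) hℓ0.le)
    have g2 : Real.exp (C2 * ℓ) ≤ Real.exp ((C1 + C2) * ℓ) :=
      Real.exp_le_exp.2 (mul_le_mul_of_nonneg_right (by linarith) hℓ0.le)
    have g3 : Real.exp (C3 * ℓ) = Real.exp ((C1 + C2) * ℓ) * Real.exp ℓ := by
      rw [← Real.exp_add, hC3]
      congr 1
      push_cast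
      ring
    rw [g3]
    have g4 := Real.exp_pos ((C1 + C2 : ℝ) * ℓ)
    have g5 := mul_le_mul_of_nonneg_left he1 g4.le
    linarith
  have hBsq : ((2 : ℝ) ^ w + EE m y z) ^ 2 ≤ Real.exp (2 * C3 * ℓ) := by
    calc _ ≤ Real.exp (C3 * ℓ) ^ 2 := pow_le_pow_left₀ (by positivity) hB 2
      _ = Real.exp (2 * C3 * ℓ) := by
        rw [← Real.exp_nat_mul]
        congr 1
        push_cast
        ring
  constructor
  · intro c c' hc hc' R R' hR hR' hZ
    set b := ⌈(β : ℝ) * ℓ⌉₊ with hb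
    have hb1 : (β : ℝ) * ℓ ≤ b := Nat.le_ceil _
    have hb2 : (b : ℝ) ≤ (β + 1) * ℓ := by
      have := (Nat.ceil_lt_add_one (by positivity : (0 : ℝ) ≤ β * ℓ)).le
      linarith
    have hβ1 : (1 : ℝ) ≤ β := by
      have : 1 ≤ β := by omega
      exact_mod_cast this
    have hbC : C0 ≤ b := by
      have h0 : 1 * ℓ ≤ β * ℓ := mul_le_mul_of_nonneg_right hβ1 hℓ0.le
      have : (C0 : ℝ) ≤ b := by linarith
      exact_mod_cast this
    refine (hcorr b hbC y (by omega) w z D N c c' hc hc' R R' hR hR' hZ).trans ?_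
    unfold KB
    -- first part
    have hhalf : (1 / 2 : ℝ) ^ b ≤ Real.exp (-((2 * C1 + U + 3) * ℓ)) := by
      have g1 : (1 / 2 : ℝ) ^ b = Real.exp (-(Real.log 2 * b)) := by
        rw [Real.exp_neg, Real.exp_mul, Real.exp_log (by norm_num), Real.rpow_natCast, one_div,
          inv_pow]
      rw [g1]
      apply Real.exp_le_exp.2
      have g2 : 1 / 2 ≤ Real.log 2 := by have := Real.log_two_gt_d9; linarith
      have g3 : (1 / 2 : ℝ) * b ≤ Real.log 2 * b := mul_le_mul_of_nonneg_right g2 (Nat.cast_nonneg _)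
      have g4 : (2 * C1 + U + 3 : ℝ) * ℓ = 1 / 2 * (β * ℓ) := by
        rw [hβ]; push_cast; ring
      rw [g4]
      linarith
    have hEsq : EE m y z ^ 2 ≤ Real.exp (2 * C1 * ℓ) := by
      calc EE m y z ^ 2 ≤ Real.exp (C1 * ℓ) ^ 2 := pow_le_pow_left₀ hE0 hE 2
        _ = Real.exp (2 * C1 * ℓ) := by
          rw [← Real.exp_nat_mul]
          congr 1
          push_cast
          ring
    have he3 : (16 : ℝ) ≤ Real.exp (3 * ℓ) := by
      have := Real.add_one_le_exp ℓ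
      have e : Real.exp (3 * ℓ) = Real.exp ℓ ^ 3 := by rw [← Real.exp_nat_mul]; norm_num
      rw [e]
      calc (16 : ℝ) ≤ 4 ^ 3 := by norm_num
        _ ≤ _ := pow_le_pow_left₀ (by norm_num) (by linarith) 3
    have heU := Real.exp_pos (-(U * ℓ))
    have T1 : 4 * EE m y z ^ 2 * ((1 / 2) ^ b * N) ≤ N * Real.exp (-(U * ℓ)) / 4 := by
      calc 4 * EE m y z ^ 2 * ((1 / 2) ^ b * N)
          ≤ 4 * Real.exp (2 * C1 * ℓ) * (Real.exp (-((2 * C1 + U + 3) * ℓ)) * N) := by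
            apply mul_le_mul (by linarith) _ (by positivity) (by positivity)
            exact mul_le_mul_of_nonneg_right hhalf hN0.le
        _ = 4 * N * Real.exp (-(U * ℓ)) * Real.exp (-(3 * ℓ)) := by
            have : Real.exp (2 * C1 * ℓ) * Real.exp (-((2 * C1 + U + 3) * ℓ)) =
              Real.exp (-(U * ℓ)) * Real.exp (-(3 * ℓ)) := by
              rw [← Real.exp_add, ← Real.exp_add]
              congr 1
              ring
            calc _ = 4 * N * (Real.exp (2 * C1 * ℓ) * Real.exp (-((2 * C1 + U + 3) * ℓ))) := by ring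
              _ = _ := by rw [this]; ring
        _ ≤ N * Real.exp (-(U * ℓ)) / 4 := by
            have g : Real.exp (-(3 * ℓ)) ≤ 1 / 16 := by
              rw [Real.exp_neg, inv_eq_one_div]
              exact one_div_le_one_div_of_le (by norm_num) he3
            have g2 : 0 ≤ (N : ℝ) * Real.exp (-(U * ℓ)) := by positivity
            have g3 := mul_le_mul_of_nonneg_left g g2
            have g4 : 4 * N * Real.exp (-(U * ℓ)) * Real.exp (-(3 * ℓ)) =
              4 * (N * Real.exp (-(U * ℓ)) * Real.exp (-(3 * ℓ))) := by ring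
            rw [g4]
            linarith
    have hAd : Ad C0 K0 b y ≤ 2 * K0 * Real.exp (L / 8) := by
      unfold Ad
      have g1 : ((Pool.Agent.W41.JJ y : ℝ) + 2) ≤ 2 * y := by
        exact_mod_cast Pool.Agent.W41.JJ_small y hy3
      have g2 : (y : ℝ) ^ (2 * (C0 * b)) * (K0 * (y : ℝ) ^ (2 * (C0 * b))) =
          K0 * (y : ℝ) ^ (4 * C0 * b) := by
        rw [show 4 * C0 * b = 2 * (C0 * b) + 2 * (C0 * b) by ring, pow_add]
        ring
      rw [g2]
      calc ((Pool.Agent.W41.JJ y : ℝ) + 2) * (K0 * (y : ℝ) ^ (4 * C0 * b))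
          ≤ 2 * y * (K0 * (y : ℝ) ^ (4 * C0 * b)) :=
            mul_le_mul_of_nonneg_right g1 (by positivity)
        _ = 2 * K0 * (y : ℝ) ^ (4 * C0 * b + 1) := by rw [pow_succ]; ring
        _ ≤ 2 * K0 * Real.exp (L / 8) := by
            apply mul_le_mul_of_nonneg_left _ (by positivity)
            calc (y : ℝ) ^ (4 * C0 * b + 1) ≤ Real.exp (κ * L / ℓ) ^ (4 * C0 * b + 1) :=
                  pow_le_pow_left₀ hyr.le hy1 _
              _ = Real.exp (((4 * C0 * b + 1 : ℕ) : ℝ) * (κ * L / ℓ)) := by rw [← Real.exp_nat_mul]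
              _ ≤ Real.exp (L / 8) := by
                  apply Real.exp_le_exp.2
                  rw [mul_div_assoc', div_le_iff₀ hℓ0]
                  have g3 : ((4 * C0 * b + 1 : ℕ) : ℝ) ≤ W * ℓ := by
                    push_cast
                    rw [hW]
                    have h0 := mul_le_mul_of_nonneg_left hb2 (by positivity : (0 : ℝ) ≤ 4 * C0)
                    have h00 : (4 * (C0 : ℝ) * (β + 1) + 1) * ℓ = 4 * C0 * ((β + 1) * ℓ) + ℓ := by ring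
                    rw [h00]
                    linarith
                  calc ((4 * C0 * b + 1 : ℕ) : ℝ) * (κ * L) ≤ W * ℓ * (κ * L) :=
                        mul_le_mul_of_nonneg_right g3 (by positivity)
                    _ = κ * W * (L * ℓ) := by ring
                    _ ≤ 1 / 8 * (L * ℓ) := mul_le_mul_of_nonneg_right hκW (by positivity)
                    _ = L / 8 * ℓ := by ring
    have hD2 : (D : ℝ) ^ 2 ≤ Real.exp (L / 2) := by
      have h5 : ((D : ℝ) ^ 2) ^ 2 ≤ Real.exp (L / 2) ^ 2 := by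
        rw [← pow_mul, ← Real.exp_nat_mul]
        have : ((2 : ℕ) : ℝ) * (L / 2) = L := by push_cast; ring
        rw [this, ← hNe]
        exact hD
      exact (pow_le_pow_iff_left₀ (by positivity) (Real.exp_pos _).le (by norm_num)).1 h5
    have T2 : 4 * EE m y z ^ 2 * ((2 + Ad C0 K0 b y) * D ^ 2) ≤ N * Real.exp (-(U * ℓ)) / 4 := by
      have hexp1 : 1 ≤ Real.exp (L / 8) := Real.one_le_exp (by positivity)
      have g1 : 2 + Ad C0 K0 b y ≤ (2 + 2 * K0) * Real.exp (L / 8) := by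
        rw [add_mul]
        linarith
      have hAd0 := Ad_nonneg C0 K0 b y
      have g2 : (2 + Ad C0 K0 b y) * (D : ℝ) ^ 2 ≤ (2 + 2 * K0) * Real.exp (L / 8) * Real.exp (L / 2) :=
        mul_le_mul g1 hD2 (by positivity) (by positivity)
      have g3 : Real.exp (2 * C1 * ℓ) * Real.exp (U * ℓ) ≤ Real.exp (L / 8) := by
        rw [← Real.exp_add]
        apply Real.exp_le_exp.2
        have h5 : (2 * C1 + U : ℝ) * ℓ ≤ (2 * C1 + U + 1) * (c₁ * L) := by
          have h0 : (2 * C1 + U : ℝ) * ℓ ≤ (2 * C1 + U) * (c₁ * L) :=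
            mul_le_mul_of_nonneg_left hℓL (by positivity)
          have h00 : (0 : ℝ) ≤ c₁ * L := by positivity
          have h000 : (2 * C1 + U + 1 : ℝ) * (c₁ * L) = (2 * C1 + U) * (c₁ * L) + c₁ * L := by ring
          linarith
        have h6 : (2 * C1 + U + 1 : ℝ) * (c₁ * L) = c₁ * (8 * (2 * C1 + U + 1)) * (L / 8) := by ring
        have h7 : c₁ * (8 * (2 * C1 + U + 1)) * (L / 8) ≤ 1 * (L / 8) :=
          mul_le_mul_of_nonneg_right hc₁b (by positivity)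
        linarith
      have g4 : Real.exp (2 * C1 * ℓ) ≤ Real.exp (L / 8) * Real.exp (-(U * ℓ)) := by
        have : Real.exp (2 * C1 * ℓ) = Real.exp (2 * C1 * ℓ) * Real.exp (U * ℓ) * Real.exp (-(U * ℓ)) := by
          rw [← Real.exp_add, ← Real.exp_add]
          congr 1
          ring
        rw [this]
        exact mul_le_mul_of_nonneg_right g3 (Real.exp_pos _).le
      calc 4 * EE m y z ^ 2 * ((2 + Ad C0 K0 b y) * D ^ 2)
          ≤ 4 * (Real.exp (L / 8) * Real.exp (-(U * ℓ))) * ((2 + 2 * K0) * Real.exp (L / 8) * Real.exp (L / 2)) :=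
            mul_le_mul (by linarith) g2 (by positivity) (by positivity)
        _ = (16 * (2 + 2 * K0)) * (Real.exp (L / 8) * Real.exp (L / 8) * Real.exp (L / 2)) *
            Real.exp (-(U * ℓ)) / 4 := by ring
        _ ≤ Real.exp (1 / 4 * L) * (Real.exp (L / 8) * Real.exp (L / 8) * Real.exp (L / 2)) *
            Real.exp (-(U * ℓ)) / 4 := by gcongr
        _ = N * Real.exp (-(U * ℓ)) / 4 := by
            congr 2
            rw [hNe, ← Real.exp_add, ← Real.exp_add, ← Real.exp_add]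
            congr 1
            ring
    have T3 : (2 ^ w + EE m y z) ^ 2 * (w * (m * ((N : ℝ) / y + 1)) + 3 * m ^ 2 * (N : ℝ) / y +
        2 * m ^ 2 * (z : ℝ) / y) ≤ N * Real.exp (-(U * ℓ)) / 4 := by
      have g3 : (1 : ℝ) ≤ N / y := by rw [le_div_iff₀ hyr]; linarith
      have g4 : (z : ℝ) / y ≤ N / y :=
        div_le_div_of_nonneg_right (by exact_mod_cast hz) hyr.le
      have hm0 : (0 : ℝ) ≤ m := Nat.cast_nonneg _
      have hw0 : (0 : ℝ) ≤ w := Nat.cast_nonneg _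
      have g5 : w * (m * ((N : ℝ) / y + 1)) + 3 * m ^ 2 * (N : ℝ) / y + 2 * m ^ 2 * (z : ℝ) / y ≤
          (C4 * ℓ) * (N / y) := by
        have a1 : w * (m * ((N : ℝ) / y + 1)) ≤ (C2 * ℓ) * (m * (2 * (N / y))) := by
          apply mul_le_mul hw1 _ (by positivity) (by positivity)
          apply mul_le_mul_of_nonneg_left _ hm0
          linarith
        have a2 : 3 * (m : ℝ) ^ 2 * (N : ℝ) / y = 3 * m ^ 2 * (N / y) := by ring
        have a3 : 2 * (m : ℝ) ^ 2 * (z : ℝ) / y = 2 * m ^ 2 * (z / y) := by ring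
        rw [a2, a3]
        have a4 : 2 * (m : ℝ) ^ 2 * (z / y) ≤ 2 * m ^ 2 * (N / y) :=
          mul_le_mul_of_nonneg_left g4 (by positivity)
        have a5 : 5 * (m : ℝ) ^ 2 * (N / y) ≤ 5 * m ^ 2 * (N / y) * ℓ :=
          le_mul_of_one_le_right (by positivity) (by linarith)
        rw [hC4]
        have a6 : (C2 : ℝ) * ℓ * (m * (2 * (N / y))) + 5 * m ^ 2 * (N / y) * ℓ =
          (2 * C2 * m + 5 * m ^ 2) * ℓ * (N / y) := by ring
        linarith
      have g6 : C4 * ℓ ≤ Real.exp (2 * ℓ) := by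
        have h5 := Real.add_one_le_exp ℓ
        have e : Real.exp (2 * ℓ) = Real.exp ℓ * Real.exp ℓ := by rw [← Real.exp_add]; congr 1; ring
        rw [e]
        exact mul_le_mul (by linarith) (by linarith) hℓ0.le (Real.exp_pos _).le
      have g7 : (N : ℝ) / y ≤ N * Real.exp (-((M + 1) * ℓ)) := by
        rw [Real.exp_neg, ← div_eq_mul_inv]
        exact div_le_div_of_nonneg_left hN0.le (Real.exp_pos _) hyM
      calc _ ≤ Real.exp (2 * C3 * ℓ) * ((C4 * ℓ) * (N / y)) :=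
            mul_le_mul hBsq g5 (by positivity) (Real.exp_pos _).le
        _ ≤ Real.exp (2 * C3 * ℓ) * (Real.exp (2 * ℓ) * (N * Real.exp (-((M + 1) * ℓ)))) := by
            apply mul_le_mul_of_nonneg_left _ (Real.exp_pos _).le
            exact mul_le_mul g6 g7 (by positivity) (Real.exp_pos _).le
        _ = N * Real.exp (-(U * ℓ)) * Real.exp (-(4 * ℓ)) := by
            have : Real.exp (2 * C3 * ℓ) * Real.exp (2 * ℓ) * Real.exp (-((M + 1) * ℓ)) =
                Real.exp (-(U * ℓ)) * Real.exp (-(4 * ℓ)) := by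
              rw [← Real.exp_add, ← Real.exp_add, ← Real.exp_add]
              congr 1
              rw [hM]
              push_cast
              ring
            calc _ = N * (Real.exp (2 * C3 * ℓ) * Real.exp (2 * ℓ) * Real.exp (-((M + 1) * ℓ))) := by ring
              _ = _ := by rw [this]; ring
        _ ≤ N * Real.exp (-(U * ℓ)) / 4 := by
            have g8 : Real.exp (-(4 * ℓ)) ≤ 1 / 4 := by
              rw [Real.exp_neg, inv_eq_one_div]
              apply one_div_le_one_div_of_le (by norm_num)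
              have := Real.add_one_le_exp (4 * ℓ)
              linarith
            have g9 : 0 ≤ (N : ℝ) * Real.exp (-(U * ℓ)) := by positivity
            have g10 := mul_le_mul_of_nonneg_left g8 g9
            linarith
    have e : 4 * EE m y z ^ 2 * ((1 / 2) ^ b * N + (2 + Ad C0 K0 b y) * D ^ 2) =
        4 * EE m y z ^ 2 * ((1 / 2) ^ b * N) + 4 * EE m y z ^ 2 * ((2 + Ad C0 K0 b y) * D ^ 2) := by ring
    rw [e]
    have g9 : 0 ≤ (N : ℝ) * Real.exp (-(U * ℓ)) := by positivity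
    linarith
  · refine hBsq.trans (le_of_eq ?_)
    push_cast
    rfl

end Pool.Agent.Y822.G
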