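import Mathlib
import Pool.Agent.Y822.G.Par

/-! Few members of a family have a large discrepancy. -/

set_option autoImplicit false

namespace Pool.Agent.Y822.G

open Finset Filter

/-- the conditions on a family: dimension `m`, values and resultants at most `N ^ K` -/
structure Fam {ι : Type} (m K N : ℕ) (R : ι → ℕ → ℕ → Prop) (A : Finset ι) : Prop where
  per : ∀ a ∈ A, Per (R a)
  rho : ∀ a ∈ A, ∀ p : ℕ, p.Prime → rho (R a) p ≤ m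
  val : ∀ a ∈ A, ∀ n ∈ Icc 1 N, R a 2 n ∨ ∃ Δ : ℕ, 1 ≤ Δ ∧ Δ ≤ N ^ K ∧ ∀ p : ℕ, p.Prime → R a p n → p ∣ Δ
  pair : ∀ a ∈ A, ∀ a' ∈ A, a ≠ a' →
    ∃ Δ : ℕ, 1 ≤ Δ ∧ Δ ≤ N ^ K ∧ ∀ p : ℕ, p.Prime → ∀ n : ℕ, R a p n → R a' p n → p ∣ Δ

/-- the first sifting limit is large -/
lemma yl_large {κ ℓ c : ℝ} {N : ℕ} (hκ : 0 < κ) (hℓ : 1 ≤ ℓ) (hc : 4 * c ≤ κ) (hL : 0 < Real.log N)
    (h : ℓ ^ 2 ≤ c * Real.log N) :
    Real.exp (2 * ℓ) ≤ yl κ ℓ N ∧ κ * Real.log N / (2 * ℓ) ≤ Real.log (yl κ ℓ N) := by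
  have hℓ0 : 0 < ℓ := by linarith
  have h1 : 4 * ℓ ≤ κ * Real.log N / ℓ := by
    rw [le_div_iff₀ hℓ0]
    calc 4 * ℓ * ℓ = 4 * ℓ ^ 2 := by ring
      _ ≤ 4 * (c * Real.log N) := by linarith
      _ = 4 * c * Real.log N := by ring
      _ ≤ κ * Real.log N := mul_le_mul_of_nonneg_right hc hL.le
  have h2 := le_yl (κ := κ) (ℓ := ℓ) (N := N) (by linarith)
  have h3 : (0 : ℝ) < yl κ ℓ N := lt_of_lt_of_le (Real.exp_pos _) h2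
  refine ⟨le_trans (Real.exp_le_exp.2 (by linarith)) h2, ?_⟩
  rw [Real.le_log_iff_exp_le h3]
  refine le_trans (Real.exp_le_exp.2 (le_of_eq ?_)) h2
  field_simp

lemma card_dvd_le {K N y z Δ : ℕ} {κ ℓ : ℝ} (hκ : 0 < κ) (hℓ : 0 < ℓ) (hL : 0 < Real.log N)
    (hy : κ * Real.log N / (2 * ℓ) ≤ Real.log y) (hN : 1 ≤ N) (S : Finset ℕ) (hS : S ⊆ pb y z) (hΔ : 1 ≤ Δ)
    (hΔ2 : Δ ≤ N ^ K) (hd : ∀ p ∈ S, p ∣ Δ) : S.card ≤ wl K κ ℓ := by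
  have h1 : ∏ p ∈ S, p ∣ Δ := Finset.prod_primes_dvd _ (fun p hp => (mem_pb.1 (hS hp)).1.prime) hd
  have h2 : ∏ p ∈ S, p ≤ N ^ K := (Nat.le_of_dvd hΔ h1).trans hΔ2
  have h3 : y ^ S.card ≤ ∏ p ∈ S, p := by
    calc y ^ S.card = ∏ _p ∈ S, y := by rw [prod_const]
      _ ≤ ∏ p ∈ S, p := prod_le_prod (fun _ _ => Nat.zero_le _) fun p hp => (mem_pb.1 (hS hp)).2.1.le
  have h4 : 0 < κ * Real.log N / (2 * ℓ) := by positivity
  have hy1 : 0 < Real.log y := by linarith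
  have hy0 : (0 : ℝ) < y := by
    rcases Nat.eq_zero_or_pos y with h | h
    · rw [h, Nat.cast_zero, Real.log_zero] at hy1
      exact absurd hy1 (lt_irrefl _)
    · exact_mod_cast h
  have h5 : ((y ^ S.card : ℕ) : ℝ) ≤ ((N ^ K : ℕ) : ℝ) := by exact_mod_cast h3.trans h2
  have h6 := Real.log_le_log (by push_cast; positivity) h5
  push_cast at h6
  rw [Real.log_pow, Real.log_pow] at h6
  unfold wl
  apply Nat.le_floor
  rw [le_div_iff₀ hκ]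
  have h7 : (S.card : ℝ) * (κ * Real.log N / (2 * ℓ)) ≤ K * Real.log N :=
    (mul_le_mul_of_nonneg_left hy (Nat.cast_nonneg _)).trans h6
  have h8 : (S.card : ℝ) * (κ * Real.log N / (2 * ℓ)) = (S.card * κ) * Real.log N / (2 * ℓ) := by ring
  rw [h8, div_le_iff₀ (by positivity)] at h7
  have h9 : (S.card : ℝ) * κ * Real.log N ≤ (2 * K * ℓ) * Real.log N := by
    calc _ ≤ K * Real.log N * (2 * ℓ) := h7
      _ = _ := by ring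
  exact le_of_mul_le_mul_right h9 hL

open Classical in
lemma fam_ok {ι : Type} {m K N z : ℕ} {κ ℓ c : ℝ} {R : ι → ℕ → ℕ → Prop} {A : Finset ι} (hF : Fam m K N R A)
    (hκ : 0 < κ) (hℓ : 1 ≤ ℓ) (hc : 4 * c ≤ κ) (hL : 0 < Real.log N) (h : ℓ ^ 2 ≤ c * Real.log N) (hN : 1 ≤ N) :
    (∀ a ∈ A, Ok m (wl K κ ℓ) (yl κ ℓ N) z N (R a)) ∧
    ∀ a ∈ A, ∀ a' ∈ A, a ≠ a' →
      ((pb (yl κ ℓ N) z).filter (fun p => ∃ n, R a p n ∧ R a' p n)).card ≤ wl K κ ℓ := by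
  obtain ⟨hy1, hy2⟩ := yl_large hκ hℓ hc hL h
  have hy3 : 2 ≤ yl κ ℓ N := by
    have h1 := Real.add_one_le_exp (2 * ℓ)
    have : (2 : ℝ) ≤ yl κ ℓ N := by linarith
    exact_mod_cast this
  constructor
  · intro a ha
    refine ⟨hF.per a ha, fun p hp _ => hF.rho a ha p hp, fun n hn hro => ?_⟩
    rcases hF.val a ha n hn with h1 | ⟨Δ, h1, h2, h3⟩
    · exact absurd h1 (hro 2 (mem_ps.2 ⟨Nat.prime_two, hy3⟩))
    · refine card_dvd_le (z := z) hκ (by linarith) hL hy2 hN _ (filter_subset _ _) h1 h2 fun p hp => ?_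
      rw [mem_filter] at hp
      exact h3 p (mem_pb.1 hp.1).1 hp.2
  · intro a ha a' ha' hne
    obtain ⟨Δ, h1, h2, h3⟩ := hF.pair a ha a' ha' hne
    refine card_dvd_le (z := z) hκ (by linarith) hL hy2 hN _ (filter_subset _ _) h1 h2 fun p hp => ?_
    rw [mem_filter] at hp
    obtain ⟨n, hn1, hn2⟩ := hp.2
    exact h3 p (mem_pb.1 hp.1).1 n hn1 hn2

/-- few members of a family have a large discrepancy -/
theorem few_par (m K U : ℕ) : ∃ κ₀ : ℝ, 0 < κ₀ ∧ ∀ κ : ℝ, 0 < κ → κ ≤ κ₀ → ∃ c₁ : ℝ, 0 < c₁ ∧ ∃ C N₀ : ℕ,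
    ∀ N : ℕ, N₀ ≤ N → ∀ ℓ : ℝ, Real.log (Real.log N) ≤ ℓ → ℓ ^ 2 ≤ c₁ * Real.log N →
    ∀ z D : ℕ, z ≤ N → (D : ℝ) ^ 4 ≤ N → ∀ (ι : Type) (R : ι → ℕ → ℕ → Prop) (A : Finset ι), Fam m K N R A →
    ∀ f : ℕ → ℝ, (∀ n, |f n| ≤ 1) → ∀ S : Finset ι,
    (∀ a ∈ S, a ∈ A ∧ N * Real.exp (-(U * ℓ)) < LD (R a) (yl κ ℓ N) z D N f) →
    (S.card : ℝ) ≤ Real.exp (C * ℓ) := by
  obtain ⟨κ₀, hκ₀, hpar⟩ := kl_par m K (2 * U + 1)
  refine ⟨κ₀, hκ₀, fun κ hκ hκ0 => ?_⟩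
  obtain ⟨c₁, hc₁, C, N₀, H⟩ := hpar κ hκ hκ0
  obtain ⟨N1, hN1⟩ := eventually_atTop.1 ((Pool.Agent.Y822.ev_logN (Real.tendsto_log_atTop.eventually
    (eventually_ge_atTop (1 : ℝ)))).and (Pool.Agent.Y822.ev_logN (eventually_ge_atTop (1 : ℝ))))
  refine ⟨min c₁ (κ / 4), lt_min hc₁ (by positivity), C + 2 * U + 1, max (max N₀ N1) 1, ?_⟩
  intro N hN ℓ hℓ hℓ2 z D hz hD ι R A hF f hf S hS
  have hNN : N₀ ≤ N := (le_max_left _ _).trans ((le_max_left _ _).trans hN)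
  have hNN1 : N1 ≤ N := (le_max_right _ _).trans ((le_max_left _ _).trans hN)
  have hN1' : 1 ≤ N := (le_max_right _ _).trans hN
  obtain ⟨f1, f2⟩ := hN1 N hNN1
  have hL0 : 0 < Real.log N := by linarith
  have hℓ1 : 1 ≤ ℓ := f1.trans hℓ
  have hN0 : (0 : ℝ) < N := by exact_mod_cast hN1'
  have hℓa : ℓ ^ 2 ≤ c₁ * Real.log N := hℓ2.trans (mul_le_mul_of_nonneg_right (min_le_left _ _) hL0.le)
  have hℓb : ℓ ^ 2 ≤ κ / 4 * Real.log N := hℓ2.trans (mul_le_mul_of_nonneg_right (min_le_right _ _) hL0.le)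
  obtain ⟨hcorr, hdiag⟩ := H N hNN ℓ hℓ hℓa z D hz hD
  obtain ⟨ok1, ok2⟩ := fam_ok (z := z) hF hκ hℓ1 (by linarith) hL0 hℓb hN1'
  set η := Real.exp (-(U * ℓ)) with hη
  have hη0 : 0 < η := Real.exp_pos _
  have hη2 : η ^ 2 = Real.exp (-(2 * U * ℓ)) := by
    rw [hη, ← Real.exp_nat_mul]
    congr 1
    push_cast
    ring
  have hKB : (N : ℝ) * Real.exp (-(((2 * U + 1 : ℕ) : ℝ) * ℓ)) ≤ η ^ 2 * N / 2 := by
    have e : Real.exp (-(((2 * U + 1 : ℕ) : ℝ) * ℓ)) = Real.exp (-(2 * U * ℓ)) * Real.exp (-ℓ) := by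
      rw [← Real.exp_add]
      congr 1
      push_cast
      ring
    rw [e, hη2]
    have h1 : Real.exp (-ℓ) ≤ 1 / 2 := by
      rw [Real.exp_neg, inv_eq_one_div]
      apply one_div_le_one_div_of_le (by norm_num)
      have := Real.add_one_le_exp ℓ
      linarith
    have h2 := mul_le_mul_of_nonneg_left h1 (by positivity : (0 : ℝ) ≤ N * Real.exp (-(2 * U * ℓ)))
    linarith
  have h5 := few (ι := ι) (m := m) (w := wl K κ ℓ) (y := yl κ ℓ N) (z := z) (D := D) (N := N) hN1'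
    (KBv := N * Real.exp (-(((2 * U + 1 : ℕ) : ℝ) * ℓ))) (η := η) hη0 (by positivity) hcorr hKB R A ok1 ok2 f
    (fun n _ => hf n) S (fun a ha => ⟨(hS a ha).1, by rw [mul_comm]; exact (hS a ha).2⟩)
  refine h5.trans ?_
  have h6 : 2 * ((N : ℝ) * (2 ^ wl K κ ℓ + EE m (yl κ ℓ N) z) ^ 2) / (η ^ 2 * N) =
      2 * (2 ^ wl K κ ℓ + EE m (yl κ ℓ N) z) ^ 2 / η ^ 2 := by
    field_simp
  rw [h6, div_le_iff₀ (by positivity), hη2, ← Real.exp_add]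
  have h7 : ((C + 2 * U + 1 : ℕ) : ℝ) * ℓ + -(2 * U * ℓ) = C * ℓ + ℓ := by
    push_cast
    ring
  rw [h7, Real.exp_add]
  have h8 : (2 : ℝ) ≤ Real.exp ℓ := by
    have := Real.add_one_le_exp ℓ
    linarith
  have h9 := Real.exp_pos (C * ℓ)
  calc 2 * (2 ^ wl K κ ℓ + EE m (yl κ ℓ N) z) ^ 2 ≤ 2 * Real.exp (C * ℓ) := by linarith
    _ ≤ Real.exp ℓ * Real.exp (C * ℓ) := mul_le_mul_of_nonneg_right h8 h9.le
    _ = _ := mul_comm _ _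

end Pool.Agent.Y822.G
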