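import Mathlib
import Pool.Agent.Y822.G.Fam
import Pool.Agent.Y822.G.Stm
import Pool.Agent.Y388.GL.Brun
import Pool.Agent.Y388.GL.Plow
import Pool.Agent.Y77.GL.Loc

/-! The fundamental lemma of the sieve for almost all systems. -/

set_option autoImplicit false

namespace Pool.Agent.Y822.G

open Finset Filter
open Pool.Agent.Y822.F (WH WH_bd Good few_bad)
open Pool.Agent.W41 (JJ JJ_lt JJ_le)

lemma gz_bd (R : ℕ → ℕ → Prop) (y z n : ℕ) : 0 ≤ gz R y z n ∧ gz R y z n ≤ 1 := by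
  unfold gz
  have h1 := ro_nonneg R y n
  have h2 := ro_le_one R y n
  split_ifs
  · constructor <;> linarith
  · constructor <;> linarith

lemma ro_one {R : ℕ → ℕ → Prop} {y n : ℕ} (h : ∀ p ∈ ps y, ¬ R p n) : ro R y n = 1 := by
  unfold ro; rw [if_pos h]

lemma ro_zero {R : ℕ → ℕ → Prop} {y n : ℕ} (h : ¬ ∀ p ∈ ps y, ¬ R p n) : ro R y n = 0 := by
  unfold ro; rw [if_neg h]

lemma gz_one {R : ℕ → ℕ → Prop} {y z n : ℕ} (h : ∀ p ∈ ps y, ¬ R p n) (h' : ∀ p ∈ pb y z, ¬ R p n) :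
    gz R y z n = 1 := by
  unfold gz; rw [ro_one h, if_pos h', one_mul]

lemma gz_zero {R : ℕ → ℕ → Prop} {y z n : ℕ} (h : ¬ ∀ p ∈ ps y, ¬ R p n) : gz R y z n = 0 := by
  unfold gz; rw [ro_zero h, zero_mul]

lemma gz_zero' {R : ℕ → ℕ → Prop} {y z n : ℕ} (h : ¬ ∀ p ∈ pb y z, ¬ R p n) : gz R y z n = 0 := by
  unfold gz; rw [if_neg h, mul_zero]

lemma WW_nonneg (R : ℕ → ℕ → Prop) (y z : ℕ) : 0 ≤ WW R y z := prod_nonneg fun p _ => fac_nonneg R p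

lemma WW_le_one (R : ℕ → ℕ → Prop) (y z : ℕ) : WW R y z ≤ 1 :=
  prod_le_one (fun p _ => fac_nonneg R p) (fun p _ => fac_le_one R p)

lemma ps_union {y z : ℕ} (h : y ≤ z) : ps z = ps y ∪ pb y z := by
  ext p
  rw [mem_union, mem_ps, mem_ps, mem_pb]
  constructor
  · rintro ⟨h1, h2⟩
    rcases Nat.lt_or_ge y p with h3 | h3
    · exact Or.inr ⟨h1, h3, h2⟩
    · exact Or.inl ⟨h1, h3⟩
  · rintro (⟨h1, h2⟩ | ⟨h1, h2, h3⟩)
    · exact ⟨h1, h2.trans h⟩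
    · exact ⟨h1, h3⟩

lemma VV_split {y z : ℕ} (h : y ≤ z) (Q : ℕ → ℕ → Prop) : VV Q z = VV Q y * WW Q y z := by
  unfold VV WW
  rw [ps_union h, prod_union]
  rw [disjoint_left]
  intro p h1 h2
  have := (mem_ps.1 h1).2
  have := (mem_pb.1 h2).2.1
  omega

section
variable {ι : Type} [DecidableEq ι] (R : ι → ℕ → ℕ → Prop)

open Classical in
lemma sum_rough (g : ι → ℕ → ℝ) (H : Finset ι) (y N : ℕ) :
    ∑ n ∈ Icc 1 N, WH (fun _ => (1 : ℝ)) g (fun a => ro (R a) y) H ∅ n = (sft (QR R H) y N : ℝ) := by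
  have h : ∀ n ∈ Icc 1 N, WH (fun _ => (1 : ℝ)) g (fun a => ro (R a) y) H ∅ n =
      if ∀ p ∈ ps y, ¬ QR R H p n then (1 : ℝ) else 0 := by
    intro n _
    unfold WH
    rw [prod_empty, one_mul, one_mul, sdiff_empty]
    by_cases h2 : ∀ p ∈ ps y, ¬ QR R H p n
    · rw [if_pos h2]
      exact prod_eq_one fun a ha => ro_one (fun p hp h3 => h2 p hp ⟨a, ha, h3⟩)
    · rw [if_neg h2]
      push Not at h2
      obtain ⟨p, hp, a, ha, h3⟩ := h2
      exact prod_eq_zero ha (ro_zero (fun h4 => h4 p hp h3))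
  rw [sum_congr rfl h, ← sum_filter, sum_const, nsmul_eq_mul, mul_one]
  rfl

open Classical in
lemma sum_full {y z : ℕ} (hyz : y ≤ z) (H : Finset ι) (N : ℕ) :
    ∑ n ∈ Icc 1 N, WH (fun _ => (1 : ℝ)) (fun a => gz (R a) y z) (fun a => ro (R a) y) H H n =
      (sft (QR R H) z N : ℝ) := by
  have h : ∀ n ∈ Icc 1 N, WH (fun _ => (1 : ℝ)) (fun a => gz (R a) y z) (fun a => ro (R a) y) H H n =
      if ∀ p ∈ ps z, ¬ QR R H p n then (1 : ℝ) else 0 := by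
    intro n _
    unfold WH
    rw [Finset.sdiff_self, prod_empty, mul_one, one_mul]
    by_cases h2 : ∀ p ∈ ps z, ¬ QR R H p n
    · rw [if_pos h2]
      rw [ps_union hyz] at h2
      exact prod_eq_one fun a ha => gz_one (fun p hp h3 => h2 p (mem_union_left _ hp) ⟨a, ha, h3⟩)
        (fun p hp h3 => h2 p (mem_union_right _ hp) ⟨a, ha, h3⟩)
    · rw [if_neg h2]
      push Not at h2
      obtain ⟨p, hp, a, ha, h3⟩ := h2
      rw [ps_union hyz, mem_union] at hp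
      rcases hp with hp | hp
      · exact prod_eq_zero ha (gz_zero (fun h4 => h4 p hp h3))
      · exact prod_eq_zero ha (gz_zero' (fun h4 => h4 p hp h3))
  rw [sum_congr rfl h, ← sum_filter, sum_const, nsmul_eq_mul, mul_one]
  rfl

end

/-- the final computation, lower bound -/
lemma calc_lower {j : ℕ} {ε' t n V U W S P x e : ℝ} (hε0 : 0 < ε') (hε1 : ε' ≤ 1 / 3) (hn : 0 ≤ n) (hV : 0 ≤ V)
    (he : 0 ≤ e) (hU0 : 0 ≤ U) (hU1 : U ≤ 1) (hVy : (1 - t) * V ≤ U * W) (ht : t ≤ ε' / 2)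
    (hS : n * W - e ≤ S) (hP : (1 - ε') ^ (j + 1) * U * S - x ≤ P)
    (hbig : e + x ≤ (1 - ε') ^ (j + 1) * (ε' / 2) * (n * V)) :
    (1 - 3 * ε') ^ (j + 1) * (n * V) ≤ P := by
  have a0 : 0 ≤ 1 - ε' := by linarith
  have a1 : 0 ≤ (1 - ε') ^ (j + 1) := pow_nonneg a0 _
  have a2 : (1 - ε') ^ (j + 1) ≤ 1 := pow_le_one₀ a0 (by linarith)
  have hnV : 0 ≤ n * V := mul_nonneg hn hV
  have b1 : (1 - ε') ^ (j + 1) * U * (n * W - e) ≤ (1 - ε') ^ (j + 1) * U * S :=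
    mul_le_mul_of_nonneg_left hS (mul_nonneg a1 hU0)
  have b2 : (1 - ε') ^ (j + 1) * U * e ≤ e := by
    have : (1 - ε') ^ (j + 1) * U ≤ 1 := mul_le_one₀ a2 hU0 hU1
    calc _ ≤ 1 * e := mul_le_mul_of_nonneg_right this he
      _ = e := one_mul _
  have b3 : (1 - ε') ^ (j + 1) * ((1 - t) * (n * V)) ≤ (1 - ε') ^ (j + 1) * U * (n * W) := by
    have : (1 - t) * (n * V) ≤ U * (n * W) := by
      calc (1 - t) * (n * V) = n * ((1 - t) * V) := by ring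
        _ ≤ n * (U * W) := mul_le_mul_of_nonneg_left hVy hn
        _ = _ := by ring
    calc _ ≤ (1 - ε') ^ (j + 1) * (U * (n * W)) := mul_le_mul_of_nonneg_left this a1
      _ = _ := by ring
  have b4 : (1 - ε') ^ (j + 1) * ((1 - ε' / 2) * (n * V)) ≤ (1 - ε') ^ (j + 1) * ((1 - t) * (n * V)) :=
    mul_le_mul_of_nonneg_left (mul_le_mul_of_nonneg_right (by linarith) hnV) a1
  have b5 : (1 - 3 * ε') ^ (j + 1) ≤ (1 - ε') ^ (j + 1) * (1 - ε') := by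
    have c1 : (1 - 3 * ε') ^ (j + 1) ≤ ((1 - ε') ^ 2) ^ (j + 1) := by
      apply pow_le_pow_left₀ (by linarith)
      nlinarith
    have c2 : ((1 - ε') ^ 2) ^ (j + 1) = (1 - ε') ^ (j + 1) * (1 - ε') ^ (j + 1) := by
      rw [← pow_mul, ← pow_add]
      congr 1
      ring
    have c3 : (1 - ε') ^ (j + 1) ≤ 1 - ε' := by
      calc (1 - ε') ^ (j + 1) ≤ (1 - ε') ^ 1 := pow_le_pow_of_le_one a0 (by linarith) (by omega)
        _ = _ := pow_one _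
    calc _ ≤ _ := c1
      _ = _ := c2
      _ ≤ _ := mul_le_mul_of_nonneg_left c3 a1
  have b6 := mul_le_mul_of_nonneg_right b5 hnV
  have b7 : (1 - ε') ^ (j + 1) * ((1 - ε' / 2) * (n * V)) - (1 - ε') ^ (j + 1) * (ε' / 2) * (n * V) =
    (1 - ε') ^ (j + 1) * (1 - ε') * (n * V) := by ring
  linarith

/-- the final computation, upper bound -/
lemma calc_upper {j : ℕ} {ε' t n V U W S P x e : ℝ} (hε0 : 0 < ε') (hε1 : ε' ≤ 1 / 3) (hn : 0 ≤ n) (hV : 0 ≤ V)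
    (he : 0 ≤ e) (hU0 : 0 ≤ U) (hU1 : U ≤ 1) (hVy : U * W ≤ Real.exp t * V) (ht : Real.exp t ≤ 1 + ε' / 2)
    (hS : S ≤ n * W + e) (hP : P ≤ (1 + ε') ^ (j + 1) * U * S + x)
    (hbig : 2 ^ (j + 1) * e + x ≤ (ε' / 2) * (n * V)) :
    P ≤ (1 + 3 * ε') ^ (j + 1) * (n * V) := by
  have a0 : 0 ≤ 1 + ε' := by linarith
  have a1 : 0 ≤ (1 + ε') ^ (j + 1) := pow_nonneg a0 _
  have a2 : 1 ≤ (1 + ε') ^ (j + 1) := one_le_pow₀ (by linarith)
  have a3 : (1 + ε') ^ (j + 1) ≤ 2 ^ (j + 1) := pow_le_pow_left₀ a0 (by linarith) _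
  have hnV : 0 ≤ n * V := mul_nonneg hn hV
  have b1 : (1 + ε') ^ (j + 1) * U * S ≤ (1 + ε') ^ (j + 1) * U * (n * W + e) :=
    mul_le_mul_of_nonneg_left hS (mul_nonneg a1 hU0)
  have b2 : (1 + ε') ^ (j + 1) * U * e ≤ 2 ^ (j + 1) * e := by
    have : (1 + ε') ^ (j + 1) * U ≤ 2 ^ (j + 1) * 1 := mul_le_mul a3 hU1 hU0 (by positivity)
    rw [mul_one] at this
    exact mul_le_mul_of_nonneg_right this he
  have b3 : (1 + ε') ^ (j + 1) * U * (n * W) ≤ (1 + ε') ^ (j + 1) * ((1 + ε' / 2) * (n * V)) := by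
    have : U * (n * W) ≤ (1 + ε' / 2) * (n * V) := by
      calc U * (n * W) = n * (U * W) := by ring
        _ ≤ n * (Real.exp t * V) := mul_le_mul_of_nonneg_left hVy hn
        _ = Real.exp t * (n * V) := by ring
        _ ≤ _ := mul_le_mul_of_nonneg_right ht hnV
    calc _ = (1 + ε') ^ (j + 1) * (U * (n * W)) := by ring
      _ ≤ _ := mul_le_mul_of_nonneg_left this a1
  have b5 : (1 + ε') ^ (j + 1) * (1 + ε') ≤ (1 + 3 * ε') ^ (j + 1) := by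
    have c1 : ((1 + ε') ^ 2) ^ (j + 1) ≤ (1 + 3 * ε') ^ (j + 1) := by
      apply pow_le_pow_left₀ (by positivity)
      nlinarith
    have c2 : ((1 + ε') ^ 2) ^ (j + 1) = (1 + ε') ^ (j + 1) * (1 + ε') ^ (j + 1) := by
      rw [← pow_mul, ← pow_add]
      congr 1
      ring
    have c3 : 1 + ε' ≤ (1 + ε') ^ (j + 1) := by
      calc 1 + ε' = (1 + ε') ^ 1 := (pow_one _).symm
        _ ≤ _ := pow_le_pow_right₀ (by linarith) (by omega)
    calc _ ≤ (1 + ε') ^ (j + 1) * (1 + ε') ^ (j + 1) := mul_le_mul_of_nonneg_left c3 a1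
      _ = _ := c2.symm
      _ ≤ _ := c1
  have b6 := mul_le_mul_of_nonneg_right b5 hnV
  have b8 : (ε' / 2) * (n * V) ≤ (1 + ε') ^ (j + 1) * ((ε' / 2) * (n * V)) :=
    le_mul_of_one_le_left (by positivity) a2
  have b7 : (1 + ε') ^ (j + 1) * ((1 + ε' / 2) * (n * V)) + (1 + ε') ^ (j + 1) * ((ε' / 2) * (n * V)) =
    (1 + ε') ^ (j + 1) * (1 + ε') * (n * V) := by ring
  linarith

end Pool.Agent.Y822.G
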