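import Mathlib
import Pool.Agent.Y822.G.Fin

/-! The fundamental lemma of the sieve for almost all systems: the main theorem. -/

set_option autoImplicit false

namespace Pool.Agent.Y822.G

open Finset Filter
open Pool.Agent.Y822 (ev_logN ev_pow_exp)
open Pool.Agent.Y822.F (WH WH_bd Good few_bad)
open Pool.Agent.W41 (JJ JJ_lt JJ_le)

/-- the constants of the sieve for a single member -/
lemma consts (C0 : ℕ) (hC0 : 1 ≤ C0) (ε' : ℝ) (hε' : 0 < ε') : ∃ b : ℕ, C0 ≤ b ∧ 1 ≤ b ∧ (1 / 2 : ℝ) ^ b ≤ ε' := by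
  obtain ⟨n, hn⟩ := exists_pow_lt_of_lt_one hε' (by norm_num : (1 / 2 : ℝ) < 1)
  refine ⟨max n C0, le_max_right _ _, hC0.trans (le_max_right _ _), ?_⟩
  exact (pow_le_pow_of_le_one (by norm_num) (by norm_num) (le_max_left _ _)).trans hn.le

/-- the level -/
lemma level {C0 b N : ℕ} {δ : ℝ} (hδ : 0 < δ) (hC : δ * (8 * C0 * b) = 1) (hN : 1 ≤ N)
    (hz : 2 ≤ ⌊(N : ℝ) ^ δ⌋₊) :
    (((2 ^ 2 ^ JJ ⌊(N : ℝ) ^ δ⌋₊) ^ (C0 * b) : ℕ) : ℝ) ^ 4 ≤ N := by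
  set z := ⌊(N : ℝ) ^ δ⌋₊ with hzd
  have hN0 : (0 : ℝ) < N := by exact_mod_cast hN
  have h1 : (z : ℝ) ≤ (N : ℝ) ^ δ := Nat.floor_le (by positivity)
  have h2 : ((2 ^ 2 ^ JJ z : ℕ) : ℝ) ≤ (z : ℝ) ^ 2 := by exact_mod_cast JJ_le z hz
  calc (((2 ^ 2 ^ JJ z) ^ (C0 * b) : ℕ) : ℝ) ^ 4 = (((2 ^ 2 ^ JJ z : ℕ) : ℝ)) ^ (C0 * b * 4) := by
        push_cast
        rw [← pow_mul]
    _ ≤ ((z : ℝ) ^ 2) ^ (C0 * b * 4) := pow_le_pow_left₀ (Nat.cast_nonneg _) h2 _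
    _ = (z : ℝ) ^ (8 * C0 * b) := by rw [← pow_mul]; congr 1; ring
    _ ≤ ((N : ℝ) ^ δ) ^ (8 * C0 * b) := pow_le_pow_left₀ (Nat.cast_nonneg _) h1 _
    _ = N := by
      rw [← Real.rpow_natCast, ← Real.rpow_mul hN0.le]
      push_cast
      rw [hC, Real.rpow_one]

/-- the number of dyadic steps -/
lemma JJ_bd {N z : ℕ} (hN : 3 ≤ N) (hzN : z ≤ N) (hz : 2 ≤ z) : ((JJ z : ℕ) : ℝ) + 2 ≤ 4 * Real.log N := by
  have hL : 1 ≤ Real.log N := by
    rw [Real.le_log_iff_exp_le (by positivity)]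
    have := Real.exp_one_lt_d9
    have h3 : (3 : ℝ) ≤ N := by exact_mod_cast hN
    linarith
  have h1 : 2 ^ 2 ^ JJ z ≤ N ^ 2 := (JJ_le z hz).trans (Nat.pow_le_pow_left hzN 2)
  have h2 : ((2 ^ 2 ^ JJ z : ℕ) : ℝ) ≤ ((N ^ 2 : ℕ) : ℝ) := by exact_mod_cast h1
  have h3 := Real.log_le_log (by positivity) h2
  push_cast at h3
  rw [Real.log_pow, Real.log_pow] at h3
  push_cast at h3
  have h4 : JJ z + 1 ≤ 2 ^ JJ z := Nat.lt_two_pow_self
  have h5 : ((JJ z : ℕ) : ℝ) + 1 ≤ 2 ^ JJ z := by exact_mod_cast h4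
  have h6 := Real.log_two_gt_d9
  have h7 : (((JJ z : ℕ) : ℝ) + 1) * Real.log 2 ≤ 2 * Real.log N :=
    (mul_le_mul_of_nonneg_right h5 (by linarith)).trans h3
  have h8 : (((JJ z : ℕ) : ℝ) + 1) * 0.693 ≤ 2 * Real.log N :=
    (mul_le_mul_of_nonneg_left (by linarith) (by positivity)).trans h7
  linarith

/-- the bound for the exponent in the comparison of local densities -/
lemma t_bound {m K j w y : ℕ} {κ ℓ ε' : ℝ} (hκ : 0 < κ) (hℓ : 1 ≤ ℓ) (hj : (j : ℝ) ≤ ℓ)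
    (hw : (w : ℝ) ≤ 2 * K * ℓ / κ) (hy : Real.exp (2 * ℓ) ≤ y)
    (hC : (4 * m ^ 2 + 4 * m * K / κ) * ℓ ^ 4 ≤ Real.exp ℓ) (hε : Real.exp (-ℓ) ≤ ε' / 4) :
    (4 * ((m : ℝ) * j) ^ 2 + 2 * (m * j) * ((j * j * w : ℕ) : ℝ)) / y ≤ ε' / 4 := by
  have hℓ0 : 0 < ℓ := by linarith
  have hj0 : (0 : ℝ) ≤ j := Nat.cast_nonneg _
  have hy0 : (0 : ℝ) < y := lt_of_lt_of_le (Real.exp_pos _) hy
  have hm0 : (0 : ℝ) ≤ m := Nat.cast_nonneg _
  have h1 : 4 * ((m : ℝ) * j) ^ 2 ≤ 4 * m ^ 2 * ℓ ^ 4 := by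
    calc 4 * ((m : ℝ) * j) ^ 2 = 4 * m ^ 2 * j ^ 2 := by ring
      _ ≤ 4 * m ^ 2 * ℓ ^ 2 := by gcongr
      _ ≤ 4 * m ^ 2 * ℓ ^ 4 := by
        apply mul_le_mul_of_nonneg_left _ (by positivity)
        exact pow_le_pow_right₀ hℓ (by norm_num)
  have h2 : 2 * ((m : ℝ) * j) * ((j * j * w : ℕ) : ℝ) ≤ 4 * m * K / κ * ℓ ^ 4 := by
    push_cast
    calc 2 * ((m : ℝ) * j) * (j * j * w) ≤ 2 * (m * ℓ) * (ℓ * ℓ * (2 * K * ℓ / κ)) := by gcongr
      _ = _ := by ring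
  rw [div_le_iff₀ hy0]
  have h3 : (4 * (m : ℝ) ^ 2 + 4 * m * K / κ) * ℓ ^ 4 = 4 * m ^ 2 * ℓ ^ 4 + 4 * m * K / κ * ℓ ^ 4 := by ring
  have h4 : Real.exp ℓ ≤ ε' / 4 * y := by
    calc Real.exp ℓ = Real.exp (-ℓ) * Real.exp (2 * ℓ) := by rw [← Real.exp_add]; congr 1; ring
      _ ≤ ε' / 4 * y := mul_le_mul hε hy (Real.exp_pos _).le ((Real.exp_pos _).le.trans hε)
  linarith

lemma exp_t {t ε' : ℝ} (ht0 : 0 ≤ t) (ht4 : t ≤ ε' / 4) (hε1' : ε' ≤ 1 / 3) : Real.exp t ≤ 1 + ε' / 2 := by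
  have h1 : Real.exp t ≤ 1 + t + t ^ 2 := by
    have := Real.abs_exp_sub_one_sub_id_le (x := t) (by rw [abs_of_nonneg ht0]; linarith)
    have := (abs_le.1 this).2
    linarith
  nlinarith

lemma exp_one_le {ε' : ℝ} (hε1' : ε' ≤ 1 / 3) : Real.exp (-1) ≤ 1 - ε' := by
  rw [Real.exp_neg, inv_eq_one_div, div_le_iff₀ (Real.exp_pos _)]
  have := Real.exp_one_gt_d9
  nlinarith

lemma six_le : (6 : ℝ) ≤ Real.exp 2 := by
  have h1 := Real.exp_one_gt_d9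
  have h2 : Real.exp 2 = Real.exp 1 * Real.exp 1 := by rw [← Real.exp_add]; norm_num
  rw [h2]
  nlinarith

lemma two_three {k : ℕ} {ℓ : ℝ} (hkℓ : ((k + 1 : ℕ) : ℝ) ≤ ℓ) : (2 : ℝ) ^ (k + 1) + 3 ^ (k + 1) ≤ Real.exp (2 * ℓ) := by
  have a1 : (2 : ℝ) ^ (k + 1) ≤ 3 ^ (k + 1) := pow_le_pow_left₀ (by norm_num) (by norm_num) _
  have a2 : (2 : ℝ) * 3 ^ (k + 1) ≤ 2 ^ (k + 1) * 3 ^ (k + 1) := by
    apply mul_le_mul_of_nonneg_right _ (by positivity)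
    calc (2 : ℝ) = 2 ^ 1 := by norm_num
      _ ≤ 2 ^ (k + 1) := pow_le_pow_right₀ (by norm_num) (by omega)
  have a3 : (2 : ℝ) ^ (k + 1) * 3 ^ (k + 1) = 6 ^ (k + 1) := by rw [← mul_pow]; norm_num
  have a4 : (6 : ℝ) ^ (k + 1) ≤ Real.exp 2 ^ (k + 1) := pow_le_pow_left₀ (by norm_num) six_le _
  have a5 : Real.exp 2 ^ (k + 1) = Real.exp (2 * ((k + 1 : ℕ) : ℝ)) := by
    rw [← Real.exp_nat_mul]
    congr 1
    ring
  have a6 : Real.exp (2 * ((k + 1 : ℕ) : ℝ)) ≤ Real.exp (2 * ℓ) := Real.exp_le_exp.2 (by linarith)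
  linarith

lemma exp_four {ℓ C U : ℝ} (hU : C + 4 ≤ U) (hℓ : 0 ≤ ℓ) :
    Real.exp (-(U * ℓ)) ≤ Real.exp (-(C * ℓ)) * Real.exp (-(4 * ℓ)) := by
  rw [← Real.exp_add]
  apply Real.exp_le_exp.2
  have := mul_le_mul_of_nonneg_right hU hℓ
  linarith

open Classical in
/-- **the fundamental lemma for almost all systems** -/
theorem fin (m K : ℕ) (hm : 1 ≤ m) (ε : ℝ) (hε : 0 < ε) (hε1 : ε ≤ 1) : ∃ δ : ℝ, 0 < δ ∧ δ ≤ 1 / 8 ∧
    ∃ c₁ : ℝ, 0 < c₁ ∧ ∃ B N₀ : ℕ, ∀ N : ℕ, N₀ ≤ N → ∀ k : ℕ,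
    (((k + 1 : ℕ) : ℝ) * Real.log (Real.log N)) ^ 2 ≤ c₁ * Real.log N →
    ∀ (ι : Type) (R : ι → ℕ → ℕ → Prop) (A : Finset ι), Fam m K N R A →
    ∀ Bad : Finset (Finset ι), (∀ H ∈ Bad, H ∈ A.powersetCard (k + 1) ∧
      (∀ p : ℕ, p.Prime → rho (QR R H) p < p) ∧
      ¬ ((1 - ε) ^ (k + 1) * (N * VV (QR R H) ⌊(N : ℝ) ^ δ⌋₊) ≤ sft (QR R H) ⌊(N : ℝ) ^ δ⌋₊ N ∧
        (sft (QR R H) ⌊(N : ℝ) ^ δ⌋₊ N : ℝ) ≤ (1 + ε) ^ (k + 1) * (N * VV (QR R H) ⌊(N : ℝ) ^ δ⌋₊))) →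
    (Bad.card : ℝ) ≤ A.card.choose k * Real.log N ^ (B * (k + 1)) := by
  obtain ⟨ε', hε'⟩ : ∃ ε' : ℝ, ε' = ε / 3 := ⟨_, rfl⟩
  have hε0' : 0 < ε' := by rw [hε']; positivity
  have hε1' : ε' ≤ 1 / 3 := by rw [hε']; linarith
  have hεε : 3 * ε' = ε := by rw [hε']; ring
  obtain ⟨C0, hC0, STEP⟩ := step m
  obtain ⟨b, hb1, hb2, hb3⟩ := consts C0 hC0 ε' hε0'
  have hC0r : (1 : ℝ) ≤ C0 := by exact_mod_cast hC0
  have hbr : (1 : ℝ) ≤ b := by exact_mod_cast hb2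
  obtain ⟨δ, hδd⟩ : ∃ δ : ℝ, δ = 1 / (8 * C0 * b) := ⟨_, rfl⟩
  have hδ : 0 < δ := by rw [hδd]; positivity
  have hδC : δ * (8 * C0 * b) = 1 := by rw [hδd]; field_simp
  have hδ8 : δ ≤ 1 / 8 := by
    rw [hδd, div_le_div_iff₀ (by positivity) (by norm_num)]
    have : (1 : ℝ) ≤ C0 * b := one_le_mul_of_one_le_of_one_le hC0r hbr
    linarith
  have hδ1 : δ ≤ 1 := by linarith
  obtain ⟨Cp, hCp, Np, PLOW⟩ := Pool.Agent.Y388.GL.plow m hm
  obtain ⟨U, hU⟩ : ∃ U : ℕ, U = ⌈Cp⌉₊ + 4 := ⟨_, rfl⟩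
  have hUr : Cp + 4 ≤ U := by
    rw [hU]
    push_cast
    have := Nat.le_ceil Cp
    linarith
  obtain ⟨κb, hκb, Nb, BRUN⟩ := Pool.Agent.Y388.GL.brun m U hm
  obtain ⟨κf, hκf, FEW⟩ := few_par m K (U + 2)
  obtain ⟨κ, hκd⟩ : ∃ κ : ℝ, κ = min 1 (min κb κf) := ⟨_, rfl⟩
  have hκ : 0 < κ := by rw [hκd]; exact lt_min zero_lt_one (lt_min hκb hκf)
  have hκ1 : κ ≤ 1 := by rw [hκd]; exact min_le_left _ _
  have hκκb : κ ≤ κb := by rw [hκd]; exact (min_le_right _ _).trans (min_le_left _ _)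
  have hκκf : κ ≤ κf := by rw [hκd]; exact (min_le_right _ _).trans (min_le_right _ _)
  obtain ⟨cf, hcf, C, Nf, FEW⟩ := FEW κ hκ hκκf
  obtain ⟨c₁, hc₁⟩ : ∃ c₁ : ℝ, c₁ = min cf (min (κ / 4) κb) := ⟨_, rfl⟩
  have hc₁0 : 0 < c₁ := by rw [hc₁]; exact lt_min hcf (lt_min (by positivity) hκb)
  have hc₁f : c₁ ≤ cf := by rw [hc₁]; exact min_le_left _ _
  have hc₁κ : 4 * c₁ ≤ κ := by
    have : c₁ ≤ κ / 4 := by rw [hc₁]; exact (min_le_right _ _).trans (min_le_left _ _)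
    linarith
  have hc₁b : c₁ ≤ κb := by rw [hc₁]; exact (min_le_right _ _).trans (min_le_right _ _)
  -- large `N`
  have ell := fun {P : ℝ → Prop} (h : ∀ᶠ x in atTop, P x) => ev_logN (Real.tendsto_log_atTop.eventually h)
  obtain ⟨Mc, hMc⟩ := eventually_atTop.1 ((ev_pow_exp 4 1 (4 * m ^ 2 + 4 * m * K / κ) one_pos).and
    ((ev_pow_exp 1 1 (4 * m) one_pos).and (ev_pow_exp 0 1 (4 / ε') one_pos)))
  obtain ⟨N1, hN1⟩ := eventually_atTop.1 ((ell (eventually_ge_atTop (max (max 4 Mc) (max (C0 : ℝ) (1 / δ))))).and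
    (ev_logN (eventually_ge_atTop (max 1 (1 / δ)))))
  refine ⟨δ, hδ, hδ8, c₁, hc₁0, C + 1, max (max (max Np Nb) (max Nf N1)) 3, ?_⟩
  intro N hN k hk ι R A hF Bad hBad
  have hNp : Np ≤ N := (((le_max_left _ _).trans (le_max_left _ _)).trans (le_max_left _ _)).trans hN
  have hNb : Nb ≤ N := (((le_max_right _ _).trans (le_max_left _ _)).trans (le_max_left _ _)).trans hN
  have hNf : Nf ≤ N := (((le_max_left _ _).trans (le_max_right _ _)).trans (le_max_left _ _)).trans hN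
  have hNN1 : N1 ≤ N := (((le_max_right _ _).trans (le_max_right _ _)).trans (le_max_left _ _)).trans hN
  have hN3 : 3 ≤ N := (le_max_right _ _).trans hN
  obtain ⟨f1, f2⟩ := hN1 N hNN1
  set L := Real.log N with hLd
  have hL1 : 1 ≤ L := (le_max_left _ _).trans f2
  have hLδ : 1 / δ ≤ L := (le_max_right _ _).trans f2
  have hL0 : 0 < L := by linarith
  have hN0 : (0 : ℝ) < N := by positivity
  have hNe : (N : ℝ) = Real.exp L := by rw [hLd, Real.exp_log hN0]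
  set l := Real.log L with hl
  have hl4 : 4 ≤ l := ((le_max_left _ _).trans (le_max_left _ _)).trans f1
  have hlM : Mc ≤ l := ((le_max_right _ _).trans (le_max_left _ _)).trans f1
  have hlC : (C0 : ℝ) ≤ l := ((le_max_left _ _).trans (le_max_right _ _)).trans f1
  have hlδ : 1 / δ ≤ l := ((le_max_right _ _).trans (le_max_right _ _)).trans f1
  obtain ⟨ℓ, hℓd⟩ : ∃ ℓ : ℝ, ℓ = ((k + 1 : ℕ) : ℝ) * l := ⟨_, rfl⟩
  have hk1 : (1 : ℝ) ≤ ((k + 1 : ℕ) : ℝ) := by exact_mod_cast (by omega : 1 ≤ k + 1)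
  have hlℓ : l ≤ ℓ := by
    rw [hℓd]
    exact le_mul_of_one_le_left (by linarith) hk1
  have hkℓ : ((k + 1 : ℕ) : ℝ) ≤ ℓ := by
    rw [hℓd]
    exact le_mul_of_one_le_right (by linarith) (by linarith)
  have hℓ4 : 4 ≤ ℓ := hl4.trans hlℓ
  have hℓ0 : 0 < ℓ := by linarith
  have hℓ2 : ℓ ^ 2 ≤ c₁ * L := by rw [hℓd]; exact hk
  have hℓL : ℓ ≤ κb * L := by
    have h1 : ℓ * 1 ≤ ℓ * ℓ := mul_le_mul_of_nonneg_left (by linarith) hℓ0.le
    have h2 : ℓ ^ 2 = ℓ * ℓ := sq ℓ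
    have h3 : c₁ * L ≤ κb * L := mul_le_mul_of_nonneg_right hc₁b hL0.le
    linarith
  obtain ⟨g1, g2, g3⟩ := hMc ℓ (hlM.trans hlℓ)
  rw [one_mul] at g1 g2 g3
  rw [pow_one] at g2
  rw [pow_zero, mul_one] at g3
  have hexpε : Real.exp (-ℓ) ≤ ε' / 4 := by
    rw [Real.exp_neg, inv_eq_one_div, div_le_iff₀ (Real.exp_pos _)]
    rw [div_le_iff₀ hε0'] at g3
    linarith
  -- the sifting limits
  set y := yl κ ℓ N with hy
  obtain ⟨z, hzd⟩ : ∃ z : ℕ, z = ⌊(N : ℝ) ^ δ⌋₊ := ⟨_, rfl⟩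
  rw [← hzd] at hBad
  obtain ⟨hy1, -⟩ := yl_large (N := N) hκ (by linarith : 1 ≤ ℓ) hc₁κ hL0 hℓ2
  have hyr : (0 : ℝ) < y := lt_of_lt_of_le (Real.exp_pos _) hy1
  have hyC0 : C0 ≤ y := by
    have h1 := Real.add_one_le_exp (2 * ℓ)
    have h2 : (C0 : ℝ) ≤ y := by linarith
    exact_mod_cast h2
  have hy1' : 1 ≤ y := by exact_mod_cast hyr
  have hNδ : (N : ℝ) ^ δ = Real.exp (δ * L) := by
    rw [Real.rpow_def_of_pos hN0, ← hLd, mul_comm]
  have hδL : 1 ≤ δ * L := by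
    rw [div_le_iff₀ hδ] at hLδ
    linarith
  have hδℓ : 1 ≤ δ * ℓ := by
    have : 1 / δ ≤ ℓ := hlδ.trans hlℓ
    rw [div_le_iff₀ hδ] at this
    linarith
  have hyz : y ≤ z := by
    rw [hzd]
    apply Nat.le_floor
    rw [hNδ]
    refine (yl_le κ ℓ N).trans (Real.exp_le_exp.2 ?_)
    rw [div_le_iff₀ hℓ0]
    have h1 : κ * Real.log N ≤ 1 * L := mul_le_mul_of_nonneg_right hκ1 hL0.le
    have h2 : 1 * L ≤ δ * ℓ * L := mul_le_mul_of_nonneg_right hδℓ hL0.le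
    have h3 : δ * L * ℓ = δ * ℓ * L := by ring
    linarith
  have hz2 : 2 ≤ z := by
    rw [hzd]
    apply Nat.le_floor
    rw [hNδ]
    have h1 := Real.add_one_le_exp (δ * L)
    push_cast
    linarith
  have hzN : z ≤ N := by
    have h1 : (z : ℝ) ≤ (N : ℝ) ^ δ := by rw [hzd]; exact Nat.floor_le (by positivity)
    have h2 : (N : ℝ) ^ δ ≤ N := by
      rw [hNδ]
      calc Real.exp (δ * L) ≤ Real.exp L := Real.exp_le_exp.2 (by
            have := mul_le_mul_of_nonneg_right hδ1 hL0.le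
            linarith)
        _ = N := hNe.symm
    exact_mod_cast h1.trans h2
  obtain ⟨D, hDd⟩ : ∃ D : ℕ, D = (2 ^ 2 ^ JJ z) ^ (C0 * b) := ⟨_, rfl⟩
  have hD4 : (D : ℝ) ^ 4 ≤ N := by
    rw [hDd, hzd]
    exact level hδ hδC (by omega) (by rw [← hzd]; exact hz2)
  have hJ := JJ_bd hN3 hzN hz2
  -- the threshold
  obtain ⟨x, hxd⟩ : ∃ x : ℝ, x = N * Real.exp (-(U * ℓ)) := ⟨_, rfl⟩
  have hx0 : 0 ≤ x := by rw [hxd]; positivity
  obtain ⟨Z, hZd⟩ : ∃ Z : (ℕ → ℝ) → ι → ℝ, Z = fun f a => 4 * L * LD (R a) y z D N f := ⟨_, rfl⟩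
  have hfew : ∀ f : ℕ → ℝ, (∀ n, |f n| ≤ 1) → ∀ S : Finset ι, (∀ a ∈ S, a ∈ A ∧ x < Z f a) →
      (S.card : ℝ) ≤ Real.exp (C * ℓ) := by
    intro f hf S hS
    refine FEW N hNf ℓ hlℓ (hℓ2.trans (mul_le_mul_of_nonneg_right hc₁f hL0.le)) z D hzN hD4 ι R A hF f hf S
      (fun a ha => ⟨(hS a ha).1, ?_⟩)
    have h1 := (hS a ha).2
    rw [hZd] at h1
    simp only at h1
    have h2 : 4 * L ≤ Real.exp (2 * ℓ) := by
      have e1 : L ≤ Real.exp ℓ := by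
        rw [← Real.log_le_iff_le_exp hL0]
        exact hlℓ
      have e2 : (4 : ℝ) ≤ Real.exp ℓ := by
        have := Real.add_one_le_exp ℓ
        linarith
      have e3 : Real.exp (2 * ℓ) = Real.exp ℓ * Real.exp ℓ := by rw [← Real.exp_add]; congr 1; ring
      rw [e3]
      exact mul_le_mul e2 e1 hL0.le (Real.exp_pos _).le
    have h3 : (N : ℝ) * Real.exp (-(((U + 2 : ℕ) : ℝ) * ℓ)) * Real.exp (2 * ℓ) = x := by
      rw [hxd, mul_assoc, ← Real.exp_add]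
      congr 2
      push_cast
      ring
    have h4 : 4 * L * LD (R a) y z D N f ≤ LD (R a) y z D N f * Real.exp (2 * ℓ) := by
      rw [mul_comm (LD (R a) y z D N f)]
      exact mul_le_mul_of_nonneg_right h2 (LD_nonneg _ _ _ _ _ _)
    exact lt_of_mul_lt_mul_right (by rw [h3]; linarith) (Real.exp_pos (2 * ℓ)).le
  have hg : ∀ (t : ι) n, 0 ≤ gz (R t) y z n ∧ gz (R t) y z n ≤ 1 := fun t n => gz_bd _ _ _ _
  have hr : ∀ (t : ι) n, 0 ≤ ro (R t) y n ∧ ro (R t) y n ≤ 1 := fun t n => ⟨ro_nonneg _ _ _, ro_le_one _ _ _⟩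
  -- bad systems are not good
  have hbad : ∀ H ∈ Bad, H ∈ A.powersetCard (k + 1) ∧
      ¬ Good (fun _ => (1 : ℝ)) (fun a => gz (R a) y z) (fun a => ro (R a) y) Z x H := by
    intro H hH
    obtain ⟨b1, b2, b3⟩ := hBad H hH
    refine ⟨b1, fun hgood => b3 ?_⟩
    rw [mem_powersetCard] at b1
    have hstep : ∀ f : ℕ → ℝ, (∀ n, 0 ≤ f n ∧ f n ≤ 1) → ∀ a ∈ H, Z f a ≤ x →
        |∑ n ∈ Icc 1 N, f n * gz (R a) y z n - WW (R a) y z * ∑ n ∈ Icc 1 N, f n * ro (R a) y n| ≤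
          ε' * (WW (R a) y z * ∑ n ∈ Icc 1 N, f n * ro (R a) y n) + x := by
      intro f hf a ha hZa
      have h1 := STEP b (JJ z) y z D N hb1 hyC0 (JJ_lt z).le (le_of_eq hDd.symm) (R a)
        (fun p hp => hF.rho a (b1.1 ha) p (mem_pb.1 hp).1) f (fun n => (hf n).1)
      have h2 : 0 ≤ WW (R a) y z * ∑ n ∈ Icc 1 N, f n * ro (R a) y n :=
        mul_nonneg (WW_nonneg _ _ _) (sum_nonneg fun n _ => mul_nonneg (hf n).1 (ro_nonneg _ _ _))
      have h3 := mul_le_mul_of_nonneg_right hb3 h2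
      have h4 : ((JJ z : ℕ) + 2 : ℝ) * LD (R a) y z D N f ≤ x := by
        refine le_trans ?_ hZa
        rw [hZd]
        exact mul_le_mul_of_nonneg_right hJ (LD_nonneg _ _ _ _ _ _)
      linarith
    have hlow := chain_lower (g := fun a => gz (R a) y z) (r := fun a => ro (R a) y) (Z := Z) (N := N) (x := x)
      (fun a => (1 - ε') * WW (R a) y z) hx0
      (fun a => mul_nonneg (by linarith) (WW_nonneg _ _ _))
      (fun a => mul_le_one₀ (by linarith) (WW_nonneg _ _ _) (WW_le_one _ _ _)) (H := H) hg hr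
      (fun f hf a ha hZa => by
        have := (abs_le.1 (hstep f hf a ha hZa)).1
        linarith) hgood H (subset_refl _)
    have hupp := chain_upper (g := fun a => gz (R a) y z) (r := fun a => ro (R a) y) (Z := Z) (N := N) (x := x)
      (fun a => (1 + ε') * WW (R a) y z) hx0
      (fun a => mul_nonneg (by linarith) (WW_nonneg _ _ _))
      (fun a => by
        have := mul_le_mul (by linarith : 1 + ε' ≤ 2) (WW_le_one (R a) y z) (WW_nonneg _ _ _) (by norm_num)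
        linarith) (H := H) hg hr
      (fun f hf a ha hZa => by
        have := (abs_le.1 (hstep f hf a ha hZa)).2
        linarith) hgood H (subset_refl _)
    rw [sum_rough R (fun a => gz (R a) y z) H y N, sum_full R hyz H N, b1.2, prod_mul_distrib, prod_const, b1.2]
      at hlow hupp
    -- the local densities
    have hρ : ∀ p : ℕ, p.Prime → rho (QR R H) p ≤ m * (k + 1) := by
      intro p hp
      calc rho (QR R H) p ≤ ∑ a ∈ H, rho (R a) p := Pool.Agent.Y77.GL.rho_QR_le R H p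
        _ ≤ ∑ _a ∈ H, m := sum_le_sum fun a ha => hF.rho a (b1.1 ha) p hp
        _ = m * (k + 1) := by rw [sum_const, b1.2, smul_eq_mul, mul_comm]
    have hkl : ((k + 1 : ℕ) : ℝ) * Real.log (Real.log N) ≤ ℓ := by rw [hℓd]
    have hperQ : Per (QR R H) := by
      intro p n
      unfold QR
      constructor
      · rintro ⟨a, ha, h⟩
        exact ⟨a, ha, (hF.per a (b1.1 ha) p n).1 h⟩
      · rintro ⟨a, ha, h⟩
        exact ⟨a, ha, (hF.per a (b1.1 ha) p n).2 h⟩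
    have hbrun := BRUN N hNb κ ℓ (k + 1) hκ hκκb (by omega) hkl hℓL y (yl_le κ ℓ N) (QR R H) hperQ hρ
    have hplow : Real.exp (-(Cp * ℓ)) ≤ VV (QR R H) z :=
      PLOW N hNp ℓ (k + 1) (by omega) hkl z hzN (rho (QR R H)) hρ b2
    obtain ⟨ok1, ok2⟩ := fam_ok (z := z) hF hκ (by linarith : 1 ≤ ℓ) hc₁κ hL0 hℓ2 (by omega)
    obtain ⟨ZZ, hZZ⟩ : ∃ ZZ : Finset ℕ, ZZ = (H ×ˢ H).biUnion (fun q => if q.1 = q.2 then ∅ else
      (pb y z).filter (fun p => ∃ n, R q.1 p n ∧ R q.2 p n)) := ⟨_, rfl⟩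
    have hZZc : ZZ.card ≤ (k + 1) * (k + 1) * wl K κ ℓ := by
      rw [hZZ]
      refine card_biUnion_le.trans ?_
      calc _ ≤ ∑ _q ∈ H ×ˢ H, wl K κ ℓ := by
            refine sum_le_sum fun q hq => ?_
            rw [mem_product] at hq
            split_ifs with h
            · simp
            · exact ok2 q.1 (b1.1 hq.1) q.2 (b1.1 hq.2) h
        _ = _ := by rw [sum_const, card_product, b1.2, smul_eq_mul]
    have h4m : 4 * (m * H.card) ≤ y := by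
      rw [b1.2]
      have h1 : ((4 * (m * (k + 1)) : ℕ) : ℝ) ≤ y := by
        have e1 : ((4 * (m * (k + 1)) : ℕ) : ℝ) = 4 * m * ((k + 1 : ℕ) : ℝ) := by push_cast; ring
        rw [e1]
        calc 4 * (m : ℝ) * ((k + 1 : ℕ) : ℝ) ≤ 4 * m * ℓ := mul_le_mul_of_nonneg_left hkℓ (by positivity)
          _ ≤ Real.exp ℓ := g2
          _ ≤ Real.exp (2 * ℓ) := Real.exp_le_exp.2 (by linarith)
          _ ≤ y := hy1
      exact_mod_cast h1
    have hloc := Pool.Agent.Y77.GL.loc ι R H m ((k + 1) * (k + 1) * wl K κ ℓ) y z ZZ hy1'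
      (fun a ha p hp => hF.rho a (b1.1 ha) p (mem_pb.1 hp).1) h4m hZZc (fun p hp hpZ a ha a' ha' hne n h1 h2 => by
        apply hpZ
        rw [hZZ, mem_biUnion]
        refine ⟨(a, a'), mem_product.2 ⟨ha, ha'⟩, ?_⟩
        simp only [if_neg hne]
        rw [mem_filter]
        exact ⟨hp, n, h1, h2⟩)
    rw [b1.2] at hloc
    obtain ⟨t, htd⟩ : ∃ t : ℝ, t = (4 * ((m : ℝ) * ((k + 1 : ℕ) : ℝ)) ^ 2 + 2 * (m * ((k + 1 : ℕ) : ℝ)) *
      (((k + 1) * (k + 1) * wl K κ ℓ : ℕ) : ℝ)) / y := ⟨_, rfl⟩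
    rw [← htd] at hloc
    have ht4 : t ≤ ε' / 4 := by
      rw [htd]
      exact t_bound (K := K) (κ := κ) hκ (by linarith) hkℓ (Nat.floor_le (by positivity)) hy1 g1 hexpε
    have ht0 : 0 ≤ t := by rw [htd]; positivity
    have hexpt : Real.exp t ≤ 1 + ε' / 2 := exp_t ht0 ht4 hε1'
    obtain ⟨Uu, hUu⟩ : ∃ Uu : ℝ, Uu = ∏ a ∈ H, WW (R a) y z := ⟨_, rfl⟩
    have hUu' : Uu = ∏ a ∈ H, ∏ p ∈ pb y z, (1 - (rho (R a) p : ℝ) / p) := hUu
    have hUu0 : 0 ≤ Uu := by rw [hUu]; exact prod_nonneg fun a _ => WW_nonneg _ _ _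
    have hUu1 : Uu ≤ 1 := by rw [hUu]; exact prod_le_one (fun a _ => WW_nonneg _ _ _) fun a _ => WW_le_one _ _ _
    rw [← hUu'] at hloc
    have hsplit : VV (QR R H) z = VV (QR R H) y * WW (QR R H) y z := VV_split hyz _
    have hVy := VV_nonneg (QR R H) y
    have hVz := VV_nonneg (QR R H) z
    have hWd : ∏ p ∈ pb y z, (1 - (rho (QR R H) p : ℝ) / p) = WW (QR R H) y z := rfl
    rw [hWd] at hloc
    have hk1' : ((k + 1 : ℕ) : ℝ) = (k : ℝ) + 1 := by push_cast; ring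
    have hexpℓ : ((k + 1 : ℕ) : ℝ) + 1 ≤ Real.exp ℓ := by
      have := Real.add_one_le_exp ℓ
      linarith
    have hNV : (N : ℝ) * Real.exp (-(Cp * ℓ)) ≤ N * VV (QR R H) z := mul_le_mul_of_nonneg_left hplow hN0.le
    have hUe : Real.exp (-(U * ℓ)) ≤ Real.exp (-(Cp * ℓ)) * Real.exp (-(4 * ℓ)) := exp_four hUr hℓ0.le
    have hxU : x ≤ N * Real.exp (-(Cp * ℓ)) * Real.exp (-(4 * ℓ)) := by
      rw [hxd, mul_assoc]
      exact mul_le_mul_of_nonneg_left hUe hN0.le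
    have hNC : 0 < (N : ℝ) * Real.exp (-(Cp * ℓ)) := by positivity
    have hbrun' : |(sft (QR R H) y N : ℝ) - N * VV (QR R H) y| ≤ x := by rw [hxd]; exact hbrun
    obtain ⟨hbl, hbu⟩ := abs_le.1 hbrun'
    constructor
    · have hbig : x + ((k + 1 : ℕ) : ℝ) * x ≤ (1 - ε') ^ (k + 1) * (ε' / 2) * (N * VV (QR R H) z) := by
        have e1 : Real.exp (-ℓ) ≤ (1 - ε') ^ (k + 1) := by
          calc Real.exp (-ℓ) ≤ Real.exp (-((k + 1 : ℕ) : ℝ)) := Real.exp_le_exp.2 (by linarith)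
            _ = Real.exp (-1) ^ (k + 1) := by rw [← Real.exp_nat_mul]; congr 1; ring
            _ ≤ (1 - ε') ^ (k + 1) := by
              exact pow_le_pow_left₀ (Real.exp_pos _).le (exp_one_le hε1') _
        have e2 : Real.exp (-ℓ) * Real.exp (-ℓ) * (N * Real.exp (-(Cp * ℓ))) ≤
            (1 - ε') ^ (k + 1) * (ε' / 2) * (N * VV (QR R H) z) := by
          apply mul_le_mul _ hNV (by positivity) (mul_nonneg (pow_nonneg (by linarith) _) (by linarith))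
          exact mul_le_mul e1 (by linarith) (Real.exp_pos _).le (pow_nonneg (by linarith) _)
        refine le_trans ?_ e2
        calc x + ((k + 1 : ℕ) : ℝ) * x = (((k + 1 : ℕ) : ℝ) + 1) * x := by ring
          _ ≤ Real.exp ℓ * (N * Real.exp (-(Cp * ℓ)) * Real.exp (-(4 * ℓ))) :=
              mul_le_mul hexpℓ hxU hx0 (Real.exp_pos _).le
          _ = Real.exp (-(3 * ℓ)) * (N * Real.exp (-(Cp * ℓ))) := by
              have : Real.exp ℓ * Real.exp (-(4 * ℓ)) = Real.exp (-(3 * ℓ)) := by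
                rw [← Real.exp_add]; congr 1; ring
              rw [← this]; ring
          _ ≤ Real.exp (-ℓ) * Real.exp (-ℓ) * (N * Real.exp (-(Cp * ℓ))) := by
              apply mul_le_mul_of_nonneg_right _ hNC.le
              rw [← Real.exp_add]
              exact Real.exp_le_exp.2 (by linarith)
      have hfin := calc_lower (j := k) (ε' := ε') (t := t) (n := (N : ℝ)) (V := VV (QR R H) z) (U := Uu)
        (W := VV (QR R H) y) (S := (sft (QR R H) y N : ℝ)) (P := (sft (QR R H) z N : ℝ))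
        (x := ((k + 1 : ℕ) : ℝ) * x) (e := x) hε0' hε1' hN0.le hVz hx0 hUu0 hUu1 (by
          rw [hsplit]
          calc (1 - t) * (VV (QR R H) y * WW (QR R H) y z) = VV (QR R H) y * ((1 - t) * WW (QR R H) y z) := by ring
            _ ≤ VV (QR R H) y * Uu := mul_le_mul_of_nonneg_left hloc.1 hVy
            _ = _ := mul_comm _ _) (by linarith) (by linarith) (by rw [hUu]; linarith) hbig
      rw [hεε] at hfin
      exact hfin
    · have hbig : 2 ^ (k + 1) * x + 3 ^ (k + 1) * x ≤ (ε' / 2) * (N * VV (QR R H) z) := by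
        have e0 : (2 : ℝ) ^ (k + 1) + 3 ^ (k + 1) ≤ Real.exp (2 * ℓ) := two_three hkℓ
        have e2 : Real.exp (-ℓ) * (N * Real.exp (-(Cp * ℓ))) ≤ (ε' / 2) * (N * VV (QR R H) z) :=
          mul_le_mul (by linarith) hNV (by positivity) (by positivity)
        refine le_trans ?_ e2
        calc 2 ^ (k + 1) * x + 3 ^ (k + 1) * x = (2 ^ (k + 1) + 3 ^ (k + 1)) * x := by ring
          _ ≤ Real.exp (2 * ℓ) * (N * Real.exp (-(Cp * ℓ)) * Real.exp (-(4 * ℓ))) :=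
              mul_le_mul e0 hxU hx0 (Real.exp_pos _).le
          _ = Real.exp (-(2 * ℓ)) * (N * Real.exp (-(Cp * ℓ))) := by
              have : Real.exp (2 * ℓ) * Real.exp (-(4 * ℓ)) = Real.exp (-(2 * ℓ)) := by
                rw [← Real.exp_add]; congr 1; ring
              rw [← this]; ring
          _ ≤ Real.exp (-ℓ) * (N * Real.exp (-(Cp * ℓ))) := by
              apply mul_le_mul_of_nonneg_right _ hNC.le
              exact Real.exp_le_exp.2 (by linarith)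
      have hfin := calc_upper (j := k) (ε' := ε') (t := t) (n := (N : ℝ)) (V := VV (QR R H) z) (U := Uu)
        (W := VV (QR R H) y) (S := (sft (QR R H) y N : ℝ)) (P := (sft (QR R H) z N : ℝ))
        (x := 3 ^ (k + 1) * x) (e := x) hε0' hε1' hN0.le hVz hx0 hUu0 hUu1 (by
          rw [hsplit]
          calc Uu * VV (QR R H) y ≤ (Real.exp t * WW (QR R H) y z) * VV (QR R H) y :=
                mul_le_mul_of_nonneg_right hloc.2 hVy
            _ = _ := by ring) hexpt (by linarith) (by rw [hUu]; linarith) hbig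
      rw [hεε] at hfin
      exact hfin
  have he : ∀ n : ℕ, (0 : ℝ) ≤ (fun _ : ℕ => (1 : ℝ)) n ∧ (fun _ : ℕ => (1 : ℝ)) n ≤ 1 :=
    fun n => ⟨zero_le_one, le_rfl⟩
  have hfinal := few_bad (K := Real.exp (C * ℓ)) (Real.exp_pos _).le he hg hr A hfew k Bad hbad
  refine hfinal.trans (mul_le_mul_of_nonneg_left ?_ (Nat.cast_nonneg _))
  have h2k : (2 : ℝ) ^ k ≤ Real.exp ℓ := by
    calc (2 : ℝ) ^ k ≤ Real.exp 1 ^ k := by
          apply pow_le_pow_left₀ (by norm_num)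
          have := Real.exp_one_gt_d9
          linarith
      _ = Real.exp k := by rw [← Real.exp_nat_mul, mul_one]
      _ ≤ Real.exp ℓ := Real.exp_le_exp.2 (by
          have : ((k + 1 : ℕ) : ℝ) = (k : ℝ) + 1 := by push_cast; ring
          linarith)
  calc (2 : ℝ) ^ k * Real.exp (C * ℓ) ≤ Real.exp ℓ * Real.exp (C * ℓ) :=
        mul_le_mul_of_nonneg_right h2k (Real.exp_pos _).le
    _ = Real.exp (((((C + 1) * (k + 1) : ℕ) : ℝ)) * l) := by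
        rw [← Real.exp_add, hℓd]
        congr 1
        push_cast
        ring
    _ = L ^ ((C + 1) * (k + 1)) := by rw [Real.exp_nat_mul, hl, Real.exp_log hL0]

end Pool.Agent.Y822.G
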