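import Mathlib
import Pool.Agent.Y822.G.Main

/-! From the main theorem to statements about counts. -/

set_option autoImplicit false

namespace Pool.Agent.Y822.G

open Finset Filter
open Pool.Agent.Y822 (ev_logN ev_pow_exp)

/-- `k D (2 z + 1)` is small compared with the expected number -/
lemma small (m D : ℕ) (hm : 1 ≤ m) (ε c δ : ℝ) (hε : 0 < ε) (hc : 0 < c) (hδ8 : δ ≤ 1 / 8) :
    ∃ N₀ : ℕ, ∀ N : ℕ, N₀ ≤ N → ∀ k : ℕ, 1 ≤ k → ((k : ℝ) * Real.log (Real.log N)) ^ 2 ≤ c * Real.log N →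
    ∀ ν : ℕ → ℕ, (∀ p : ℕ, p.Prime → ν p ≤ m * k) → (∀ p : ℕ, p.Prime → ν p < p) →
    ((D * k * (2 * ⌊(N : ℝ) ^ δ⌋₊ + 1) : ℕ) : ℝ) ≤
      ε * (N * ∏ p ∈ ps ⌊(N : ℝ) ^ δ⌋₊, (1 - (ν p : ℝ) / p)) := by
  obtain ⟨Cp, hCp, Np, PLOW⟩ := Pool.Agent.Y388.GL.plow m hm
  have ell := fun {P : ℝ → Prop} (h : ∀ᶠ x in atTop, P x) => ev_logN (Real.tendsto_log_atTop.eventually h)
  obtain ⟨N1, hN1⟩ := eventually_atTop.1 ((ell (eventually_ge_atTop (1 : ℝ))).and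
    ((ev_logN (eventually_ge_atTop (max 1 (16 * c * Cp ^ 2)))).and
      (ev_logN (ev_pow_exp 1 (5 / 8) (3 * D * (1 + c) / ε) (by norm_num)))))
  refine ⟨max (max Np N1) 3, fun N hN k hk hkN ν hν hν' => ?_⟩
  have hNp : Np ≤ N := ((le_max_left _ _).trans (le_max_left _ _)).trans hN
  have hNN1 : N1 ≤ N := ((le_max_right _ _).trans (le_max_left _ _)).trans hN
  have hN3 : 3 ≤ N := (le_max_right _ _).trans hN
  obtain ⟨f1, f2, f3⟩ := hN1 N hNN1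
  set L := Real.log N with hLd
  have hL1 : 1 ≤ L := (le_max_left _ _).trans f2
  have hLc : 16 * c * Cp ^ 2 ≤ L := (le_max_right _ _).trans f2
  have hL0 : 0 < L := by linarith
  have hN0 : (0 : ℝ) < N := by positivity
  have hNe : (N : ℝ) = Real.exp L := by rw [hLd, Real.exp_log hN0]
  have hNr : (1 : ℝ) ≤ N := by exact_mod_cast (by omega : 1 ≤ N)
  obtain ⟨ℓ, hℓd⟩ : ∃ ℓ : ℝ, ℓ = (k : ℝ) * Real.log L := ⟨_, rfl⟩
  rw [← hℓd] at hkN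
  have hk1 : (1 : ℝ) ≤ k := by exact_mod_cast hk
  have hkℓ : (k : ℝ) ≤ ℓ := by
    rw [hℓd]
    exact le_mul_of_one_le_right (by linarith) f1
  have hℓ0 : 0 < ℓ := by linarith
  -- `z ≤ N ^ (1 / 8)`
  have hz8 : ((⌊(N : ℝ) ^ δ⌋₊ : ℕ) : ℝ) ≤ Real.exp (L / 8) := by
    calc ((⌊(N : ℝ) ^ δ⌋₊ : ℕ) : ℝ) ≤ (N : ℝ) ^ δ := Nat.floor_le (by positivity)
      _ ≤ (N : ℝ) ^ (1 / 8 : ℝ) := Real.rpow_le_rpow_of_exponent_le hNr hδ8
      _ = Real.exp (L / 8) := by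
        rw [Real.rpow_def_of_pos hN0, ← hLd]
        congr 1
        ring
  have hzN : ⌊(N : ℝ) ^ δ⌋₊ ≤ N := by
    have h1 : ((⌊(N : ℝ) ^ δ⌋₊ : ℕ) : ℝ) ≤ N := by
      refine hz8.trans ?_
      rw [hNe]
      exact Real.exp_le_exp.2 (by linarith)
    exact_mod_cast h1
  have hV := PLOW N hNp ℓ k hk (by rw [hℓd]) _ hzN ν hν hν'
  -- `Cp ℓ ≤ L / 4`
  have hCL : Cp * ℓ ≤ L / 4 := by
    have h1 : (Cp * ℓ) ^ 2 ≤ (L / 4) ^ 2 := by
      calc (Cp * ℓ) ^ 2 = Cp ^ 2 * ℓ ^ 2 := by ring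
        _ ≤ Cp ^ 2 * (c * L) := mul_le_mul_of_nonneg_left hkN (sq_nonneg _)
        _ = (16 * c * Cp ^ 2) * L / 16 := by ring
        _ ≤ L * L / 16 := by
          have := mul_le_mul_of_nonneg_right hLc hL0.le
          linarith
        _ = (L / 4) ^ 2 := by ring
    exact (pow_le_pow_iff_left₀ (by positivity) (by positivity) (by norm_num)).1 h1
  have hV2 : Real.exp (-(L / 4)) ≤ ∏ p ∈ ps ⌊(N : ℝ) ^ δ⌋₊, (1 - (ν p : ℝ) / p) :=
    le_trans (Real.exp_le_exp.2 (by linarith)) hV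
  have hkL : (k : ℝ) ≤ (1 + c) * L := by
    have h1 : ℓ ≤ 1 + ℓ ^ 2 := by nlinarith [sq_nonneg (ℓ - 1)]
    calc (k : ℝ) ≤ 1 + ℓ ^ 2 := hkℓ.trans h1
      _ ≤ L + c * L := by linarith
      _ = _ := by ring
  have he8 : 1 ≤ Real.exp (L / 8) := Real.one_le_exp (by positivity)
  rw [pow_one, div_mul_eq_mul_div, div_le_iff₀ hε] at f3
  push_cast
  calc (D : ℝ) * k * (2 * ((⌊(N : ℝ) ^ δ⌋₊ : ℕ) : ℝ) + 1) ≤ D * ((1 + c) * L) * (3 * Real.exp (L / 8)) := by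
        apply mul_le_mul _ (by linarith) (by positivity) (by positivity)
        exact mul_le_mul_of_nonneg_left hkL (Nat.cast_nonneg _)
    _ = 3 * D * (1 + c) * L * Real.exp (L / 8) := by ring
    _ ≤ (Real.exp (5 / 8 * L) * ε) * Real.exp (L / 8) := mul_le_mul_of_nonneg_right f3 (Real.exp_pos _).le
    _ = ε * (Real.exp L * Real.exp (-(L / 4))) := by
        have : Real.exp (5 / 8 * L) * Real.exp (L / 8) = Real.exp L * Real.exp (-(L / 4)) := by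
          rw [← Real.exp_add, ← Real.exp_add]
          congr 1
          ring
        rw [← this]
        ring
    _ ≤ ε * (N * ∏ p ∈ ps ⌊(N : ℝ) ^ δ⌋₊, (1 - (ν p : ℝ) / p)) := by
        apply mul_le_mul_of_nonneg_left _ hε.le
        rw [hNe]
        exact mul_le_mul_of_nonneg_left (by rw [← hNe]; exact hV2) (Real.exp_pos _).le

lemma pow_half (j : ℕ) (ε : ℝ) (hε : 0 < ε) : (1 + ε / 2) ^ (j + 1) + ε / 2 ≤ (1 + ε) ^ (j + 1) := by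
  have h1 : (1 + ε / 2) ^ j ≤ (1 + ε) ^ j := pow_le_pow_left₀ (by linarith) (by linarith) _
  have h2 : 1 ≤ (1 + ε / 2) ^ j := one_le_pow₀ (by linarith)
  have h3 : (1 + ε / 2) ^ j * (1 + ε) ≤ (1 + ε) ^ j * (1 + ε) := mul_le_mul_of_nonneg_right h1 (by linarith)
  have h4 : ε / 2 * 1 ≤ ε / 2 * (1 + ε / 2) ^ j := mul_le_mul_of_nonneg_left h2 (by linarith)
  rw [pow_succ, pow_succ]
  linarith

open Classical in
/-- the main theorem with room for `k D (2 z + 1)` exceptions -/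
theorem fin2 (m K D : ℕ) (hm : 1 ≤ m) (ε : ℝ) (hε : 0 < ε) (hε1 : ε ≤ 1) : ∃ δ : ℝ, 0 < δ ∧ δ ≤ 1 / 8 ∧
    ∃ c₁ : ℝ, 0 < c₁ ∧ ∃ B N₀ : ℕ, ∀ N : ℕ, N₀ ≤ N → ∀ k : ℕ, 1 ≤ k →
    ((k : ℝ) * Real.log (Real.log N)) ^ 2 ≤ c₁ * Real.log N →
    ∀ (ι : Type) (R : ι → ℕ → ℕ → Prop) (A : Finset ι), Fam m K N R A →
    ∀ Bad : Finset (Finset ι), (∀ H ∈ Bad, H ∈ A.powersetCard k ∧
      (∀ p : ℕ, p.Prime → rho (QR R H) p < p) ∧
      ¬ ((1 - ε) ^ k * (N * VV (QR R H) ⌊(N : ℝ) ^ δ⌋₊) ≤ sft (QR R H) ⌊(N : ℝ) ^ δ⌋₊ N ∧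
        (sft (QR R H) ⌊(N : ℝ) ^ δ⌋₊ N : ℝ) + ((D * k * (2 * ⌊(N : ℝ) ^ δ⌋₊ + 1) : ℕ) : ℝ) ≤
          (1 + ε) ^ k * (N * VV (QR R H) ⌊(N : ℝ) ^ δ⌋₊))) →
    (Bad.card : ℝ) ≤ A.card.choose (k - 1) * Real.log N ^ (B * k) := by
  obtain ⟨δ, hδ, hδ8, c₁, hc₁, B, N₀, FIN⟩ := fin m K hm (ε / 2) (by positivity) (by linarith)
  obtain ⟨N₁, SM⟩ := small m D hm (ε / 2) c₁ δ (by positivity) hc₁ hδ8
  refine ⟨δ, hδ, hδ8, c₁, hc₁, B, max N₀ N₁, fun N hN k hk hkN ι R A hF Bad hBad => ?_⟩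
  have hN0 : N₀ ≤ N := (le_max_left _ _).trans hN
  have hN1 : N₁ ≤ N := (le_max_right _ _).trans hN
  obtain ⟨j, rfl⟩ : ∃ j, k = j + 1 := ⟨k - 1, by omega⟩
  have h := FIN N hN0 j hkN ι R A hF Bad (fun H hH => ?_)
  · simpa using h
  · obtain ⟨b1, b2, b3⟩ := hBad H hH
    refine ⟨b1, b2, fun hc => b3 ?_⟩
    obtain ⟨c1, c2⟩ := hc
    rw [mem_powersetCard] at b1
    have hρ : ∀ p : ℕ, p.Prime → rho (QR R H) p ≤ m * (j + 1) := by
      intro p hp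
      calc rho (QR R H) p ≤ ∑ a ∈ H, rho (R a) p := Pool.Agent.Y77.GL.rho_QR_le R H p
        _ ≤ ∑ _a ∈ H, m := sum_le_sum fun a ha => hF.rho a (b1.1 ha) p hp
        _ = m * (j + 1) := by rw [sum_const, b1.2, smul_eq_mul, mul_comm]
    have h2 := SM N hN1 (j + 1) hk hkN (rho (QR R H)) hρ b2
    have hV : 0 ≤ (N : ℝ) * VV (QR R H) ⌊(N : ℝ) ^ δ⌋₊ := mul_nonneg (Nat.cast_nonneg _) (VV_nonneg _ _)
    have h2' : ((D * (j + 1) * (2 * ⌊(N : ℝ) ^ δ⌋₊ + 1) : ℕ) : ℝ) ≤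
        ε / 2 * (N * VV (QR R H) ⌊(N : ℝ) ^ δ⌋₊) := h2
    constructor
    · refine le_trans (mul_le_mul_of_nonneg_right ?_ hV) c1
      exact pow_le_pow_left₀ (by linarith) (by linarith) _
    · have h3 := mul_le_mul_of_nonneg_right (pow_half j ε hε) hV
      rw [add_mul] at h3
      linarith

/-- the density of a system without a fixed prime divisor -/
lemma rho_lt {Q : ℕ → ℕ → Prop} (hQ : Per Q) {p : ℕ} (hp : 0 < p) (h : ∃ n : ℕ, ¬ Q p n) : rho Q p < p := by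
  classical
  obtain ⟨n, hn⟩ := h
  unfold rho
  have h1 : (range p).filter (fun r => Q p r) ⊂ range p := by
    rw [filter_ssubset]
    refine ⟨n % p, mem_range.2 (Nat.mod_lt _ hp), ?_⟩
    rw [hQ p n]
    exact hn
  simpa using card_lt_card h1

lemma per_QR {ι : Type*} {R : ι → ℕ → ℕ → Prop} {H : Finset ι} (h : ∀ a ∈ H, Per (R a)) : Per (QR R H) := by
  intro p n
  unfold QR
  constructor
  · rintro ⟨a, ha, hx⟩
    exact ⟨a, ha, (h a ha p n).1 hx⟩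
  · rintro ⟨a, ha, hx⟩
    exact ⟨a, ha, (h a ha p n).2 hx⟩

/-- the number of roots in a complete system of residues -/
lemma rho_Icc {Q : ℕ → ℕ → Prop} [∀ p n, Decidable (Q p n)] (hQ : Per Q) (p : ℕ) :
    ((Icc 1 p).filter (fun n => Q p n)).card = rho Q p := by
  classical
  have hper : Function.Periodic (fun n => Q p n) p := by
    intro n
    simp only [eq_iff_iff]
    rw [← hQ p (n + p), ← hQ p n, Nat.add_mod_right]
  have h1 := Nat.filter_Ico_card_eq_of_periodic 1 p (fun n => Q p n) hper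
  have h2 : Icc 1 p = Ico 1 (1 + p) := by
    ext n
    simp only [mem_Icc, mem_Ico]
    omega
  rw [h2, h1, Nat.count_eq_card_filter_range]
  unfold rho
  congr 1
  ext n
  simp

end Pool.Agent.Y822.G
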