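import Mathlib
import Pool.Agent.Y822.G.Out
import Pool.Agent.Y822.F.Out
import Pool.Agent.Y779.GL.Pol

/-! The family of sifting data attached to a family of integer polynomials. -/

set_option autoImplicit false

namespace Pool.Agent.Y822.G

open Finset Polynomial

/-- two nonconstant irreducible integer polynomials which are not equal up to sign are coprime over `ℚ` -/
lemma coprime_irr {f g : ℤ[X]} (hf : Irreducible f) (hg : Irreducible g) (hf1 : 1 ≤ f.natDegree)
    (hg1 : 1 ≤ g.natDegree) (h1 : f ≠ g) (h2 : f ≠ -g) :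
    IsCoprime (f.map (Int.castRingHom ℚ)) (g.map (Int.castRingHom ℚ)) := by
  have pf : f.IsPrimitive := hf.isPrimitive (by omega)
  have pg : g.IsPrimitive := hg.isPrimitive (by omega)
  have if' := (IsPrimitive.Int.irreducible_iff_irreducible_map_cast pf).1 hf
  rw [if'.coprime_iff_not_dvd]
  intro hd
  have hd' := (IsPrimitive.Int.dvd_iff_map_cast_dvd_map_cast f g pf).2 hd
  obtain ⟨u, hu⟩ := hf.associated_of_dvd hg hd'
  obtain ⟨r, hr, hr'⟩ := Polynomial.isUnit_iff.1 u.isUnit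
  rcases Int.isUnit_iff.1 hr with h | h
  · apply h1
    rw [← hu, ← hr', h]
    simp
  · apply h2
    rw [← hu, ← hr', h]
    simp

/-- few values of a nonconstant polynomial are small -/
lemma few_small (f : ℤ[X]) (hf : 1 ≤ f.natDegree) (X z : ℕ) :
    ((Icc 1 X).filter (fun n : ℕ => (f.eval (n : ℤ)).natAbs ≤ z)).card ≤ f.natDegree * (2 * z + 1) := by
  classical
  have h1 : ∀ n ∈ (Icc 1 X).filter (fun n : ℕ => (f.eval (n : ℤ)).natAbs ≤ z),
      f.eval (n : ℤ) ∈ Icc (-(z : ℤ)) z := by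
    intro n hn
    rw [mem_filter] at hn
    rw [mem_Icc]
    have := hn.2
    omega
  have h2 := card_le_mul_card_image_of_maps_to h1 f.natDegree (fun v _ => ?_)
  · refine h2.trans (le_of_eq ?_)
    rw [Int.card_Icc]
    congr 1
    omega
  · have h3 : (((Icc 1 X).filter (fun n : ℕ => (f.eval (n : ℤ)).natAbs ≤ z)).filter
        (fun n : ℕ => f.eval (n : ℤ) = v)).image (fun n : ℕ => (n : ℤ)) ⊆ (f - C v).roots.toFinset := by
      intro x hx
      rw [mem_image] at hx
      obtain ⟨n, hn, rfl⟩ := hx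
      rw [mem_filter] at hn
      have hne : f - C v ≠ 0 := by
        intro h0
        have : f = C v := by rwa [sub_eq_zero] at h0
        rw [this, natDegree_C] at hf
        omega
      rw [Multiset.mem_toFinset, mem_roots hne]
      simp [hn.2]
    have h4 := card_le_card h3
    rw [card_image_of_injective _ Nat.cast_injective] at h4
    refine h4.trans ((Multiset.toFinset_card_le _).trans ?_)
    exact card_roots_sub_C' (natDegree_pos_iff_degree_pos.1 hf)

open Classical in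
/-- the family of the polynomials without a fixed prime divisor -/
noncomputable def AP (F : Finset ℤ[X]) : Finset ℤ[X] :=
  F.filter (fun f => ∀ p : ℕ, p.Prime → ∃ n : ℕ, ¬ (p : ℤ) ∣ f.eval (n : ℤ))

lemma fam_pol {D C K X : ℕ} (F : Finset ℤ[X])
    (h1 : ∀ f ∈ F, Irreducible f ∧ 1 ≤ f.natDegree ∧ f.natDegree ≤ D ∧ ∀ i, |f.coeff i| ≤ (X : ℤ) ^ C)
    (h2 : ∀ f ∈ F, ∀ g ∈ F, f ≠ -g)
    (hpol : ∀ f : Polynomial ℤ, f.natDegree ≤ D → (∀ i, |f.coeff i| ≤ (X : ℤ) ^ C) →
    (∀ n : ℕ, n ≤ X → |f.eval (n : ℤ)| ≤ (X : ℤ) ^ K) ∧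
    ∀ g : Polynomial ℤ, g.natDegree ≤ D → (∀ i, |g.coeff i| ≤ (X : ℤ) ^ C) →
      IsCoprime (f.map (Int.castRingHom ℚ)) (g.map (Int.castRingHom ℚ)) →
      ∃ Δ : ℕ, 1 ≤ Δ ∧ Δ ≤ X ^ K ∧ ∀ p : ℕ, p.Prime → ∀ n : ℕ, RP f p n → RP g p n → p ∣ Δ) :
    Fam (D + 1) K X RP (AP F) := by
  classical
  refine ⟨fun f _ => Pool.Agent.Y779.GL.per f, fun f hf p hp => ?_, fun f hf n hn => ?_, fun f hf g hg hne => ?_⟩
  · unfold AP at hf
    rw [mem_filter] at hf
    have := Pool.Agent.Y779.GL.rho_le f p hp (hf.2 p hp)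
    have := (h1 f hf.1).2.2.1
    omega
  · unfold AP at hf
    rw [mem_filter] at hf
    rw [mem_Icc] at hn
    obtain ⟨-, -, g3, g4⟩ := h1 f hf.1
    by_cases h0 : f.eval (n : ℤ) = 0
    · left
      unfold RP
      rw [h0]
      exact dvd_zero _
    · right
      refine ⟨(f.eval (n : ℤ)).natAbs, Int.natAbs_pos.2 h0, ?_, fun p _ hp => ?_⟩
      · have h5 := (hpol f g3 g4).1 n hn.2
        have h6 : (((f.eval (n : ℤ)).natAbs : ℕ) : ℤ) ≤ ((X ^ K : ℕ) : ℤ) := by
          rw [Int.natCast_natAbs]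
          push_cast
          exact h5
        exact_mod_cast h6
      · exact Int.natCast_dvd.1 hp
  · unfold AP at hf hg
    rw [mem_filter] at hf hg
    obtain ⟨a1, a2, a3, a4⟩ := h1 f hf.1
    obtain ⟨b1, b2, b3, b4⟩ := h1 g hg.1
    exact (hpol f a3 a4).2 g b3 b4 (coprime_irr a1 b1 a2 b2 hne (h2 f hf.1 g hg.1))

end Pool.Agent.Y822.G
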