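import Mathlib
import Pool.Agent.Y822.G.Out

/-! The family of sifting data attached to a family of shifts. -/

set_option autoImplicit false

namespace Pool.Agent.Y822.G

open Finset

lemma per_RS (h : ℤ) : Per (RS h) := by
  intro p n
  unfold RS
  push_cast
  constructor
  · intro hd
    have h1 : (n : ℤ) + h = ((n : ℤ) % p + h) + p * (n / p) := by
      have := Int.emod_add_mul_ediv (n : ℤ) p
      linear_combination -this
    rw [h1]
    exact dvd_add hd (Dvd.intro _ rfl)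
  · intro hd
    have h1 : (n : ℤ) % p + h = ((n : ℤ) + h) - p * (n / p) := by
      have := Int.emod_add_mul_ediv (n : ℤ) p
      linear_combination this
    rw [h1]
    exact dvd_sub hd (Dvd.intro _ rfl)

lemma rho_RS_le (h : ℤ) (p : ℕ) : rho (RS h) p ≤ 1 := by
  classical
  unfold rho
  rw [card_le_one]
  intro a ha b hb
  rw [mem_filter, mem_range] at ha hb
  have h1 : (p : ℤ) ∣ (a : ℤ) - b := by
    have := dvd_sub ha.2 hb.2
    have e : ((a : ℤ) + h) - (b + h) = a - b := by ring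
    rwa [e] at this
  have h2 : |(a : ℤ) - b| < p := by
    rw [abs_lt]
    constructor <;> omega
  have h3 := Int.eq_zero_of_abs_lt_dvd h1 h2
  omega

/-- the number of classes avoided is the number of classes occupied by the shifts -/
lemma rho_shift (H : Finset ℤ) {p : ℕ} (hp : 0 < p) :
    rho (QR RS H) p = (H.image (fun h : ℤ => (h : ZMod p))).card := by
  classical
  have : NeZero p := ⟨hp.ne'⟩
  unfold rho
  refine card_bij (fun r _ => -(r : ZMod p)) ?_ ?_ ?_
  · intro r hr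
    rw [mem_filter] at hr
    obtain ⟨h, hh, hd⟩ := hr.2
    rw [mem_image]
    refine ⟨h, hh, ?_⟩
    unfold RS at hd
    have h1 : (((r : ℤ) + h : ℤ) : ZMod p) = 0 := (ZMod.intCast_zmod_eq_zero_iff_dvd _ p).2 hd
    push_cast at h1
    linear_combination h1
  · intro a ha b hb hab
    rw [mem_filter, mem_range] at ha hb
    have h1 : (a : ZMod p) = b := neg_injective hab
    rw [ZMod.natCast_eq_natCast_iff'] at h1
    rwa [Nat.mod_eq_of_lt ha.1, Nat.mod_eq_of_lt hb.1] at h1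
  · intro x hx
    rw [mem_image] at hx
    obtain ⟨h, hh, rfl⟩ := hx
    refine ⟨(-(h : ZMod p)).val, ?_, ?_⟩
    · rw [mem_filter, mem_range]
      refine ⟨ZMod.val_lt _, h, hh, ?_⟩
      unfold RS
      rw [← ZMod.intCast_zmod_eq_zero_iff_dvd]
      push_cast
      rw [ZMod.natCast_zmod_val]
      ring
    · rw [ZMod.natCast_zmod_val]
      ring

lemma fam_shift {C N : ℕ} (hN : 2 ≤ N) (F : Finset ℤ) (h1 : ∀ h ∈ F, |h| ≤ (N : ℤ) ^ C) :
    Fam 1 (C + 2) N RS F := by
  have hN2 : (2 : ℤ) ≤ N := by exact_mod_cast hN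
  have hN1 : (1 : ℤ) ≤ N := by linarith
  have key : ∀ x : ℤ, |x| ≤ (N : ℤ) ^ (C + 2) → x.natAbs ≤ N ^ (C + 2) := by
    intro x hx
    have h3 : ((x.natAbs : ℕ) : ℤ) ≤ ((N ^ (C + 2) : ℕ) : ℤ) := by
      rw [Int.natCast_natAbs]
      push_cast
      exact hx
    exact_mod_cast h3
  have hp1 : (1 : ℤ) ≤ (N : ℤ) ^ C := one_le_pow₀ hN1
  have hp2 : (N : ℤ) ^ (C + 2) = N ^ C * N * N := by ring
  have hp3 : (N : ℤ) ^ C * 2 ≤ N ^ C * N := mul_le_mul_of_nonneg_left hN2 (by positivity)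
  have hp4 : (N : ℤ) ^ C * N * 2 ≤ N ^ C * N * N := mul_le_mul_of_nonneg_left hN2 (by positivity)
  have hp5 : (1 : ℤ) * N ≤ N ^ C * N := mul_le_mul_of_nonneg_right hp1 (by positivity)
  refine ⟨fun h _ => per_RS h, fun h _ p _ => rho_RS_le h p, fun h hh n hn => ?_, fun h hh h' hh' hne => ?_⟩
  · rw [mem_Icc] at hn
    have hn2 : (n : ℤ) ≤ N := by exact_mod_cast hn.2
    by_cases h0 : (n : ℤ) + h = 0
    · left
      unfold RS
      rw [h0]
      exact dvd_zero _
    · right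
      refine ⟨((n : ℤ) + h).natAbs, Int.natAbs_pos.2 h0, key _ ?_, fun p _ hp => Int.natCast_dvd.1 hp⟩
      have h3 := abs_add_le (n : ℤ) h
      rw [abs_of_nonneg (by positivity : (0 : ℤ) ≤ (n : ℤ))] at h3
      have h4 := h1 h hh
      linarith
  · have h0 : h - h' ≠ 0 := sub_ne_zero.2 hne
    refine ⟨(h - h').natAbs, Int.natAbs_pos.2 h0, key _ ?_, fun p _ n a b => ?_⟩
    · have h3 := abs_sub h h'
      have h4 := h1 h hh
      have h5 := h1 h' hh'
      linarith
    · apply Int.natCast_dvd.1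
      unfold RS at a b
      have := dvd_sub a b
      have e : ((n : ℤ) + h) - (n + h') = h - h' := by ring
      rwa [e] at this

lemma abs_shift_le {C N n : ℕ} {h : ℤ} (hN : 2 ≤ N) (h1 : |h| ≤ (N : ℤ) ^ C) (hn : n ≤ N) :
    ((((n : ℤ) + h).natAbs : ℕ) : ℝ) ≤ (N : ℝ) ^ (C + 2) := by
  have hN2 : (2 : ℤ) ≤ N := by exact_mod_cast hN
  have hN1 : (1 : ℤ) ≤ N := by linarith
  have hn2 : (n : ℤ) ≤ N := by exact_mod_cast hn
  have hp1 : (1 : ℤ) ≤ (N : ℤ) ^ C := one_le_pow₀ hN1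
  have hp2 : (N : ℤ) ^ (C + 2) = N ^ C * N * N := by ring
  have hp3 : (N : ℤ) ^ C * 2 ≤ N ^ C * N := mul_le_mul_of_nonneg_left hN2 (by positivity)
  have hp4 : (N : ℤ) ^ C * N * 2 ≤ N ^ C * N * N := mul_le_mul_of_nonneg_left hN2 (by positivity)
  have hp5 : (1 : ℤ) * N ≤ N ^ C * N := mul_le_mul_of_nonneg_right hp1 (by positivity)
  have h3 := abs_add_le (n : ℤ) h
  rw [abs_of_nonneg (by positivity : (0 : ℤ) ≤ (n : ℤ))] at h3
  have h4 : ((((n : ℤ) + h).natAbs : ℕ) : ℤ) ≤ ((N ^ (C + 2) : ℕ) : ℤ) := by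
    rw [Int.natCast_natAbs]
    push_cast
    linarith
  exact_mod_cast h4

/-- few shifted numbers are small -/
lemma few_small_shift (h : ℤ) (N z : ℕ) :
    ((Icc 1 N).filter (fun n : ℕ => ((n : ℤ) + h).natAbs ≤ z)).card ≤ 2 * z + 1 := by
  classical
  have h1 : ((Icc 1 N).filter (fun n : ℕ => ((n : ℤ) + h).natAbs ≤ z)).image (fun n : ℕ => (n : ℤ) + h) ⊆
      Icc (-(z : ℤ)) z := by
    intro x hx
    rw [mem_image] at hx
    obtain ⟨n, hn, rfl⟩ := hx
    rw [mem_filter] at hn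
    rw [mem_Icc]
    have := hn.2
    omega
  have h2 := card_le_card h1
  rw [card_image_of_injective _ (fun a b hab => by simpa using hab), Int.card_Icc] at h2
  omega

end Pool.Agent.Y822.G
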